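import Pool.Agent.W663.IA.Grp

set_option autoImplicit false
set_option linter.unusedSectionVars false

namespace Pool.Agent.W663.IA

open FreeGroup (of of_ne_one)

/-! ### words of row operators -/

theorem ev_of_ge {s : ℕ} (y : Fin s → ZMod 2) {k : ℕ} (h : s ≤ k) : ev y k = 0 := by
  unfold ev
  rw [dif_neg (by omega)]

theorem ev_of_lt {s : ℕ} (y : Fin s → ZMod 2) {k : ℕ} (h : k < s) : ev y k = y ⟨k, h⟩ := by
  unfold ev
  rw [dif_pos h]

theorem ev_rowX_true {s : ℕ} (y : Fin s → ZMod 2) (k : ℕ) : ev (rowX true y) k = ev y (k + 1) := by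
  by_cases h : k < s
  · rw [ev_of_lt _ h]
    rfl
  · rw [ev_of_ge _ (by omega), ev_of_ge _ (by omega)]

theorem ev_rowX_false {s : ℕ} (y : Fin s → ZMod 2) (k : ℕ) :
    ev (rowX false y) k = if k + 1 = s then ev y 0 else 0 := by
  by_cases h : k < s
  · rw [ev_of_lt _ h]
    rfl
  · rw [ev_of_ge _ (by omega), if_neg (by omega)]

theorem ev_rep {s : ℕ} (i : ℕ) (w : List Bool) (y : Fin s → ZMod 2) : ∀ k,
    ev (Xw rowX (List.replicate i true ++ w) y) k = ev (Xw rowX w y) (k + i) := by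
  induction i with
  | zero => intro k; rfl
  | succ i ih =>
    intro k
    show ev (rowX true (Xw rowX (List.replicate i true ++ w) y)) k = _
    rw [ev_rowX_true, ih]
    congr 1
    omega

/-- the words giving the matrix units -/
def muW (i m j : ℕ) : List Bool :=
  List.replicate i true ++ (false :: (List.replicate m true ++ (false ::
    (List.replicate j true ++ []))))

theorem ev_muW {s : ℕ} (i m j k : ℕ) (y : Fin s → ZMod 2) :
    ev (Xw rowX (muW i m j) y) k = if k + i + 1 = s ∧ m + 1 = s then ev y j else 0 := by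
  unfold muW
  rw [ev_rep]
  show ev (rowX false (Xw rowX (List.replicate m true ++ (false ::
    (List.replicate j true ++ []))) y)) (k + i) = _
  rw [ev_rowX_false, ev_rep]
  by_cases h1 : k + i + 1 = s
  · rw [if_pos h1]
    show ev (rowX false (Xw rowX (List.replicate j true ++ []) y)) (0 + m) = _
    rw [ev_rowX_false, ev_rep]
    by_cases h2 : m + 1 = s
    · rw [if_pos (by omega), if_pos ⟨h1, h2⟩]
      show ev y (0 + j) = _
      rw [zero_add]
    · rw [if_neg (by omega), if_neg (fun h => h2 h.2)]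
  · rw [if_neg h1, if_neg (fun h => h1 h.1)]

/-! ### the finite index set -/

/-- the index set of the levels `< N` -/
abbrev II (N : ℕ) : Type := Σ n : Fin N, ZMod (n.1 + 1) × Fin (sz n.1)

variable {N : ℕ}

/-- the row at a position -/
def row (x : II N → ZMod 2) (n : Fin N) (i : ZMod (n.1 + 1)) : Fin (sz n.1) → ZMod 2 :=
  fun q => x ⟨n, i, q⟩

/-- the operators on the dual side -/
def Xop (b : Bool) (x : II N → ZMod 2) : II N → ZMod 2 :=
  fun t => rowX b (row x t.1 t.2.1) t.2.2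

/-- the operators on the group side -/
def Top (b : Bool) (x : II N → ZMod 2) : II N → ZMod 2 :=
  fun t => rowT b (row x t.1 t.2.1) t.2.2

theorem Xop_add (b : Bool) (x y : II N → ZMod 2) : Xop b (x + y) = Xop b x + Xop b y := by
  funext t
  show rowX b (row x t.1 t.2.1 + row y t.1 t.2.1) t.2.2 = _
  rw [rowX_add]
  rfl

theorem sum_II (f : II N → ZMod 2) :
    ∑ t, f t = ∑ n : Fin N, ∑ i : ZMod (n.1 + 1), ∑ q : Fin (sz n.1), f ⟨n, i, q⟩ := by
  rw [Fintype.sum_sigma]
  refine Finset.sum_congr rfl fun n _ => ?_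
  rw [Fintype.sum_prod_type]

theorem op_transpose (b : Bool) (x z : II N → ZMod 2) : dt (Xop b x) z = dt x (Top b z) := by
  unfold dt
  rw [sum_II, sum_II]
  refine Finset.sum_congr rfl fun n _ => ?_
  refine Finset.sum_congr rfl fun i _ => ?_
  exact row_transpose b (row x n i) (row z n i)

theorem row_Xw (w : List Bool) (x : II N → ZMod 2) (n : Fin N) (i : ZMod (n.1 + 1)) :
    row (Xw Xop w x) n i = Xw rowX w (row x n i) := by
  induction w with
  | nil => rfl
  | cons b w ih =>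
    show row (Xop b (Xw Xop w x)) n i = rowX b (Xw rowX w (row x n i))
    rw [← ih]
    rfl

theorem Xw_at (w : List Bool) (x : II N → ZMod 2) (n : Fin N) (i : ZMod (n.1 + 1))
    (p : Fin (sz n.1)) : Xw Xop w x ⟨n, i, p⟩ = ev (Xw rowX w (row x n i)) p.1 := by
  rw [ev_fin, ← row_Xw]
  rfl

theorem dt_muW (x z : II N → ZMod 2) (n : Fin N) (p q : Fin (sz n.1)) :
    dt z (Xw Xop (muW (sz n.1 - 1 - p.1) (sz n.1 - 1) q.1) x) =
      ∑ i : ZMod (n.1 + 1), z ⟨n, i, p⟩ * x ⟨n, i, q⟩ := by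
  have hs := sz_pos n.1
  unfold dt
  rw [sum_II, Finset.sum_eq_single n]
  · refine Finset.sum_congr rfl fun i _ => ?_
    have h1 : ∀ p' : Fin (sz n.1), Xw Xop (muW (sz n.1 - 1 - p.1) (sz n.1 - 1) q.1) x ⟨n, i, p'⟩ =
        if p' = p then x ⟨n, i, q⟩ else 0 := by
      intro p'
      rw [Xw_at, ev_muW, ev_fin]
      have hp := p.2
      have hp' := p'.2
      by_cases h4 : p' = p
      · rw [if_pos h4, if_pos ⟨by rw [h4]; omega, by omega⟩]
        rfl
      · rw [if_neg h4, if_neg]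
        rintro ⟨h5, -⟩
        apply h4
        apply Fin.ext
        omega
    rw [Finset.sum_eq_single p]
    · rw [h1, if_pos rfl]
    · intro p' _ hp'
      rw [h1, if_neg hp', mul_zero]
    · intro h
      exact absurd (Finset.mem_univ p) h
  · intro n' _ hn'
    refine Finset.sum_eq_zero fun i _ => Finset.sum_eq_zero fun p' _ => ?_
    rw [Xw_at, ev_muW, if_neg, mul_zero]
    rintro ⟨-, h5⟩
    apply hn'
    apply Fin.ext
    unfold sz at h5
    omega
  · intro h
    exact absurd (Finset.mem_univ n) h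

/-- `x` is bad at level `n` -/
def badAt (n : Fin N) (x : II N → ZMod 2) : Prop :=
  ∃ z : ZMod (n.1 + 1) → ZMod 2, z ≠ 0 ∧ ∀ q, ∑ i, z i * x ⟨n, i, q⟩ = 0

open Classical in
/-- the bad set -/
noncomputable def badS (N : ℕ) : Finset (II N → ZMod 2) :=
  Finset.univ.filter fun x => ∃ n, badAt n x

theorem badS_spec (x : II N → ZMod 2) (hx : x ∉ badS N) (z : II N → ZMod 2)
    (h : ∀ w, dt z (Xw Xop w x) = 0) : z = 0 := by
  classical
  have h1 : ∀ n, ¬ badAt n x := by
    intro n hn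
    exact hx (Finset.mem_filter.2 ⟨Finset.mem_univ _, n, hn⟩)
  funext t
  obtain ⟨n, i, p⟩ := t
  by_contra h2
  apply h1 n
  refine ⟨fun i => z ⟨n, i, p⟩, fun h3 => h2 (congrFun h3 i), fun q => ?_⟩
  rw [← dt_muW]
  exact h _

open Classical in
theorem card_ker (n : Fin N) (z : ZMod (n.1 + 1) → ZMod 2) (hz : z ≠ 0) :
    ((Finset.univ.filter fun x : II N → ZMod 2 => ∀ q, ∑ i, z i * x ⟨n, i, q⟩ = 0).card) *
      2 ^ (sz n.1) ≤ Fintype.card (II N → ZMod 2) := by
  obtain ⟨i0, hi0⟩ := Function.ne_iff.1 hz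
  have hi1 : z i0 = 1 := by
    rcases zmod2_cases (z i0) with h | h
    · exact absurd h hi0
    · exact h
  have h1 : Fintype.card (Fin (sz n.1) → ZMod 2) = 2 ^ (sz n.1) := by
    rw [Fintype.card_fun, ZMod.card, Fintype.card_fin]
  rw [← h1, ← Fintype.card_coe, ← Fintype.card_prod]
  refine Fintype.card_le_of_injective (fun u : {x // x ∈ Finset.univ.filter fun x : II N → ZMod 2 =>
    ∀ q, ∑ i, z i * x ⟨n, i, q⟩ = 0} × (Fin (sz n.1) → ZMod 2) =>
    fun t : II N => u.1.1 t + if h : t.1 = n ∧ HEq t.2.1 i0 then u.2 (Fin.cast (by rw [h.1]) t.2.2)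
      else 0) ?_
  have key : ∀ (u : {x // x ∈ Finset.univ.filter fun x : II N → ZMod 2 =>
      ∀ q, ∑ i, z i * x ⟨n, i, q⟩ = 0} × (Fin (sz n.1) → ZMod 2)) (q : Fin (sz n.1)),
      ∑ i, z i * (u.1.1 ⟨n, i, q⟩ + if h : (⟨n, i, q⟩ : II N).1 = n ∧
        HEq (⟨n, i, q⟩ : II N).2.1 i0 then u.2 (Fin.cast (by rw [h.1]) (⟨n, i, q⟩ : II N).2.2)
      else 0) = u.2 q := by
    intro u q
    have h2 := (Finset.mem_filter.1 u.1.2).2 q
    have h3 : ∀ i, z i * (u.1.1 ⟨n, i, q⟩ + if h : (⟨n, i, q⟩ : II N).1 = n ∧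
        HEq (⟨n, i, q⟩ : II N).2.1 i0 then u.2 (Fin.cast (by rw [h.1]) (⟨n, i, q⟩ : II N).2.2)
      else 0) = z i * u.1.1 ⟨n, i, q⟩ + if i = i0 then u.2 q else 0 := by
      intro i
      rw [mul_add]
      congr 1
      by_cases hi : i = i0
      · subst hi
        rw [dif_pos ⟨rfl, HEq.rfl⟩, if_pos rfl, hi1, one_mul]
        rfl
      · rw [dif_neg (fun h => hi (eq_of_heq h.2)), if_neg hi, mul_zero]
    rw [Finset.sum_congr rfl fun i _ => h3 i, Finset.sum_add_distrib, h2, zero_add,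
      Finset.sum_ite_eq']
    simp
  intro u u' huu
  have h4 : u.2 = u'.2 := by
    funext q
    rw [← key u q, ← key u' q]
    refine Finset.sum_congr rfl fun i _ => ?_
    have := congrFun huu ⟨n, i, q⟩
    exact congrArg (fun a => z i * a) this
  have h5 : u.1 = u'.1 := by
    apply Subtype.ext
    funext t
    have := congrFun huu t
    have h6 : u.1.1 t + (if h : t.1 = n ∧ HEq t.2.1 i0 then u.2 (Fin.cast (by rw [h.1]) t.2.2)
      else 0) = u'.1.1 t + (if h : t.1 = n ∧ HEq t.2.1 i0 then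
        u'.2 (Fin.cast (by rw [h.1]) t.2.2) else 0) := this
    rw [h4] at h6
    exact add_right_cancel h6
  exact Prod.ext h5 h4

theorem badS_card : ((badS N).card : ℝ) ≤ (1 / 256) * (Fintype.card (II N → ZMod 2) : ℝ) := by
  classical
  set C : ℝ := (Fintype.card (II N → ZMod 2) : ℝ) with hC
  have hC0 : 0 ≤ C := Nat.cast_nonneg _
  have h1 : badS N ⊆ Finset.univ.biUnion fun n : Fin N =>
      (Finset.univ.filter fun z : ZMod (n.1 + 1) → ZMod 2 => z ≠ 0).biUnion fun z =>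
        Finset.univ.filter fun x : II N → ZMod 2 => ∀ q, ∑ i, z i * x ⟨n, i, q⟩ = 0 := by
    intro x hx
    unfold badS at hx
    obtain ⟨-, n, z, hz, hq⟩ := Finset.mem_filter.1 hx
    rw [Finset.mem_biUnion]
    refine ⟨n, Finset.mem_univ _, ?_⟩
    rw [Finset.mem_biUnion]
    exact ⟨z, Finset.mem_filter.2 ⟨Finset.mem_univ _, hz⟩, Finset.mem_filter.2
      ⟨Finset.mem_univ _, hq⟩⟩
  have h2 : ∀ n : Fin N, ∀ z ∈ (Finset.univ.filter fun z : ZMod (n.1 + 1) → ZMod 2 => z ≠ 0),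
      (((Finset.univ.filter fun x : II N → ZMod 2 => ∀ q, ∑ i, z i * x ⟨n, i, q⟩ = 0).card : ℕ) :
        ℝ) ≤ C / 2 ^ (sz n.1) := by
    intro n z hz
    have h3 := card_ker n z (Finset.mem_filter.1 hz).2
    rw [le_div_iff₀ (by positivity), hC]
    exact_mod_cast h3
  have h3 : ∀ n : Fin N, ((((Finset.univ.filter fun z : ZMod (n.1 + 1) → ZMod 2 =>
      z ≠ 0).biUnion fun z => Finset.univ.filter fun x : II N → ZMod 2 =>
        ∀ q, ∑ i, z i * x ⟨n, i, q⟩ = 0).card : ℕ) : ℝ) ≤ C * ((1 / 2) ^ n.1 * (1 / 512)) := by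
    intro n
    have h4 : (((((Finset.univ.filter fun z : ZMod (n.1 + 1) → ZMod 2 =>
      z ≠ 0).biUnion fun z => Finset.univ.filter fun x : II N → ZMod 2 =>
        ∀ q, ∑ i, z i * x ⟨n, i, q⟩ = 0).card : ℕ)) : ℝ) ≤
        ∑ z ∈ (Finset.univ.filter fun z : ZMod (n.1 + 1) → ZMod 2 => z ≠ 0),
          (((Finset.univ.filter fun x : II N → ZMod 2 =>
            ∀ q, ∑ i, z i * x ⟨n, i, q⟩ = 0).card : ℕ) : ℝ) := by
      exact_mod_cast Finset.card_biUnion_le
    refine h4.trans ((Finset.sum_le_sum (h2 n)).trans ?_)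
    rw [Finset.sum_const, nsmul_eq_mul]
    have h5 : (((Finset.univ.filter fun z : ZMod (n.1 + 1) → ZMod 2 => z ≠ 0).card : ℕ) : ℝ) ≤
        2 ^ (n.1 + 1) := by
      have h6 : (Finset.univ.filter fun z : ZMod (n.1 + 1) → ZMod 2 => z ≠ 0).card ≤
          Fintype.card (ZMod (n.1 + 1) → ZMod 2) := Finset.card_filter_le _ _
      rw [Fintype.card_fun, ZMod.card, ZMod.card] at h6
      exact_mod_cast h6
    calc _ ≤ (2 : ℝ) ^ (n.1 + 1) * (C / 2 ^ (sz n.1)) :=
          mul_le_mul_of_nonneg_right h5 (by positivity)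
      _ = C * ((1 / 2) ^ n.1 * (1 / 512)) := by
          unfold sz
          rw [one_div_pow]
          field_simp
          ring
  have h4 : ((badS N).card : ℝ) ≤ ∑ n : Fin N, C * ((1 / 2) ^ n.1 * (1 / 512)) := by
    have h5 : ((badS N).card : ℝ) ≤ ∑ n : Fin N, ((((Finset.univ.filter fun z :
      ZMod (n.1 + 1) → ZMod 2 => z ≠ 0).biUnion fun z => Finset.univ.filter fun x :
        II N → ZMod 2 => ∀ q, ∑ i, z i * x ⟨n, i, q⟩ = 0).card : ℕ) : ℝ) := by
      have h6 := (Finset.card_le_card h1).trans Finset.card_biUnion_le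
      exact_mod_cast h6
    exact h5.trans (Finset.sum_le_sum fun n _ => h3 n)
  refine h4.trans ?_
  rw [← Finset.mul_sum, ← Finset.sum_mul, mul_comm (1 / 256 : ℝ) C]
  refine mul_le_mul_of_nonneg_left ?_ hC0
  have h5 : ∑ n : Fin N, ((1 / 2 : ℝ) ^ n.1) ≤ 2 := by
    rw [Fin.sum_univ_eq_sum_range (fun k => (1 / 2 : ℝ) ^ k) N]
    exact sum_geometric_two_le N
  linarith

end Pool.Agent.W663.IA
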