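import Pool.Agent.W663.IA.RT

set_option autoImplicit false
set_option linter.unusedSectionVars false

open scoped ComplexConjugate

namespace Pool.Agent.W663.IA

/-- the nontrivial character of `ZMod 2` -/
noncomputable def ch (a : ZMod 2) : ℂ := if a = 0 then 1 else -1

theorem zmod2_cases (a : ZMod 2) : a = 0 ∨ a = 1 := by
  revert a
  decide

theorem ch_zero : ch 0 = 1 := if_pos rfl
theorem ch_one : ch 1 = -1 := if_neg (by decide)

theorem ch_add (a b : ZMod 2) : ch (a + b) = ch a * ch b := by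
  rcases zmod2_cases a with rfl | rfl <;> rcases zmod2_cases b with rfl | rfl
  · simp [ch_zero]
  · simp [ch_zero, ch_one]
  · simp [ch_zero, ch_one]
  · have : (1 + 1 : ZMod 2) = 0 := by decide
    rw [this, ch_zero, ch_one]; norm_num

theorem ch_conj (a : ZMod 2) : conj (ch a) = ch a := by
  rcases zmod2_cases a with rfl | rfl
  · rw [ch_zero, map_one]
  · rw [ch_one, map_neg, map_one]

theorem ch_norm (a : ZMod 2) : ‖ch a‖ = 1 := by
  rcases zmod2_cases a with rfl | rfl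
  · rw [ch_zero, norm_one]
  · rw [ch_one, norm_neg, norm_one]

theorem ch_sq (a : ZMod 2) : ch a * ch a = 1 := by
  rw [← ch_add, CharTwo.add_self_eq_zero, ch_zero]

section pairing

variable {V W : Type} [AddCommGroup V] [Fintype V] [AddCommGroup W] [Fintype W] [DecidableEq W]
  (B : V → W → ZMod 2) (hl : ∀ v v' w, B (v + v') w = B v w + B v' w)
  (hr : ∀ v w w', B v (w - w') = B v w + B v w') (hnd : ∀ w, w ≠ 0 → ∃ v, B v w ≠ 0)

include hl in
theorem orth_sum (w : W) (hw : ∃ v, B v w ≠ 0) : ∑ v, ch (B v w) = 0 := by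
  obtain ⟨v0, hv0⟩ := hw
  have h1 : B v0 w = 1 := by
    rcases zmod2_cases (B v0 w) with h | h
    · exact absurd h hv0
    · exact h
  have h2 : ∑ v, ch (B (v + v0) w) = ∑ v, ch (B v w) :=
    Equiv.sum_comp (Equiv.addRight v0) (fun v => ch (B v w))
  have h3 : ∑ v, ch (B (v + v0) w) = -∑ v, ch (B v w) := by
    rw [← Finset.sum_neg_distrib]
    refine Finset.sum_congr rfl fun v _ => ?_
    rw [hl, ch_add, h1, ch_one]
    ring
  rw [h2] at h3
  have h4 : (2 : ℂ) * ∑ v, ch (B v w) = 0 := by linear_combination h3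
  rcases mul_eq_zero.1 h4 with h5 | h5
  · norm_num at h5
  · exact h5

theorem normSq_conj (z : ℂ) : ((‖z‖ ^ 2 : ℝ) : ℂ) = z * conj z := by
  rw [Complex.mul_conj, Complex.normSq_eq_norm_sq]

include hl hr hnd in
theorem parseval (a : W → ℂ) :
    ∑ v, ‖∑ w, a w * ch (B v w)‖ ^ 2 = (Fintype.card V : ℝ) * ∑ w, ‖a w‖ ^ 2 := by
  have h0 : ∀ v, B v 0 = 0 := by
    intro v
    have := hr v 0 0
    rw [sub_zero, CharTwo.add_self_eq_zero] at this
    exact this
  have h1 : ((∑ v, ‖∑ w, a w * ch (B v w)‖ ^ 2 : ℝ) : ℂ) =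
      ((Fintype.card V : ℝ) * ∑ w, ‖a w‖ ^ 2 : ℝ) := by
    push_cast
    have h2 : ∀ v, ((‖∑ w, a w * ch (B v w)‖ : ℂ)) ^ 2 =
        ∑ w, ∑ w', a w * conj (a w') * ch (B v (w - w')) := by
      intro v
      have h3 := normSq_conj (∑ w, a w * ch (B v w))
      push_cast at h3
      rw [h3, map_sum, Finset.sum_mul]
      refine Finset.sum_congr rfl fun w _ => ?_
      rw [Finset.mul_sum]
      refine Finset.sum_congr rfl fun w' _ => ?_
      rw [map_mul, ch_conj, hr, ch_add]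
      ring
    rw [Finset.sum_congr rfl fun v _ => h2 v, Finset.sum_comm, Finset.mul_sum]
    refine Finset.sum_congr rfl fun w _ => ?_
    rw [Finset.sum_comm, Finset.sum_eq_single w]
    · rw [sub_self]
      simp only [h0, ch_zero, mul_one]
      rw [Finset.sum_const, Finset.card_univ, nsmul_eq_mul]
      have h3 := normSq_conj (a w)
      push_cast at h3
      rw [h3]
    · intro w' _ hw'
      rw [← Finset.mul_sum, orth_sum B hl (w - w') (hnd _ (sub_ne_zero.2 (Ne.symm hw'))), mul_zero]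
    · intro h
      exact absurd (Finset.mem_univ w) h
  exact_mod_cast h1

end pairing

section comparison

variable {Z : Type} [Fintype Z]

theorem mass_compare (F : Z → ℂ) (G : Equiv.Perm Z) {N ε : ℝ} (hN : 0 < N) (hε : 0 ≤ ε)
    (h1 : ∑ z, ‖F (G z) - F z‖ ^ 2 ≤ ε ^ 2 * N) (h2 : ∑ z, ‖F z‖ ^ 2 ≤ N) (B : Set Z) :
    |ms (fun z => ‖F z‖ ^ 2 / N) (G '' B) - ms (fun z => ‖F z‖ ^ 2 / N) B| ≤ 2 * ε := by
  classical
  have h3 : ms (fun z => ‖F z‖ ^ 2 / N) (G '' B) =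
      ∑ z, if z ∈ B then ‖F (G z)‖ ^ 2 / N else 0 := by
    unfold ms
    rw [← Equiv.sum_comp G]
    refine Finset.sum_congr rfl fun z _ => ?_
    by_cases hz : z ∈ B
    · rw [if_pos (Set.mem_image_of_mem _ hz), if_pos hz]
    · rw [if_neg (by rwa [Function.Injective.mem_set_image G.injective]), if_neg hz]
  rw [h3]
  unfold ms
  rw [← Finset.sum_sub_distrib]
  have h4 : ∀ z, |(if z ∈ B then ‖F (G z)‖ ^ 2 / N else 0) - (if z ∈ B then ‖F z‖ ^ 2 / N else 0)| ≤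
      (‖F (G z) - F z‖ * (‖F (G z)‖ + ‖F z‖)) / N := by
    intro z
    by_cases hz : z ∈ B
    · rw [if_pos hz, if_pos hz, ← sub_div, abs_div, abs_of_pos hN]
      refine div_le_div_of_nonneg_right ?_ hN.le
      have h5 : ‖F (G z)‖ ^ 2 - ‖F z‖ ^ 2 = (‖F (G z)‖ - ‖F z‖) * (‖F (G z)‖ + ‖F z‖) := by ring
      rw [h5, abs_mul, abs_of_nonneg (add_nonneg (norm_nonneg _) (norm_nonneg (F z)))]
      exact mul_le_mul_of_nonneg_right (abs_norm_sub_norm_le _ _) (by positivity)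
    · rw [if_neg hz, if_neg hz, sub_zero, abs_zero]
      positivity
  refine (Finset.abs_sum_le_sum_abs _ _).trans ((Finset.sum_le_sum fun z _ => h4 z).trans ?_)
  rw [← Finset.sum_div, div_le_iff₀ hN]
  have h5 : (∑ z, ‖F (G z) - F z‖ * (‖F (G z)‖ + ‖F z‖)) ^ 2 ≤
      (∑ z, ‖F (G z) - F z‖ ^ 2) * ∑ z, (‖F (G z)‖ + ‖F z‖) ^ 2 :=
    Finset.sum_mul_sq_le_sq_mul_sq _ _ _
  have h6 : ∑ z, (‖F (G z)‖ + ‖F z‖) ^ 2 ≤ 4 * N := by
    have h7 : ∑ z, (‖F (G z)‖ + ‖F z‖) ^ 2 ≤ ∑ z, (2 * ‖F (G z)‖ ^ 2 + 2 * ‖F z‖ ^ 2) := by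
      refine Finset.sum_le_sum fun z _ => ?_
      nlinarith [sq_nonneg (‖F (G z)‖ - ‖F z‖)]
    have h8 : ∑ z, ‖F (G z)‖ ^ 2 = ∑ z, ‖F z‖ ^ 2 := Equiv.sum_comp G (fun z => ‖F z‖ ^ 2)
    rw [Finset.sum_add_distrib, ← Finset.mul_sum, ← Finset.mul_sum, h8] at h7
    linarith
  have h9 : (∑ z, ‖F (G z) - F z‖ * (‖F (G z)‖ + ‖F z‖)) ^ 2 ≤ (2 * ε * N) ^ 2 := by
    refine h5.trans ?_
    calc _ ≤ (ε ^ 2 * N) * (4 * N) :=
          mul_le_mul h1 h6 (Finset.sum_nonneg fun _ _ => sq_nonneg _) (by positivity)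
      _ = (2 * ε * N) ^ 2 := by ring
  exact (pow_le_pow_iff_left₀ (Finset.sum_nonneg fun z _ =>
    mul_nonneg (norm_nonneg _) (add_nonneg (norm_nonneg _) (norm_nonneg _))) (by positivity)
    two_ne_zero).1 h9

end comparison

section dstep

variable {ι : Type} [Fintype ι] [DecidableEq ι]

/-- the standard pairing -/
def dt (x z : ι → ZMod 2) : ZMod 2 := ∑ t, x t * z t

theorem dt_add_left (x x' z : ι → ZMod 2) : dt (x + x') z = dt x z + dt x' z := by
  unfold dt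
  rw [← Finset.sum_add_distrib]
  refine Finset.sum_congr rfl fun t _ => ?_
  rw [Pi.add_apply, add_mul]

theorem dt_add_right (x z z' : ι → ZMod 2) : dt x (z + z') = dt x z + dt x z' := by
  unfold dt
  rw [← Finset.sum_add_distrib]
  refine Finset.sum_congr rfl fun t _ => ?_
  rw [Pi.add_apply, mul_add]

theorem dt_comm (x z : ι → ZMod 2) : dt x z = dt z x := by
  unfold dt
  refine Finset.sum_congr rfl fun t _ => mul_comm _ _

theorem dt_zero_right (x : ι → ZMod 2) : dt x 0 = 0 := by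
  unfold dt
  simp

theorem dt_nondeg (z : ι → ZMod 2) (hz : z ≠ 0) : ∃ x, dt x z ≠ 0 := by
  obtain ⟨t, ht⟩ := Function.ne_iff.1 hz
  refine ⟨Pi.single t 1, ?_⟩
  unfold dt
  rw [Finset.sum_eq_single t]
  · rw [Pi.single_eq_same, one_mul]; exact ht
  · intro s _ hs
    rw [Pi.single_eq_of_ne hs, zero_mul]
  · intro h
    exact absurd (Finset.mem_univ t) h

/-- the pairing of triples -/
def bt (x κ : Fin 3 → ι → ZMod 2) : ZMod 2 := ∑ l, dt (x l) (κ l)

theorem bt_add_left (x x' κ : Fin 3 → ι → ZMod 2) : bt (x + x') κ = bt x κ + bt x' κ := by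
  unfold bt
  rw [← Finset.sum_add_distrib]
  exact Finset.sum_congr rfl fun l _ => dt_add_left _ _ _

theorem sub_eq_add2 {X : Type} (a b : X → ZMod 2) : a - b = a + b := by
  funext t
  exact CharTwo.sub_eq_add _ _

theorem bt_sub_right (x κ κ' : Fin 3 → ι → ZMod 2) : bt x (κ - κ') = bt x κ + bt x κ' := by
  unfold bt
  rw [← Finset.sum_add_distrib]
  refine Finset.sum_congr rfl fun l _ => ?_
  rw [← dt_add_right, Pi.sub_apply, sub_eq_add2]

theorem bt_nondeg (κ : Fin 3 → ι → ZMod 2) (h : κ ≠ 0) : ∃ x, bt x κ ≠ 0 := by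
  obtain ⟨l, hl⟩ := Function.ne_iff.1 h
  obtain ⟨x, hx⟩ := dt_nondeg (κ l) hl
  refine ⟨Pi.single l x, ?_⟩
  unfold bt
  rw [Finset.sum_eq_single l]
  · rw [Pi.single_eq_same]; exact hx
  · intro s _ hs
    rw [Pi.single_eq_of_ne hs]
    unfold dt
    simp
  · intro h
    exact absurd (Finset.mem_univ l) h

/-- transvections -/
def tv (i j : Fin 3) (A : (ι → ZMod 2) → (ι → ZMod 2)) (κ : Fin 3 → ι → ZMod 2) :
    Fin 3 → ι → ZMod 2 := Function.update κ i (κ i + A (κ j))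

theorem tv_same (i j : Fin 3) (A : (ι → ZMod 2) → (ι → ZMod 2)) (κ : Fin 3 → ι → ZMod 2) :
    tv i j A κ i = κ i + A (κ j) := Function.update_self _ _ _

theorem tv_ne {i j l : Fin 3} (h : l ≠ i) (A : (ι → ZMod 2) → (ι → ZMod 2))
    (κ : Fin 3 → ι → ZMod 2) : tv i j A κ l = κ l := Function.update_of_ne h _ _

theorem add_self_fn {X : Type} (a b : X → ZMod 2) : a + b + b = a := by
  funext t
  exact add_self2 _ _

theorem tv_inv {i j : Fin 3} (h : i ≠ j) (A : (ι → ZMod 2) → (ι → ZMod 2))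
    (κ : Fin 3 → ι → ZMod 2) : tv i j A (tv i j A κ) = κ := by
  funext l
  by_cases hl : l = i
  · subst hl
    rw [tv_same, tv_same, tv_ne (Ne.symm h), add_self_fn]
  · rw [tv_ne hl, tv_ne hl]

theorem bt_update (x κ : Fin 3 → ι → ZMod 2) (i : Fin 3) (u : ι → ZMod 2) :
    bt x (Function.update κ i (κ i + u)) = bt x κ + dt (x i) u := by
  unfold bt
  have h1 : ∀ l, dt (x l) (Function.update κ i (κ i + u) l) =
      dt (x l) (κ l) + (if l = i then dt (x i) u else 0) := by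
    intro l
    by_cases hl : l = i
    · subst hl
      rw [Function.update_self, dt_add_right, if_pos rfl]
    · rw [Function.update_of_ne hl, if_neg hl, add_zero]
  rw [Finset.sum_congr rfl fun l _ => h1 l, Finset.sum_add_distrib, Finset.sum_ite_eq']
  simp

theorem bt_comm (x κ : Fin 3 → ι → ZMod 2) : bt x κ = bt κ x := by
  unfold bt
  exact Finset.sum_congr rfl fun l _ => dt_comm _ _

theorem bt_update_left (x κ : Fin 3 → ι → ZMod 2) (i : Fin 3) (u : ι → ZMod 2) :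
    bt (Function.update x i (x i + u)) κ = bt x κ + dt u (κ i) := by
  rw [bt_comm, bt_update, bt_comm κ x, dt_comm u]

/-- the partial Fourier transform -/
noncomputable def FT (ξ : (Fin 3 → ι → ZMod 2) → ℂ) (k : Fin 3)
    (z : (Fin 3 → ι → ZMod 2) × (ι → ZMod 2)) : ℂ :=
  ∑ κ : Fin 3 → ι → ZMod 2, (if κ k = z.2 then ξ κ else 0) * ch (bt z.1 κ)

theorem FT_diff (ξ : (Fin 3 → ι → ZMod 2) → ℂ) (k : Fin 3)
    (h : Equiv.Perm (Fin 3 → ι → ZMod 2)) (hh : ∀ κ, h (h κ) = κ) (hk : ∀ κ, h κ k = κ k)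
    (c : (Fin 3 → ι → ZMod 2) → (ι → ZMod 2) → ℂ)
    (hc : ∀ x ζ, c x ζ = ∑ κ : Fin 3 → ι → ZMod 2, (if κ k = ζ then ξ κ else 0) * ch (bt x (h κ)))
    {ε : ℝ} (hε : ∑ κ, ‖ξ (h κ) - ξ κ‖ ^ 2 ≤ ε ^ 2) :
    ∑ z : (Fin 3 → ι → ZMod 2) × (ι → ZMod 2), ‖c z.1 z.2 - FT ξ k z‖ ^ 2 ≤
      ε ^ 2 * (Fintype.card (Fin 3 → ι → ZMod 2) : ℝ) := by
  have h1 : ∀ z : (Fin 3 → ι → ZMod 2) × (ι → ZMod 2), c z.1 z.2 - FT ξ k z =
      ∑ κ : Fin 3 → ι → ZMod 2, (if κ k = z.2 then ξ (h κ) - ξ κ else 0) * ch (bt z.1 κ) := by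
    intro z
    rw [hc]
    unfold FT
    have h2 : ∑ κ : Fin 3 → ι → ZMod 2, (if κ k = z.2 then ξ κ else 0) * ch (bt z.1 (h κ)) =
        ∑ κ : Fin 3 → ι → ZMod 2, (if κ k = z.2 then ξ (h κ) else 0) * ch (bt z.1 κ) := by
      rw [← Equiv.sum_comp h]
      refine Finset.sum_congr rfl fun κ _ => ?_
      rw [hk, hh]
    rw [h2, ← Finset.sum_sub_distrib]
    refine Finset.sum_congr rfl fun κ _ => ?_
    rw [← sub_mul]
    congr 1
    split_ifs
    · rfl
    · exact sub_self _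
  rw [Finset.sum_congr rfl fun z _ => by rw [h1 z], Fintype.sum_prod_type_right]
  have h3 : ∀ ζ : ι → ZMod 2, ∑ x : Fin 3 → ι → ZMod 2,
      ‖∑ κ : Fin 3 → ι → ZMod 2, (if κ k = ζ then ξ (h κ) - ξ κ else 0) * ch (bt x κ)‖ ^ 2 =
      (Fintype.card (Fin 3 → ι → ZMod 2) : ℝ) *
        ∑ κ : Fin 3 → ι → ZMod 2, (if κ k = ζ then ‖ξ (h κ) - ξ κ‖ ^ 2 else 0) := by
    intro ζ
    rw [parseval bt bt_add_left bt_sub_right bt_nondeg]
    congr 1
    refine Finset.sum_congr rfl fun κ _ => ?_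
    split_ifs
    · rfl
    · simp
  show ∑ ζ : ι → ZMod 2, ∑ x : Fin 3 → ι → ZMod 2,
      ‖∑ κ : Fin 3 → ι → ZMod 2, (if κ k = ζ then ξ (h κ) - ξ κ else 0) * ch (bt x κ)‖ ^ 2 ≤ _
  rw [Finset.sum_congr rfl fun ζ _ => h3 ζ, ← Finset.mul_sum, Finset.sum_comm]
  have h4 : ∑ κ : Fin 3 → ι → ZMod 2, ∑ ζ : ι → ZMod 2,
      (if κ k = ζ then ‖ξ (h κ) - ξ κ‖ ^ 2 else 0) = ∑ κ, ‖ξ (h κ) - ξ κ‖ ^ 2 := by
    refine Finset.sum_congr rfl fun κ _ => ?_
    rw [Finset.sum_ite_eq]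
    simp
  rw [h4, mul_comm]
  exact mul_le_mul_of_nonneg_right hε (Nat.cast_nonneg _)

/-- words in the two maps -/
def Xw (X : Bool → (ι → ZMod 2) → (ι → ZMod 2)) : List Bool → (ι → ZMod 2) → (ι → ZMod 2)
  | [], x => x
  | b :: w, x => X b (Xw X w x)

theorem Xw_append (X : Bool → (ι → ZMod 2) → (ι → ZMod 2)) (w : List Bool) (b : Bool)
    (x : ι → ZMod 2) : Xw X (w ++ [b]) x = Xw X w (X b x) := by
  induction w with
  | nil => rfl
  | cons c w ih =>
    show X c (Xw X (w ++ [b]) x) = X c (Xw X w (X b x))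
    rw [ih]

theorem Xw_add (X : Bool → (ι → ZMod 2) → (ι → ZMod 2)) (hX : ∀ b x y, X b (x + y) = X b x + X b y)
    (w : List Bool) (x y : ι → ZMod 2) : Xw X w (x + y) = Xw X w x + Xw X w y := by
  induction w with
  | nil => rfl
  | cons c w ih =>
    show X c (Xw X w (x + y)) = X c (Xw X w x) + X c (Xw X w y)
    rw [ih, hX]

/-- the transvection as a permutation -/
def tvP (i j : Fin 3) (h : i ≠ j) (A : (ι → ZMod 2) → (ι → ZMod 2)) :
    Equiv.Perm (Fin 3 → ι → ZMod 2) where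
  toFun := tv i j A
  invFun := tv i j A
  left_inv := tv_inv h A
  right_inv := tv_inv h A

/-- **The key estimate.** -/
theorem dstep (X Xt : Bool → (ι → ZMod 2) → (ι → ZMod 2))
    (hX : ∀ b x y, X b (x + y) = X b x + X b y) (hXt : ∀ b x z, dt (X b x) z = dt x (Xt b z))
    (ξ : (Fin 3 → ι → ZMod 2) → ℂ) (hf : ∀ x, ‖∑ κ, ξ κ * ch (bt x κ)‖ ≤ 1)
    (h1 : ∑ κ, ‖ξ κ‖ ^ 2 ≤ 1) {ε η : ℝ} (hε0 : 0 ≤ ε) (hε1 : ε ≤ 1)
    (hid : ∀ i j, i ≠ j → ∑ κ, ‖ξ (tv i j id κ) - ξ κ‖ ^ 2 ≤ ε ^ 2)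
    (hin : ∀ b i j, i ≠ j → ∑ κ, ‖ξ (tv i j (Xt b) κ) - ξ κ‖ ^ 2 ≤ ε ^ 2)
    (bad : Finset (ι → ZMod 2))
    (hbad : ∀ x, x ∉ bad → ∀ z, (∀ w, dt z (Xw X w x) = 0) → z = 0)
    (hη : (bad.card : ℝ) ≤ η * (Fintype.card (ι → ZMod 2) : ℝ))
    (i j k : Fin 3) (hij : i ≠ j) (hik : i ≠ k) (hjk : j ≠ k) :
    ∑ κ : Fin 3 → ι → ZMod 2, (if κ k ≠ 0 then ‖ξ κ‖ ^ 2 else 0) ≤ 27 * ε + η := by
  classical
  set N : ℝ := (Fintype.card (Fin 3 → ι → ZMod 2) : ℝ) with hN
  have hNpos : 0 < N := by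
    rw [hN]
    exact_mod_cast Fintype.card_pos
  set m : (Fin 3 → ι → ZMod 2) × (ι → ZMod 2) → ℝ := fun z => ‖FT ξ k z‖ ^ 2 / N with hm
  have hm0 : ∀ z, 0 ≤ m z := fun z => by rw [hm]; positivity
  -- Parseval for fixed `ζ`
  have hpars : ∀ ζ : ι → ZMod 2, ∑ x : Fin 3 → ι → ZMod 2, ‖FT ξ k (x, ζ)‖ ^ 2 =
      N * ∑ κ : Fin 3 → ι → ZMod 2, (if κ k = ζ then ‖ξ κ‖ ^ 2 else 0) := by
    intro ζ
    unfold FT
    show ∑ x : Fin 3 → ι → ZMod 2,
      ‖∑ κ : Fin 3 → ι → ZMod 2, (if κ k = ζ then ξ κ else 0) * ch (bt x κ)‖ ^ 2 = _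
    rw [parseval bt bt_add_left bt_sub_right bt_nondeg]
    congr 1
    refine Finset.sum_congr rfl fun κ _ => ?_
    split_ifs
    · rfl
    · simp
  have htot : ∑ z, ‖FT ξ k z‖ ^ 2 ≤ N := by
    rw [Fintype.sum_prod_type_right, Finset.sum_congr rfl fun ζ _ => hpars ζ, ← Finset.mul_sum,
      Finset.sum_comm]
    have h4 : ∑ κ : Fin 3 → ι → ZMod 2, ∑ ζ : ι → ZMod 2,
        (if κ k = ζ then ‖ξ κ‖ ^ 2 else 0) = ∑ κ, ‖ξ κ‖ ^ 2 := by
      refine Finset.sum_congr rfl fun κ _ => ?_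
      rw [Finset.sum_ite_eq]
      simp
    rw [h4]
    nlinarith
  -- near invariance under the adjoint transvections
  have hcmp : ∀ (a b : Fin 3) (hab : a ≠ b) (hak : a ≠ k) (hbk : b ≠ k)
      (A At : (ι → ZMod 2) → (ι → ZMod 2)) (hA : ∀ x z, dt (A x) z = dt x (At z))
      (hinv : ∑ κ, ‖ξ (tv a b At κ) - ξ κ‖ ^ 2 ≤ ε ^ 2)
      (B : Set ((Fin 3 → ι → ZMod 2) × (ι → ZMod 2))),
      |ms m ((Equiv.prodCongr (tvP b a (Ne.symm hab) A) (Equiv.refl _)) '' B) - ms m B| ≤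
        2 * ε := by
    intro a b hab hak hbk A At hA hinv B
    refine mass_compare (FT ξ k) _ hNpos hε0 ?_ htot B
    refine FT_diff ξ k (tvP a b hab At) (tv_inv hab At) (fun κ => tv_ne (Ne.symm hak) _ _)
      (fun x ζ => FT ξ k (tv b a A x, ζ)) ?_ hinv
    intro x ζ
    unfold FT
    refine Finset.sum_congr rfl fun κ _ => ?_
    congr 2
    show bt (tv b a A x) κ = bt x (tv a b At κ)
    unfold tv
    rw [bt_update, bt_update_left, hA]
  -- the functions on words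
  let φ : (Fin 3 → ι → ZMod 2) × (ι → ZMod 2) → List Bool → ZMod 2 :=
    fun z w => dt z.2 (Xw X w (z.1 i))
  let ψ : (Fin 3 → ι → ZMod 2) × (ι → ZMod 2) → List Bool → ZMod 2 :=
    fun z w => dt z.2 (Xw X w (z.1 j))
  have h0 : ms m {z | φ z [] ≠ 0} ≤ ε := by
    have h2 := FT_diff ξ k (tvP i k hik id) (tv_inv hik id) (fun κ => tv_ne (Ne.symm hik) _ _)
      (fun x ζ => ch (dt (x i) ζ) * FT ξ k (x, ζ)) (by
        intro x ζ
        unfold FT
        rw [Finset.mul_sum]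
        refine Finset.sum_congr rfl fun κ _ => ?_
        by_cases hκ : κ k = ζ
        · show ch (dt (x i) ζ) * ((if κ k = ζ then ξ κ else 0) * ch (bt x κ)) =
            (if κ k = ζ then ξ κ else 0) * ch (bt x (tv i k id κ))
          rw [if_pos hκ]
          unfold tv
          rw [bt_update, ch_add, id, hκ]
          ring
        · show ch (dt (x i) ζ) * ((if κ k = ζ then ξ κ else 0) * ch (bt x κ)) =
            (if κ k = ζ then ξ κ else 0) * ch (bt x (tv i k id κ))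
          rw [if_neg hκ]
          ring) (hid i k hik)
    have h3 : 4 * N * ms m {z | φ z [] ≠ 0} ≤ ε ^ 2 * N := by
      refine le_trans ?_ h2
      unfold ms
      rw [Finset.mul_sum]
      refine Finset.sum_le_sum fun z _ => ?_
      by_cases hz : z ∈ {z | φ z [] ≠ 0}
      · rw [if_pos hz]
        have hz' : dt (z.1 i) z.2 = 1 := by
          have hz2 : dt z.2 (z.1 i) ≠ 0 := hz
          rw [dt_comm] at hz2
          rcases zmod2_cases (dt (z.1 i) z.2) with h | h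
          · exact absurd h hz2
          · exact h
        show 4 * N * (‖FT ξ k z‖ ^ 2 / N) ≤ ‖ch (dt (z.1 i) z.2) * FT ξ k z - FT ξ k z‖ ^ 2
        rw [hz', ch_one]
        have h4 : (-1 : ℂ) * FT ξ k z - FT ξ k z = (-2) * FT ξ k z := by ring
        rw [h4, norm_mul, mul_pow]
        have h5 : ‖(-2 : ℂ)‖ = 2 := by norm_num
        rw [h5]
        have h6 : 4 * N * (‖FT ξ k z‖ ^ 2 / N) = 4 * ‖FT ξ k z‖ ^ 2 := by
          field_simp
        rw [h6]
        norm_num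
      · rw [if_neg hz, mul_zero]
        positivity
    have h4 : 4 * ms m {z | φ z [] ≠ 0} ≤ ε ^ 2 := by
      have : N * (4 * ms m {z | φ z [] ≠ 0}) ≤ N * ε ^ 2 := by linarith
      exact le_of_mul_le_mul_left this hNpos
    have h5 := ms_nonneg hm0 {z | φ z [] ≠ 0}
    nlinarith
  have hrt : ms m {z | ∃ w, φ z w ≠ 0 ∨ ψ z w ≠ 0} ≤ 27 * ε := by
    refine rt m hm0 φ ψ (Equiv.prodCongr (tvP j i (Ne.symm hij) id) (Equiv.refl _))
      (Equiv.prodCongr (tvP i j hij id) (Equiv.refl _))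
      (fun b => Equiv.prodCongr (tvP j i (Ne.symm hij) (X b)) (Equiv.refl _))
      ?_ ?_ ?_ ?_ ?_ ?_ ?_ ?_ ?_ h0
    · intro z w
      show dt z.2 (Xw X w (tv j i id z.1 i)) = _
      rw [tv_ne hij]
    · intro z w
      show dt z.2 (Xw X w (tv j i id z.1 j)) = _
      rw [tv_same, Xw_add X hX, dt_add_right]
      rfl
    · intro z w
      show dt z.2 (Xw X w (tv i j id z.1 i)) = _
      rw [tv_same, Xw_add X hX, dt_add_right]
      rfl
    · intro z w
      show dt z.2 (Xw X w (tv i j id z.1 j)) = _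
      rw [tv_ne (Ne.symm hij)]
    · intro b z w
      show dt z.2 (Xw X w (tv j i (X b) z.1 i)) = _
      rw [tv_ne hij]
    · intro b z w
      show dt z.2 (Xw X w (tv j i (X b) z.1 j)) = dt z.2 (Xw X w (z.1 j)) +
        dt z.2 (Xw X (w ++ [b]) (z.1 i))
      rw [tv_same, Xw_add X hX, dt_add_right, Xw_append]
    · exact hcmp i j hij hik hjk id id (fun x z => rfl) (hid i j hij)
    · exact hcmp j i (Ne.symm hij) hjk hik id id (fun x z => rfl) (hid j i (Ne.symm hij))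
    · intro b
      exact hcmp i j hij hik hjk (X b) (Xt b) (hXt b) (hin b i j hij)
  -- the bad set
  have hpt : ∀ x : Fin 3 → ι → ZMod 2, ∑ ζ : ι → ZMod 2, ‖FT ξ k (x, ζ)‖ ^ 2 ≤ 1 := by
    intro x
    have h2 := parseval (V := ι → ZMod 2) (W := ι → ZMod 2) dt dt_add_left
      (fun v w w' => by rw [sub_eq_add2, dt_add_right]) dt_nondeg (fun ζ => FT ξ k (x, ζ))
    have h3 : ∀ t : ι → ZMod 2, ∑ ζ : ι → ZMod 2, FT ξ k (x, ζ) * ch (dt t ζ) =
        ∑ κ, ξ κ * ch (bt (Function.update x k (x k + t)) κ) := by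
      intro t
      unfold FT
      simp only [Finset.sum_mul]
      rw [Finset.sum_comm]
      refine Finset.sum_congr rfl fun κ _ => ?_
      rw [Finset.sum_eq_single (κ k)]
      · rw [if_pos rfl, bt_update_left, ch_add]
        ring
      · intro ζ _ hζ
        rw [if_neg (Ne.symm hζ)]
        ring
      · intro h
        exact absurd (Finset.mem_univ (κ k)) h
    have h4 : ∑ t : ι → ZMod 2, ‖∑ ζ : ι → ZMod 2, FT ξ k (x, ζ) * ch (dt t ζ)‖ ^ 2 ≤
        (Fintype.card (ι → ZMod 2) : ℝ) * 1 := by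
      calc _ ≤ ∑ t : ι → ZMod 2, (1 : ℝ) := by
            refine Finset.sum_le_sum fun t _ => ?_
            rw [h3]
            exact pow_le_one₀ (norm_nonneg _) (hf _)
        _ = _ := by
            rw [Finset.sum_const, Finset.card_univ, nsmul_eq_mul]
    rw [h2] at h4
    exact le_of_mul_le_mul_left h4 (by exact_mod_cast Fintype.card_pos)
  have hbadm : ms m {z | z.1 i ∈ bad} ≤ η := by
    obtain ⟨S, hS⟩ : ∃ S : Set ((Fin 3 → ι → ZMod 2) × (ι → ZMod 2)),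
        ∀ z, z ∈ S ↔ z.1 i ∈ bad := ⟨{z | z.1 i ∈ bad}, fun z => Iff.rfl⟩
    have hSe : {z : (Fin 3 → ι → ZMod 2) × (ι → ZMod 2) | z.1 i ∈ bad} = S := by
      ext z
      exact (hS z).symm
    rw [hSe]
    unfold ms
    rw [Fintype.sum_prod_type]
    have h2 : ∀ x : Fin 3 → ι → ZMod 2, (∑ ζ : ι → ZMod 2,
        (if (x, ζ) ∈ S then m (x, ζ) else 0)) ≤
        (if x i ∈ bad then 1 / N else 0) := by
      intro x
      by_cases hx : x i ∈ bad
      · rw [if_pos hx]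
        have h3 : ∀ ζ : ι → ZMod 2, (if (x, ζ) ∈ S then m (x, ζ) else 0) =
            ‖FT ξ k (x, ζ)‖ ^ 2 / N := by
          intro ζ
          rw [if_pos ((hS (x, ζ)).2 hx)]
        rw [Finset.sum_congr rfl fun ζ _ => h3 ζ, ← Finset.sum_div]
        exact div_le_div_of_nonneg_right (hpt x) hNpos.le
      · rw [if_neg hx]
        refine le_of_eq (Finset.sum_eq_zero fun ζ _ => ?_)
        rw [if_neg (fun h => hx ((hS (x, ζ)).1 h))]
    refine (Finset.sum_le_sum fun x _ => h2 x).trans ?_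
    rw [← Finset.sum_filter, Finset.sum_const, nsmul_eq_mul, mul_one_div, div_le_iff₀ hNpos]
    have h3 : (Finset.univ.filter fun x : Fin 3 → ι → ZMod 2 => x i ∈ bad) =
        Fintype.piFinset (fun l : Fin 3 => if l = i then bad else Finset.univ) := by
      ext x
      rw [Finset.mem_filter, Fintype.mem_piFinset]
      constructor
      · rintro ⟨-, hx⟩ l
        by_cases hl : l = i
        · subst hl
          rw [if_pos rfl]
          exact hx
        · rw [if_neg hl]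
          exact Finset.mem_univ _
      · intro hx
        refine ⟨Finset.mem_univ _, ?_⟩
        have := hx i
        rwa [if_pos rfl] at this
    have h4 : ((Finset.univ.filter fun x : Fin 3 → ι → ZMod 2 => x i ∈ bad).card : ℝ) =
        bad.card * (Fintype.card (ι → ZMod 2) : ℝ) ^ 2 := by
      rw [h3, Fintype.card_piFinset]
      have h5 : ∀ l : Fin 3, (if l = i then bad else Finset.univ).card =
          if l = i then bad.card else Fintype.card (ι → ZMod 2) := by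
        intro l
        split_ifs
        · rfl
        · rfl
      rw [Finset.prod_congr rfl fun l _ => h5 l, Finset.prod_ite, Finset.prod_const,
        Finset.prod_const]
      have h6 : (Finset.univ.filter fun l : Fin 3 => l = i).card = 1 := by
        rw [Finset.filter_eq']
        simp
      have h7 : (Finset.univ.filter fun l : Fin 3 => ¬ l = i).card = 2 := by
        rw [Finset.filter_not, Finset.card_sdiff_of_subset (Finset.filter_subset _ _), h6]
        rfl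
      rw [h6, h7, pow_one]
      push_cast
      ring
    have h8 : N = (Fintype.card (ι → ZMod 2) : ℝ) ^ 3 := by
      rw [hN]
      rw [Fintype.card_pi, Finset.prod_const, Finset.card_univ, Fintype.card_fin]
      push_cast
      rfl
    rw [h4, h8]
    have h9 : (0 : ℝ) ≤ (Fintype.card (ι → ZMod 2) : ℝ) ^ 2 := by positivity
    nlinarith
  -- conclusion
  have hfin : ms m {z | z.2 ≠ 0} ≤ 27 * ε + η := by
    have h2 : {z : (Fin 3 → ι → ZMod 2) × (ι → ZMod 2) | z.2 ≠ 0} ⊆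
        {z | ∃ w, φ z w ≠ 0 ∨ ψ z w ≠ 0} ∪ {z | z.1 i ∈ bad} := by
      intro z hz
      by_cases h3 : z.1 i ∈ bad
      · right; exact h3
      · left
        by_contra h4
        apply hz
        refine hbad (z.1 i) h3 z.2 fun w => ?_
        by_contra h5
        exact h4 ⟨w, Or.inl h5⟩
    have h3 := (ms_mono hm0 h2).trans (ms_union_le hm0 _ _)
    linarith
  have hid2 : ms m {z | z.2 ≠ 0} = ∑ κ : Fin 3 → ι → ZMod 2, (if κ k ≠ 0 then ‖ξ κ‖ ^ 2 else 0) := by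
    obtain ⟨S, hS⟩ : ∃ S : Set ((Fin 3 → ι → ZMod 2) × (ι → ZMod 2)),
        ∀ z, z ∈ S ↔ z.2 ≠ 0 := ⟨{z | z.2 ≠ 0}, fun z => Iff.rfl⟩
    have hSe : {z : (Fin 3 → ι → ZMod 2) × (ι → ZMod 2) | z.2 ≠ 0} = S := by
      ext z
      exact (hS z).symm
    rw [hSe]
    unfold ms
    rw [Fintype.sum_prod_type_right]
    have h2 : ∀ ζ : ι → ZMod 2, (∑ x : Fin 3 → ι → ZMod 2,
        (if (x, ζ) ∈ S then m (x, ζ) else 0)) =
        if ζ ≠ 0 then ∑ κ : Fin 3 → ι → ZMod 2, (if κ k = ζ then ‖ξ κ‖ ^ 2 else 0) else 0 := by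
      intro ζ
      by_cases hζ : ζ ≠ 0
      · rw [if_pos hζ]
        have h3 : ∀ x : Fin 3 → ι → ZMod 2, (if (x, ζ) ∈ S then m (x, ζ) else 0) =
            ‖FT ξ k (x, ζ)‖ ^ 2 / N := by
          intro x
          rw [if_pos ((hS (x, ζ)).2 hζ)]
        rw [Finset.sum_congr rfl fun x _ => h3 x, ← Finset.sum_div, hpars, mul_div_cancel_left₀ _
          hNpos.ne']
      · rw [if_neg hζ]
        refine Finset.sum_eq_zero fun x _ => ?_
        rw [if_neg (fun h => hζ ((hS (x, ζ)).1 h))]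
    rw [Finset.sum_congr rfl fun ζ _ => h2 ζ]
    have h3 : ∀ ζ : ι → ZMod 2, (if ζ ≠ 0 then
        ∑ κ : Fin 3 → ι → ZMod 2, (if κ k = ζ then ‖ξ κ‖ ^ 2 else 0) else 0) =
        ∑ κ : Fin 3 → ι → ZMod 2, (if κ k = ζ then (if κ k ≠ 0 then ‖ξ κ‖ ^ 2 else 0) else 0) := by
      intro ζ
      split_ifs with hζ
      · refine Finset.sum_congr rfl fun κ _ => ?_
        split_ifs with h4 h5 h5
        · rfl
        · exact absurd (h4 ▸ hζ) h5
        · rfl
      · symm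
        refine Finset.sum_eq_zero fun κ _ => ?_
        split_ifs with h4 h5
        · exact absurd (h4 ▸ h5) hζ
        · rfl
        · rfl
    rw [Finset.sum_congr rfl fun ζ _ => h3 ζ, Finset.sum_comm]
    refine Finset.sum_congr rfl fun κ _ => ?_
    rw [Finset.sum_ite_eq]
    simp
  rw [← hid2]
  exact hfin

/-- **Conclusion of the diagonal step.** -/
theorem dstep_total (X Xt : Bool → (ι → ZMod 2) → (ι → ZMod 2))
    (hX : ∀ b x y, X b (x + y) = X b x + X b y) (hXt : ∀ b x z, dt (X b x) z = dt x (Xt b z))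
    (ξ : (Fin 3 → ι → ZMod 2) → ℂ) (hf : ∀ x, ‖∑ κ, ξ κ * ch (bt x κ)‖ ≤ 1)
    (h1 : ∑ κ, ‖ξ κ‖ ^ 2 ≤ 1) {ε η : ℝ} (hε0 : 0 ≤ ε) (hε1 : ε ≤ 1)
    (hid : ∀ i j, i ≠ j → ∑ κ, ‖ξ (tv i j id κ) - ξ κ‖ ^ 2 ≤ ε ^ 2)
    (hin : ∀ b i j, i ≠ j → ∑ κ, ‖ξ (tv i j (Xt b) κ) - ξ κ‖ ^ 2 ≤ ε ^ 2)
    (bad : Finset (ι → ZMod 2))
    (hbad : ∀ x, x ∉ bad → ∀ z, (∀ w, dt z (Xw X w x) = 0) → z = 0)
    (hη : (bad.card : ℝ) ≤ η * (Fintype.card (ι → ZMod 2) : ℝ)) (h0 : ξ 0 = 0) :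
    ∑ κ, ‖ξ κ‖ ^ 2 ≤ 3 * (27 * ε + η) := by
  classical
  have a0 := dstep X Xt hX hXt ξ hf h1 hε0 hε1 hid hin bad hbad hη 1 2 0 (by decide) (by decide)
    (by decide)
  have a1 := dstep X Xt hX hXt ξ hf h1 hε0 hε1 hid hin bad hbad hη 0 2 1 (by decide) (by decide)
    (by decide)
  have a2 := dstep X Xt hX hXt ξ hf h1 hε0 hε1 hid hin bad hbad hη 0 1 2 (by decide) (by decide)
    (by decide)
  have h2 : ∑ κ, ‖ξ κ‖ ^ 2 ≤ ∑ κ : Fin 3 → ι → ZMod 2, ((if κ 0 ≠ 0 then ‖ξ κ‖ ^ 2 else 0) +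
      (if κ 1 ≠ 0 then ‖ξ κ‖ ^ 2 else 0) + (if κ 2 ≠ 0 then ‖ξ κ‖ ^ 2 else 0)) := by
    refine Finset.sum_le_sum fun κ _ => ?_
    have hnn : 0 ≤ ‖ξ κ‖ ^ 2 := sq_nonneg _
    by_cases c0 : κ 0 = 0
    · by_cases c1 : κ 1 = 0
      · by_cases c2 : κ 2 = 0
        · have : κ = 0 := by
            funext l
            fin_cases l
            · exact c0
            · exact c1
            · exact c2
          rw [this, h0]
          simp
        · rw [if_pos c2]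
          split_ifs <;> linarith
      · rw [if_pos c1]
        split_ifs <;> linarith
    · rw [if_pos c0]
      split_ifs <;> linarith
  rw [Finset.sum_add_distrib, Finset.sum_add_distrib] at h2
  linarith

end dstep

end Pool.Agent.W663.IA
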