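import Pool.Agent.W663.IA.Icc

set_option autoImplicit false

open scoped InnerProductSpace

namespace Pool.Agent.W663.IA

open Pool.Agent.Helper278 Pool.Agent.Helper436.SN

section

variable {H : Type} [NormedAddCommGroup H] [InnerProductSpace ℂ H] [CompleteSpace H]

/-- The 2-norm of the vector state of `ξ`: `‖x‖₂ = ⟨x* x ξ, ξ⟩^{1/2}`. -/
noncomputable def nrm2 (ξ : H) (x : H →L[ℂ] H) : ℝ := Real.sqrt (⟪ξ, (star x * x) ξ⟫_ℂ).re

/-- Property Gamma (Murray and von Neumann) for a von Neumann algebra `N` with the trace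
`τ(x) = ⟨x ξ, ξ⟩`: for every finite set `S` in `N` and every `ε > 0` there is a unitary `u` in `N`
with `τ(u) = 0` and `‖u x - x u‖₂ < ε` for all `x` in `S`. -/
def GammaVN (N : VonNeumannAlgebra H) (ξ : H) : Prop :=
  ∀ (S : Finset (H →L[ℂ] H)) (ε : ℝ), (∀ x ∈ S, x ∈ N) → 0 < ε →
    ∃ u ∈ N, u ∈ unitary (H →L[ℂ] H) ∧ ⟪ξ, u ξ⟫_ℂ = 0 ∧ ∀ x ∈ S, nrm2 ξ (u * x - x * u) < ε

end

/-- `L(G)`, with its canonical trace `τ(x) = ⟨x δ_e, δ_e⟩`, has property Gamma. -/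
def GroupGamma (G : Type) [Group G] : Prop := GammaVN (LG G) (dirac G)

theorem propGamma_of {G : Type} [Group G] (h : GroupGamma G) : PropGamma (trL G) := by
  classical
  intro S ε hε
  obtain ⟨u, huN, huU, hu0, hu⟩ := h (S.image fun x : Elt (LG G) => (x : EllTwo G →L[ℂ] EllTwo G)) ε
    (by
      intro x hx
      obtain ⟨y, -, rfl⟩ := Finset.mem_image.1 hx
      exact y.2) hε
  refine ⟨⟨u, huN⟩, ?_, hu0, ?_⟩
  · rw [Unitary.mem_iff] at huU ⊢
    exact ⟨Subtype.ext huU.1, Subtype.ext huU.2⟩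
  · intro x hx
    exact hu _ (Finset.mem_image_of_mem _ hx)

theorem main2 : ∃ (G : Type) (_ : Group G), Group.FG G ∧ IsICC G ∧ InnerAmenable G ∧
    ¬ GroupGamma G :=
  ⟨GG, inferInstance, fg, icc, innerAmenable, fun h => not_gamma (propGamma_of h)⟩

end Pool.Agent.W663.IA
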