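import Pool.Agent.W663.IA.Fin

set_option autoImplicit false
set_option linter.unusedSectionVars false

namespace Pool.Agent.W663.IA

open FreeGroup (of of_ne_one)

/-! ### almost invariant vectors give almost invariant masses -/

theorem mass_ainv {X : Type} (ξ : X → ℂ) (σ : X ≃ X) (hs : Summable fun h => ‖ξ h‖ ^ 2)
    (h1 : ∑' h, ‖ξ h‖ ^ 2 ≤ 1) {ε : ℝ} (hε : 0 < ε)
    (hd : Summable fun h => ‖ξ (σ h) - ξ h‖ ^ 2) (hd2 : ∑' h, ‖ξ (σ h) - ξ h‖ ^ 2 ≤ ε ^ 2)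
    (A : Set X) : |mass (fun h => ‖ξ h‖ ^ 2) (σ ⁻¹' A) - mass (fun h => ‖ξ h‖ ^ 2) A| ≤ 2 * ε := by
  have hs' : Summable fun h => ‖ξ (σ h)‖ ^ 2 := (σ.summable_iff (f := fun h => ‖ξ h‖ ^ 2)).2 hs
  have h1' : ∑' h, ‖ξ (σ h)‖ ^ 2 ≤ 1 := by
    rw [σ.tsum_eq (fun h => ‖ξ h‖ ^ 2)]
    exact h1
  have hmA : mass (fun h => ‖ξ h‖ ^ 2) A =
      ∑' h, (σ ⁻¹' A).indicator (fun h => ‖ξ (σ h)‖ ^ 2) h := by
    unfold mass
    rw [← σ.tsum_eq]
    rfl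
  set B : X → ℝ := fun h => ‖ξ (σ h) - ξ h‖ ^ 2 / ε + (ε / 2) * (‖ξ (σ h)‖ ^ 2 + ‖ξ h‖ ^ 2) with hB
  have hBs : Summable B := (hd.div_const ε).add ((hs'.add hs).mul_left (ε / 2))
  have hB0 : ∀ h, 0 ≤ B h := fun h => by rw [hB]; positivity
  have hBt : ∑' h, B h ≤ 2 * ε := by
    rw [hB, (hd.div_const ε).tsum_add ((hs'.add hs).mul_left (ε / 2)), tsum_div_const,
      tsum_mul_left, hs'.tsum_add hs]
    have h2 : (∑' h, ‖ξ (σ h) - ξ h‖ ^ 2) / ε ≤ ε := by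
      rw [div_le_iff₀ hε]
      nlinarith
    have h3 : ε / 2 * (∑' h, ‖ξ (σ h)‖ ^ 2 + ∑' h, ‖ξ h‖ ^ 2) ≤ ε / 2 * 2 :=
      mul_le_mul_of_nonneg_left (by linarith) (by positivity)
    linarith
  have key : ∀ h, |‖ξ h‖ ^ 2 - ‖ξ (σ h)‖ ^ 2| ≤ B h := by
    intro h
    have h2 : |‖ξ h‖ ^ 2 - ‖ξ (σ h)‖ ^ 2| ≤ ‖ξ (σ h) - ξ h‖ * (‖ξ (σ h)‖ + ‖ξ h‖) := by
      have h3 : ‖ξ h‖ ^ 2 - ‖ξ (σ h)‖ ^ 2 = (‖ξ h‖ - ‖ξ (σ h)‖) * (‖ξ (σ h)‖ + ‖ξ h‖) := by ring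
      rw [h3, abs_mul, abs_of_nonneg (add_nonneg (norm_nonneg _) (norm_nonneg (ξ h)))]
      refine mul_le_mul_of_nonneg_right ?_ (by positivity)
      rw [abs_sub_comm]
      exact abs_norm_sub_norm_le _ _
    refine h2.trans ?_
    rw [hB]
    show _ ≤ ‖ξ (σ h) - ξ h‖ ^ 2 / ε + ε / 2 * (‖ξ (σ h)‖ ^ 2 + ‖ξ h‖ ^ 2)
    set d := ‖ξ (σ h) - ξ h‖ with hd'
    set a := ‖ξ (σ h)‖
    set b := ‖ξ h‖
    have h4 : d ^ 2 / ε + ε / 2 * (a ^ 2 + b ^ 2) - d * (a + b) =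
        (d - ε / 2 * (a + b)) ^ 2 / ε + ε / 4 * (a - b) ^ 2 := by
      field_simp
      ring
    have h5 : 0 ≤ (d - ε / 2 * (a + b)) ^ 2 / ε + ε / 4 * (a - b) ^ 2 := by positivity
    linarith
  have i1 : Summable ((σ ⁻¹' A).indicator fun h => ‖ξ h‖ ^ 2) := hs.indicator _
  have i2 : Summable ((σ ⁻¹' A).indicator fun h => ‖ξ (σ h)‖ ^ 2) := hs'.indicator _
  rw [hmA]
  unfold mass
  rw [abs_le]
  constructor
  · have h6 : ∑' h, (σ ⁻¹' A).indicator (fun h => ‖ξ (σ h)‖ ^ 2) h ≤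
        ∑' h, ((σ ⁻¹' A).indicator (fun h => ‖ξ h‖ ^ 2) h + B h) := by
      refine Summable.tsum_le_tsum (fun h => ?_) i2 (i1.add hBs)
      by_cases hh : h ∈ σ ⁻¹' A
      · rw [Set.indicator_of_mem hh, Set.indicator_of_mem hh]
        have := (abs_le.1 (key h)).1
        linarith
      · rw [Set.indicator_of_notMem hh, Set.indicator_of_notMem hh, zero_add]
        exact hB0 h
    rw [i1.tsum_add hBs] at h6
    linarith
  · have h6 : ∑' h, (σ ⁻¹' A).indicator (fun h => ‖ξ h‖ ^ 2) h ≤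
        ∑' h, ((σ ⁻¹' A).indicator (fun h => ‖ξ (σ h)‖ ^ 2) h + B h) := by
      refine Summable.tsum_le_tsum (fun h => ?_) i1 (i2.add hBs)
      by_cases hh : h ∈ σ ⁻¹' A
      · rw [Set.indicator_of_mem hh, Set.indicator_of_mem hh]
        have := (abs_le.1 (key h)).2
        linarith
      · rw [Set.indicator_of_notMem hh, Set.indicator_of_notMem hh, zero_add]
        exact hB0 h
    rw [i2.tsum_add hBs] at h6
    linarith

/-! ### the finite subspaces -/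

variable {N : ℕ}

/-- the embedding of the finite index space -/
def emb (κ : Fin 3 → II N → ZMod 2) : VV := fun n r l p =>
  match r with
  | Sum.inl _ => 0
  | Sum.inr i => if h : n < N then κ l ⟨⟨n, h⟩, i, p⟩ else 0

theorem emb_inl (κ : Fin 3 → II N → ZMod 2) (n : ℕ) (k : KK) : emb κ n (Sum.inl k) = 0 := rfl

theorem emb_inr (κ : Fin 3 → II N → ZMod 2) (n : ℕ) (i : ZMod (n + 1)) (l : Fin 3)
    (p : Fin (sz n)) (h : n < N) : emb κ n (Sum.inr i) l p = κ l ⟨⟨n, h⟩, i, p⟩ := by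
  show (if h : n < N then κ l ⟨⟨n, h⟩, i, p⟩ else 0) = _
  rw [dif_pos h]

theorem emb_inr' (κ : Fin 3 → II N → ZMod 2) (n : ℕ) (i : ZMod (n + 1)) (h : ¬ n < N) :
    emb κ n (Sum.inr i) = 0 := by
  funext l p
  show (if h : n < N then κ l ⟨⟨n, h⟩, i, p⟩ else 0) = _
  rw [dif_neg h]
  rfl

theorem emb_inj : Function.Injective (emb (N := N)) := by
  intro κ κ' h
  funext l t
  obtain ⟨n, i, p⟩ := t
  rw [← emb_inr κ n.1 i l p n.2, h, emb_inr]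

theorem emb_add (κ κ' : Fin 3 → II N → ZMod 2) : emb (κ + κ') = emb κ + emb κ' := by
  funext n r l p
  rcases r with k | i
  · show (0 : ZMod 2) = 0 + 0
    rw [add_zero]
  · show (if h : n < N then (κ + κ') l ⟨⟨n, h⟩, i, p⟩ else 0) =
      (if h : n < N then κ l ⟨⟨n, h⟩, i, p⟩ else 0) + (if h : n < N then κ' l ⟨⟨n, h⟩, i, p⟩ else 0)
    split_ifs
    · rfl
    · rw [add_zero]

theorem emb_zero : emb (0 : Fin 3 → II N → ZMod 2) = 0 := by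
  have h := emb_add (0 : Fin 3 → II N → ZMod 2) 0
  rw [add_zero] at h
  exact left_eq_add.1 h

/-- the operators on the finite index space -/
def opO : Option Bool → (II N → ZMod 2) → (II N → ZMod 2)
  | none, x => x
  | some b, x => Top b x

theorem opO_at (A : Option Bool) (x : II N → ZMod 2) (n : Fin N) (i : ZMod (n.1 + 1))
    (p : Fin (sz n.1)) : opO A x ⟨n, i, p⟩ = rowO A (row x n i) p := by
  cases A
  · rfl
  · rfl

theorem emb_tv (i j : Fin 3) (hij : i ≠ j) (A : Option Bool) (κ : Fin 3 → II N → ZMod 2) :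
    act (of (Gen.e i j A)) (emb κ) = emb (tv i j (opO A) κ) := by
  rw [act_of]
  have h1 : genA (Gen.e i j A) = elA i j (Ne.symm hij) A := by
    show (if h : j ≠ i then elA i j h A else AddEquiv.refl VV) = _
    rw [dif_pos (Ne.symm hij)]
  rw [h1]
  funext n r
  rcases r with k | t
  · exact elA_zero i j _ A _ n _ rfl
  · by_cases hn : n < N
    · funext l p
      rw [elA_apply, emb_inr _ _ _ _ _ hn]
      show emb κ n (Sum.inr t) l p + (if l = i then rowO A (emb κ n (Sum.inr t) j) else 0) p = _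
      rw [emb_inr _ _ _ _ _ hn]
      have h2 : emb κ n (Sum.inr t) j = row (κ j) ⟨n, hn⟩ t := by
        funext q
        exact emb_inr _ _ _ _ _ hn
      rw [h2]
      by_cases hl : l = i
      · subst hl
        rw [if_pos rfl, tv_same]
        show _ = κ l ⟨⟨n, hn⟩, t, p⟩ + opO A (κ j) ⟨⟨n, hn⟩, t, p⟩
        rw [opO_at]
      · rw [if_neg hl, tv_ne hl]
        exact add_zero _
    · rw [emb_inr' _ _ _ hn]
      exact elA_zero i j _ A _ n _ (emb_inr' _ _ _ hn)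

theorem exists_emb {y : VV} (hy : Pr y) (hk : ¬ KS y) : ∃ n0, ∀ N, n0 ≤ N →
    ∃ κ : Fin 3 → II N → ZMod 2, emb κ = y := by
  obtain ⟨-, B, n0, -, h2⟩ := hy
  refine ⟨n0, fun N hN => ⟨fun l t => y t.1.1 (Sum.inr t.2.1) l t.2.2, ?_⟩⟩
  funext n r
  rcases r with k | i
  · rw [emb_inl]
    by_contra h
    exact hk ⟨n, k, fun h3 => h h3.symm⟩
  · by_cases hn : n < N
    · funext l p
      rw [emb_inr _ _ _ _ _ hn]
    · rw [emb_inr' _ _ _ hn]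
      exact ((h2 n (by omega)).1 i).symm

open Classical in
/-- the restriction of a function on the group -/
noncomputable def rst (ξ : GG → ℂ) (κ : Fin 3 → II N → ZMod 2) : ℂ :=
  if h : emb κ ∈ Vs then ξ ⟨emb κ, h, 1⟩ else 0

theorem rst_pos (ξ : GG → ℂ) (κ : Fin 3 → II N → ZMod 2) (h : emb κ ∈ Vs) :
    rst ξ κ = ξ ⟨emb κ, h, 1⟩ := dif_pos h

theorem rst_neg (ξ : GG → ℂ) (κ : Fin 3 → II N → ZMod 2) (h : ¬ emb κ ∈ Vs) :
    rst ξ κ = 0 := dif_neg h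

open Classical in
theorem sum_emb_le (N : ℕ) (D : GG → ℝ) (hD : Summable D) (h0 : ∀ h, 0 ≤ D h) :
    ∑ κ : Fin 3 → II N → ZMod 2, (if h : emb κ ∈ Vs then D ⟨emb κ, h, 1⟩ else 0) ≤ ∑' h, D h := by
  set f : (Fin 3 → II N → ZMod 2) → GG := fun κ => if h : emb κ ∈ Vs then ⟨emb κ, h, 1⟩ else 1
    with hf
  have hf1 : ∀ κ (h : emb κ ∈ Vs), f κ = ⟨emb κ, h, 1⟩ := fun κ h => dif_pos h
  set S := Finset.univ.filter fun κ : Fin 3 → II N → ZMod 2 => emb κ ∈ Vs with hS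
  have h1 : ∑ κ : Fin 3 → II N → ZMod 2, (if h : emb κ ∈ Vs then D ⟨emb κ, h, 1⟩ else 0) =
      ∑ κ ∈ S, D (f κ) := by
    rw [hS, Finset.sum_filter]
    refine Finset.sum_congr rfl fun κ _ => ?_
    by_cases h : emb κ ∈ Vs
    · rw [dif_pos h, if_pos h, hf1 κ h]
    · rw [dif_neg h, if_neg h]
  have h2 : Set.InjOn f S := by
    intro κ hκ κ' hκ' he
    have h3 := (Finset.mem_filter.1 (Finset.mem_coe.1 hκ)).2
    have h4 := (Finset.mem_filter.1 (Finset.mem_coe.1 hκ')).2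
    rw [hf1 κ h3, hf1 κ' h4] at he
    exact emb_inj (congrArg GG.v he)
  rw [h1, ← Finset.sum_image h2]
  exact hD.sum_le_tsum _ fun h _ => h0 h

theorem rst_tv (ξ : GG → ℂ) (i j : Fin 3) (hij : i ≠ j) (A : Option Bool) {ε : ℝ}
    (hd : Summable fun h => ‖ξ (cj (of (Gen.e i j A)) h) - ξ h‖ ^ 2)
    (hd2 : ∑' h, ‖ξ (cj (of (Gen.e i j A)) h) - ξ h‖ ^ 2 ≤ ε ^ 2) :
    ∑ κ : Fin 3 → II N → ZMod 2, ‖rst ξ (tv i j (opO A) κ) - rst ξ κ‖ ^ 2 ≤ ε ^ 2 := by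
  classical
  refine le_trans (le_of_eq ?_) ((sum_emb_le N _ hd fun h => sq_nonneg _).trans hd2)
  refine Finset.sum_congr rfl fun κ _ => ?_
  have h1 := emb_tv i j hij A κ
  by_cases h : emb κ ∈ Vs
  · have h2 : emb (tv i j (opO A) κ) ∈ Vs := by
      rw [← h1]
      exact act_mem _ h
    rw [dif_pos h, rst_pos ξ κ h, rst_pos ξ _ h2]
    have h3 : cj (of (Gen.e i j A)) ⟨emb κ, h, 1⟩ = ⟨emb (tv i j (opO A) κ), h2, 1⟩ := by
      apply GG.ext'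
      · rw [cj_v]
        exact h1
      · rw [cj_g, mul_one, mul_inv_cancel]
    rw [h3]
  · have h2 : ¬ emb (tv i j (opO A) κ) ∈ Vs := by
      rw [← h1, act_mem_iff]
      exact h
    rw [dif_neg h, rst_neg ξ κ h, rst_neg ξ _ h2, sub_zero, norm_zero]
    norm_num

/-- the bounded characters property -/
def BdChar (ξ : GG → ℂ) : Prop :=
  ∀ (N : ℕ) (x : Fin 3 → II N → ZMod 2), ‖∑ κ, rst ξ κ * ch (bt x κ)‖ ≤ 1

theorem fin_bound (ξ : GG → ℂ) (hs : Summable fun h => ‖ξ h‖ ^ 2)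
    (h1 : ∑' h, ‖ξ h‖ ^ 2 ≤ 1) (hξ1 : ξ 1 = 0) {ε : ℝ} (hε : 0 < ε) (hε1 : ε ≤ 1)
    (hd : ∀ g, Summable fun h => ‖ξ (cj (of g) h) - ξ h‖ ^ 2)
    (hd2 : ∀ g, ∑' h, ‖ξ (cj (of g) h) - ξ h‖ ^ 2 ≤ ε ^ 2) (hb : BdChar ξ) (N : ℕ) :
    ∑ κ : Fin 3 → II N → ZMod 2, ‖rst ξ κ‖ ^ 2 ≤ 3 * (27 * ε + 1 / 256) := by
  classical
  refine dstep_total Xop Top Xop_add op_transpose (rst ξ) (hb N) ?_ hε.le hε1 ?_ ?_ (badS N)
    badS_spec badS_card ?_
  · refine le_trans (le_of_eq ?_) ((sum_emb_le N _ hs fun h => sq_nonneg _).trans h1)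
    refine Finset.sum_congr rfl fun κ _ => ?_
    by_cases h : emb κ ∈ Vs
    · rw [dif_pos h, rst_pos ξ κ h]
    · rw [dif_neg h, rst_neg ξ κ h, norm_zero]
      norm_num
  · intro i j hij
    exact rst_tv ξ i j hij none (hd _) (hd2 _)
  · intro b i j hij
    exact rst_tv ξ i j hij (some b) (hd _) (hd2 _)
  · have h2 : emb (0 : Fin 3 → II N → ZMod 2) ∈ Vs := by
      rw [emb_zero]
      exact Vs.zero_mem
    rw [rst_pos ξ 0 h2]
    have h3 : (⟨emb 0, h2, 1⟩ : GG) = 1 := by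
      apply GG.ext'
      · exact emb_zero
      · rfl
    rw [h3, hξ1]

theorem rest_bound (ξ : GG → ℂ) (hs : Summable fun h => ‖ξ h‖ ^ 2) {C : ℝ}
    (hC : ∀ N, ∑ κ : Fin 3 → II N → ZMod 2, ‖rst ξ κ‖ ^ 2 ≤ C) :
    mass (fun h => ‖ξ h‖ ^ 2) {h | h.g = 1 ∧ ¬ KS h.v} ≤ C := by
  classical
  unfold mass
  refine Summable.tsum_le_of_sum_le (hs.indicator _) fun T => ?_
  set R : Set GG := {h | h.g = 1 ∧ ¬ KS h.v} with hR
  have h1 : ∀ h : GG, h ∈ R → ∃ n0, ∀ N, n0 ≤ N → ∃ κ : Fin 3 → II N → ZMod 2, emb κ = h.v :=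
    fun h hh => exists_emb (Pr_mem h.hv) hh.2
  have h2 : ∃ M, ∀ h ∈ T, h ∈ R → ∃ κ : Fin 3 → II M → ZMod 2, emb κ = h.v := by
    choose! n0 hn0 using h1
    refine ⟨T.sup n0, fun h hT hh => hn0 h hh _ (Finset.le_sup hT)⟩
  obtain ⟨M, hM⟩ := h2
  have h3 : ∀ h : GG, ∃ κ : Fin 3 → II M → ZMod 2, h ∈ T → h ∈ R → emb κ = h.v := by
    intro h
    by_cases hT : h ∈ T
    · by_cases hh : h ∈ R
      · obtain ⟨κ, hκ⟩ := hM h hT hh
        exact ⟨κ, fun _ _ => hκ⟩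
      · exact ⟨0, fun _ h => absurd h hh⟩
    · exact ⟨0, fun h => absurd h hT⟩
  choose f hf using h3
  have h4 : ∑ h ∈ T, R.indicator (fun h => ‖ξ h‖ ^ 2) h =
      ∑ h ∈ T.filter (fun h => h ∈ R), ‖rst ξ (f h)‖ ^ 2 := by
    rw [Finset.sum_filter]
    refine Finset.sum_congr rfl fun h hT => ?_
    by_cases hh : h ∈ R
    · rw [Set.indicator_of_mem hh, if_pos hh]
      have h5 := hf h hT hh
      have h6 : emb (f h) ∈ Vs := by
        rw [h5]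
        exact h.hv
      rw [rst_pos ξ _ h6]
      have h7 : (⟨emb (f h), h6, 1⟩ : GG) = h := by
        apply GG.ext'
        · exact h5
        · exact hh.1.symm
      rw [h7]
    · rw [Set.indicator_of_notMem hh, if_neg hh]
  have h5 : Set.InjOn f (T.filter fun h => h ∈ R) := by
    intro h hh h' hh' he
    have a1 := Finset.mem_filter.1 (Finset.mem_coe.1 hh)
    have a2 := Finset.mem_filter.1 (Finset.mem_coe.1 hh')
    apply GG.ext'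
    · rw [← hf h a1.1 a1.2, ← hf h' a2.1 a2.2, he]
    · rw [a1.2.1, a2.2.1]
  rw [h4, ← Finset.sum_image (f := fun κ => ‖rst ξ κ‖ ^ 2) h5]
  exact (Finset.sum_le_sum_of_subset_of_nonneg (Finset.subset_univ _)
    fun _ _ _ => sq_nonneg _).trans (hC M)

/-- **The gap.** -/
theorem gap (ξ : GG → ℂ) (hs : Summable fun h => ‖ξ h‖ ^ 2)
    (h1 : ∑' h, ‖ξ h‖ ^ 2 = 1) (hξ1 : ξ 1 = 0)
    (hd : ∀ g, Summable fun h => ‖ξ (cj (of g) h) - ξ h‖ ^ 2)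
    (hd2 : ∀ g, ∑' h, ‖ξ (cj (of g) h) - ξ h‖ ^ 2 ≤ (1 / 1000 : ℝ) ^ 2) (hb : BdChar ξ) :
    False := by
  have hε : (0 : ℝ) < 1 / 1000 := by norm_num
  have h0 : ∀ h, 0 ≤ ‖ξ h‖ ^ 2 := fun h => sq_nonneg _
  have hinv : AInv (fun h => ‖ξ h‖ ^ 2) (2 * (1 / 1000)) := fun g A =>
    mass_ainv ξ (cj (of g)) hs h1.le hε (hd g) (hd2 g) A
  have a1 := mass_off hs h0 hinv
  have a2 := mass_KS hs h0 hinv
  have a3 := rest_bound ξ hs (fin_bound ξ hs h1.le hξ1 hε (by norm_num) hd hd2 hb)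
  have a4 : mass (fun h => ‖ξ h‖ ^ 2) (Set.univ : Set GG) = 1 := by
    unfold mass
    rw [Set.indicator_univ]
    exact h1
  have a5 : (Set.univ : Set GG) ⊆ {h | h.g ≠ 1} ∪ ({h | h.g = 1 ∧ KS h.v} ∪
      {h | h.g = 1 ∧ ¬ KS h.v}) := by
    intro h _
    by_cases h2 : h.g = 1
    · right
      by_cases h3 : KS h.v
      · left; exact ⟨h2, h3⟩
      · right; exact ⟨h2, h3⟩
    · left; exact h2
  have a6 := mass_mono hs h0 a5
  have a7 := mass_union_le hs h0 {h | h.g ≠ 1} ({h : GG | h.g = 1 ∧ KS h.v} ∪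
      {h | h.g = 1 ∧ ¬ KS h.v})
  have a8 := mass_union_le hs h0 {h : GG | h.g = 1 ∧ KS h.v} {h | h.g = 1 ∧ ¬ KS h.v}
  rw [a4] at a6
  norm_num at a1 a2 a3 a6 a7 a8
  linarith

end Pool.Agent.W663.IA
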