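import Pool.Agent.W663.IA.Space

set_option autoImplicit false
set_option linter.unusedSectionVars false

namespace Pool.Agent.W663.IA

open FreeGroup (of of_ne_one)

/-- the group -/
structure GG : Type where
  v : VV
  hv : v ∈ Vs
  g : FreeGroup Gen

theorem GG.ext' {x y : GG} (h1 : x.v = y.v) (h2 : x.g = y.g) : x = y := by
  cases x
  cases y
  cases h1
  cases h2
  rfl

noncomputable instance : Mul GG := ⟨fun x y => ⟨x.v + act x.g y.v, Vs.add_mem x.hv (act_mem _ y.hv), x.g * y.g⟩⟩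
noncomputable instance : One GG := ⟨⟨0, Vs.zero_mem, 1⟩⟩
noncomputable instance : Inv GG := ⟨fun x => ⟨act x.g⁻¹ x.v, act_mem _ x.hv, x.g⁻¹⟩⟩

theorem mul_v (x y : GG) : (x * y).v = x.v + act x.g y.v := rfl
theorem mul_g (x y : GG) : (x * y).g = x.g * y.g := rfl
theorem one_v : (1 : GG).v = 0 := rfl
theorem one_g : (1 : GG).g = 1 := rfl
theorem inv_v (x : GG) : x⁻¹.v = act x.g⁻¹ x.v := rfl
theorem inv_g (x : GG) : x⁻¹.g = x.g⁻¹ := rfl

theorem vv_self (y : VV) : y + y = 0 := by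
  have h := vv_add_self 0 y
  rwa [zero_add] at h

noncomputable instance : Group GG := Group.ofLeftAxioms
  (by
    intro x y z
    apply GG.ext'
    · rw [mul_v, mul_v, mul_v, mul_v, mul_g, act_add, act_mul, add_assoc]
    · rw [mul_g, mul_g, mul_g, mul_g, mul_assoc])
  (by
    intro x
    apply GG.ext'
    · rw [mul_v, one_v, one_g, act_one, zero_add]
    · rw [mul_g, one_g, one_mul])
  (by
    intro x
    apply GG.ext'
    · rw [mul_v, inv_v, inv_g, one_v, vv_self]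
    · rw [mul_g, inv_g, one_g, inv_mul_cancel])

/-- the letters -/
noncomputable def lt (γ : FreeGroup Gen) : GG := ⟨0, Vs.zero_mem, γ⟩

theorem lt_mul (γ δ : FreeGroup Gen) : lt (γ * δ) = lt γ * lt δ := by
  apply GG.ext'
  · show (0 : VV) = 0 + act γ 0
    rw [act_zero, add_zero]
  · rfl

theorem lt_one : lt 1 = 1 := rfl

theorem lt_inv (γ : FreeGroup Gen) : (lt γ)⁻¹ = lt γ⁻¹ := by
  apply GG.ext'
  · show act γ⁻¹ 0 = 0
    rw [act_zero]
  · rfl

/-- conjugation by a letter -/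
noncomputable def cj (γ : FreeGroup Gen) : GG ≃ GG := (MulAut.conj (lt γ)).toEquiv

theorem cj_apply (γ : FreeGroup Gen) (h : GG) : cj γ h = lt γ * h * (lt γ)⁻¹ := rfl

theorem cj_symm_apply (γ : FreeGroup Gen) (h : GG) : (cj γ).symm h = (lt γ)⁻¹ * h * lt γ := rfl

theorem cj_v (γ : FreeGroup Gen) (h : GG) : (cj γ h).v = act γ h.v := by
  rw [cj_apply, lt_inv, mul_v, mul_v]
  show 0 + act γ h.v + act _ 0 = _
  rw [act_zero, add_zero, zero_add]

theorem cj_g (γ : FreeGroup Gen) (h : GG) : (cj γ h).g = γ * h.g * γ⁻¹ := rfl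

theorem cj_symm_g (γ : FreeGroup Gen) (h : GG) : ((cj γ).symm h).g = γ⁻¹ * h.g * γ := rfl

theorem cj_symm_v (γ : FreeGroup Gen) (h : GG) : ((cj γ).symm h).v = act γ⁻¹ h.v := by
  rw [cj_symm_apply, lt_inv, mul_v, mul_v]
  show 0 + act γ⁻¹ h.v + act _ 0 = _
  rw [act_zero, add_zero, zero_add]

/-- almost invariance of a mass under conjugation by the letters -/
def AInv (m : GG → ℝ) (δ : ℝ) : Prop :=
  ∀ (g : Gen) (A : Set GG), |mass m (cj (of g) ⁻¹' A) - mass m A| ≤ δ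

section

variable {m : GG → ℝ} (hm : Summable m) (h0 : ∀ x, 0 ≤ m x) {δ : ℝ} (hinv : AInv m δ)

include hm h0 hinv

theorem mass_off : mass m {h | h.g ≠ 1} ≤ 7 * δ := by
  have hne : Gen.c ≠ Gen.s := by decide
  refine paradox hm h0 (cj (of Gen.c)) (cj (of Gen.s)) (hinv _) (hinv _) _ {h | h.g ∈ St Gen.c}
    ?_ ?_ ?_ ?_ ?_ ?_ ?_
  · intro h hh
    exact St_ne_one hh
  · intro h hh
    have h1 : of Gen.s * h.g * (of Gen.s)⁻¹ ∈ St Gen.c := hh
    intro h2
    rw [h2, mul_one, mul_inv_cancel] at h1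
    exact St_ne_one h1 rfl
  · intro h hh
    have h1 : (of Gen.s)⁻¹ * h.g * of Gen.s ∈ St Gen.c := hh
    intro h2
    rw [h2, mul_one, inv_mul_cancel] at h1
    exact St_ne_one h1 rfl
  · intro h hh
    by_cases h1 : h.g ∈ St Gen.c
    · left; exact h1
    · right; exact St_conj_self hh h1
  · rw [Set.disjoint_left]
    intro h h1 h2
    exact sw_not_St hne (St_conj_other hne h1) h2
  · rw [Set.disjoint_left]
    intro h h1 h2
    exact sw_not_St hne (St_conj_other' hne h1) h2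
  · rw [Set.disjoint_left]
    intro h h1 h2
    have h3 : of Gen.s * h.g * (of Gen.s)⁻¹ ∈ St Gen.c := h1
    have h4 : (of Gen.s)⁻¹ * h.g * of Gen.s ∈ St Gen.c := h2
    have h5 := St_conj_other' hne h3
    have h6 := St_conj_other hne h4
    have h7 : (of Gen.s)⁻¹ * (of Gen.s * h.g * (of Gen.s)⁻¹) * of Gen.s = h.g := by group
    have h8 : of Gen.s * ((of Gen.s)⁻¹ * h.g * of Gen.s) * (of Gen.s)⁻¹ = h.g := by group
    rw [h7] at h5
    rw [h8] at h6
    have h9 : h.g.toWord[0]? = some (Gen.s, false) := h5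
    have h10 : h.g.toWord[0]? = some (Gen.s, true) := h6
    rw [h9] at h10
    simp at h10

theorem mass_KS : mass m {h | h.g = 1 ∧ KS h.v} ≤ 7 * δ := by
  have hne : true ≠ false := by decide
  let _ : MulAction KK VV :=
    { smul := fun k y => permS k 0 y
      one_smul := permS_one
      mul_smul := fun k k' y => by
        show permS (k * k') 0 y = permS k 0 (permS k' 0 y)
        rw [permS_mul, add_zero] }
  obtain ⟨θ, hθ⟩ := exists_equivariant (K := KK) (X := VV) {y | KS y ∧ Pr y}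
    (fun k y hy => ⟨KS_permS k 0 hy.1, Pr_permS k 0 hy.2⟩)
    (fun k y hy h => KS_free hy.1 hy.2 k h)
  have hθ' : ∀ (k : KK) (y : VV), KS y → Pr y → θ (permS k 0 y) = k * θ y :=
    fun k y h1 h2 => hθ k y ⟨h1, h2⟩
  have hKS : ∀ (k : KK) (y : VV), KS (permS k 0 y) → KS y := by
    intro k y h
    have h1 := KS_permS k⁻¹ 0 h
    rw [permS_mul, inv_mul_cancel, add_zero, permS_one] at h1
    exact h1
  have hv : ∀ (b : Bool) (h : GG), (cj (of (Gen.a b)) h).v = permS (of b) 0 h.v := by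
    intro b h
    rw [cj_v, act_of]
    rfl
  have hvs : ∀ (b : Bool) (h : GG), ((cj (of (Gen.a b))).symm h).v = permS (of b)⁻¹ 0 h.v := by
    intro b h
    rw [cj_symm_v, act_inv_of]
    show (permS (of b) 0).symm _ = _
    rw [permS_symm, neg_zero]
  have hg1 : ∀ (γ : FreeGroup Gen) (h : GG), (cj γ h).g = 1 → h.g = 1 := by
    intro γ h hh
    rw [cj_g] at hh
    have h1 : h.g = γ⁻¹ * (γ * h.g * γ⁻¹) * γ := by group
    rw [h1, hh]
    group
  have hg2 : ∀ (γ : FreeGroup Gen) (h : GG), ((cj γ).symm h).g = 1 → h.g = 1 := by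
    intro γ h hh
    rw [cj_symm_g] at hh
    have h1 : h.g = γ * (γ⁻¹ * h.g * γ) * γ⁻¹ := by group
    rw [h1, hh]
    group
  refine paradox hm h0 (cj (of (Gen.a true))) (cj (of (Gen.a false))) (hinv _) (hinv _) _
    {h | h.g = 1 ∧ KS h.v ∧ θ h.v ∈ St true} ?_ ?_ ?_ ?_ ?_ ?_ ?_
  · intro h hh
    exact ⟨hh.1, hh.2.1⟩
  · rintro h ⟨h1, h2, h3⟩
    rw [hv] at h2
    exact ⟨hg1 _ _ h1, hKS _ _ h2⟩
  · rintro h ⟨h1, h2, h3⟩
    rw [hvs] at h2
    exact ⟨hg2 _ _ h1, hKS _ _ h2⟩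
  · rintro h ⟨h1, h2⟩
    by_cases h3 : θ h.v ∈ St true
    · left; exact ⟨h1, h2, h3⟩
    · right
      refine ⟨?_, ?_, ?_⟩
      · rw [cj_g, h1]
        group
      · rw [hv]
        exact KS_permS _ _ h2
      · rw [hv, hθ' _ _ h2 (Pr_mem h.hv)]
        exact St_mul_self h3
  · rw [Set.disjoint_left]
    rintro h ⟨h1, h2, h3⟩ ⟨h4, h5, h6⟩
    rw [hv, hθ' _ _ h2 (Pr_mem h.hv)] at h6
    exact sw_not_St hne (St_mul_other hne h3) h6
  · rw [Set.disjoint_left]
    rintro h ⟨h1, h2, h3⟩ ⟨h4, h5, h6⟩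
    rw [hvs, hθ' _ _ h2 (Pr_mem h.hv)] at h6
    exact sw_not_St hne (St_mul_other' hne h3) h6
  · rw [Set.disjoint_left]
    rintro h ⟨h1, h2, h3⟩ ⟨h4, h5, h6⟩
    rw [hv] at h2
    have h7 := hKS _ _ h2
    rw [hv, hθ' _ _ h7 (Pr_mem h.hv)] at h3
    rw [hvs, hθ' _ _ h7 (Pr_mem h.hv)] at h6
    have h8 := St_mul_other' hne h3
    have h9 := St_mul_other hne h6
    rw [inv_mul_cancel_left] at h8
    rw [mul_inv_cancel_left] at h9
    have h10 : (θ h.v).toWord[0]? = some (false, false) := h8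
    have h11 : (θ h.v).toWord[0]? = some (false, true) := h9
    rw [h10] at h11
    simp at h11

end

end Pool.Agent.W663.IA
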