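import Pool.Agent.W663.IA.Inner

set_option autoImplicit false
set_option linter.unusedSectionVars false

open scoped Topology

namespace Pool.Agent.W663.IA

open Pool.Agent.Helper278 Pool.Agent.Helper436.SN
open FreeGroup (of of_ne_one)

theorem finite_class (C : Set GG) (hC : C.Finite) (hinv : ∀ g : Gen, ∀ h, h ∈ C ↔ cj (of g) h ∈ C)
    (h : GG) (hh : h ∈ C) : h.g = 1 ∧ ¬ KS h.v := by
  classical
  set m : GG → ℝ := C.indicator 1 with hm
  have hs : Summable m := summable_of_finite_support (hC.subset (by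
    intro x hx
    by_contra h1
    exact hx (Set.indicator_of_notMem h1 _)))
  have h0 : ∀ x, 0 ≤ m x := fun x => Set.indicator_nonneg (fun _ _ => zero_le_one) x
  have hA : AInv m 0 := by
    intro g A
    have h1 : mass m (cj (of g) ⁻¹' A) = mass m A := by
      unfold mass
      rw [← (cj (of g)).tsum_eq (fun x => A.indicator m x)]
      congr 1
      funext x
      have h2 : m (cj (of g) x) = m x := by
        rw [hm]
        by_cases hx : x ∈ C
        · rw [Set.indicator_of_mem hx, Set.indicator_of_mem ((hinv g x).1 hx)]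
          rfl
        · rw [Set.indicator_of_notMem hx, Set.indicator_of_notMem (fun h3 => hx ((hinv g x).2 h3))]
      by_cases hx : cj (of g) x ∈ A
      · rw [Set.indicator_of_mem hx, Set.indicator_of_mem (show x ∈ cj (of g) ⁻¹' A from hx), h2]
      · rw [Set.indicator_of_notMem hx,
          Set.indicator_of_notMem (show x ∉ cj (of g) ⁻¹' A from hx)]
    rw [h1, sub_self, abs_zero]
  have key : ∀ B : Set GG, mass m B ≤ 7 * 0 → h ∉ B := by
    intro B hB hhB
    have h1 : B.indicator m h ≤ mass m B :=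
      (hs.indicator B).le_tsum h fun x _ => Set.indicator_nonneg (fun x _ => h0 x) x
    rw [Set.indicator_of_mem hhB] at h1
    have h2 : m h = 1 := Set.indicator_of_mem hh _
    rw [h2] at h1
    linarith
  have a1 := key _ (mass_off hs h0 hA)
  have a2 := key _ (mass_KS hs h0 hA)
  have h3 : h.g = 1 := by
    by_contra h4
    exact a1 h4
  exact ⟨h3, fun h4 => a2 ⟨h3, h4⟩⟩

theorem icc_class (g : GG) (hg : g ≠ 1) : (Set.range fun h : GG => h * g * h⁻¹).Infinite := by
  intro hfin
  set C := Set.range fun h : GG => h * g * h⁻¹ with hC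
  have hconj : ∀ (γ : FreeGroup Gen) (x : GG), x ∈ C → cj γ x ∈ C := by
    rintro γ _ ⟨h, rfl⟩
    refine ⟨lt γ * h, ?_⟩
    show lt γ * h * g * (lt γ * h)⁻¹ = lt γ * (h * g * h⁻¹) * (lt γ)⁻¹
    group
  have hinv : ∀ (γ : Gen) (x : GG), x ∈ C ↔ cj (of γ) x ∈ C := by
    intro γ x
    constructor
    · exact hconj _ x
    · intro hx
      have h1 := hconj (of γ)⁻¹ _ hx
      have h2 : cj (of γ)⁻¹ (cj (of γ) x) = x := by
        rw [cj_apply, cj_apply, ← lt_inv]
        group
      rwa [h2] at h1
  have hall := finite_class C hfin hinv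
  have hgC : g ∈ C := ⟨1, by show 1 * g * 1⁻¹ = g; group⟩
  have hg1 := hall g hgC
  have hv : g.v ≠ 0 := by
    intro h
    exact hg (GG.ext' h hg1.1)
  obtain ⟨n, hn⟩ := Function.ne_iff.1 hv
  obtain ⟨r, hr⟩ := Function.ne_iff.1 hn
  rcases r with k | i
  · exact hg1.2 ⟨n, k, hr⟩
  · set j : ℕ := (-i : ZMod (n + 1)).val with hj
    have hj1 : ((j : ℤ) : ZMod (n + 1)) = -i := by
      rw [Int.cast_natCast, hj, ZMod.natCast_zmod_val]
    have h1 := hconj (of Gen.c ^ j) g hgC
    have h2 : (cj (of Gen.c ^ j) g).v n (Sum.inr 0) = g.v n (Sum.inr i) := by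
      rw [cj_v, act_c_pow, permS_inr, hj1, zero_sub, neg_neg]
    have h3 := hall _ h1
    have h4 := hall _ (hconj (of Gen.t) _ h1)
    apply h4.2
    refine ⟨n, of true ^ n, ?_⟩
    rw [cj_v, act_of, genA_t_inl_pow, h2]
    have h5 : (cj (of Gen.c ^ j) g).v n (Sum.inl (of true ^ n)) = 0 := by
      by_contra h6
      exact h3.2 ⟨n, _, h6⟩
    rw [h5, zero_add]
    exact hr

theorem lt_c_ne : lt (of Gen.c) ≠ 1 := by
  intro h
  exact of_ne_one Gen.c (congrArg GG.g h)

theorem icc : IsICC GG := by
  refine ⟨?_, icc_class⟩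
  by_contra h
  have h1 : Finite GG := not_infinite_iff_finite.1 h
  exact icc_class _ lt_c_ne (Set.toFinite _)

/-- **Main theorem**: a finitely generated icc inner amenable group whose von Neumann algebra does
not have property Gamma. -/
theorem main : ∃ (G : Type) (_ : Group G), Group.FG G ∧ IsICC G ∧ InnerAmenable G ∧
    ¬ PropGamma (trL G) :=
  ⟨GG, inferInstance, fg, icc, innerAmenable, not_gamma⟩

end Pool.Agent.W663.IA
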