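import Pool.Agent.W663.IA.Vec

set_option autoImplicit false
set_option linter.unusedSectionVars false

open scoped Topology

namespace Pool.Agent.W663.IA

open Pool.Agent.Helper278 Pool.Agent.Helper436.SN
open FreeGroup (of of_ne_one)
open Filter

/-! ### a Folner type criterion for inner amenability -/

section criterion

variable {G : Type} [Group G] (T : ℕ → Type) [∀ n, Fintype (T n)] [∀ n, Nonempty (T n)]
  (f : ∀ n, T n → G)

open Classical in
/-- the error of a permutation -/
noncomputable def er (g : G) (n : ℕ) (π : Equiv.Perm (T n)) : ℝ :=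
  ((Finset.univ.filter fun t => g * f n t * g⁻¹ ≠ f n (π t)).card : ℝ) / Fintype.card (T n)

/-- conjugation by `g` is almost a permutation of the family -/
def Good (g : G) : Prop := ∃ π : ∀ n, Equiv.Perm (T n),
  Tendsto (fun n => er T f g n (π n)) atTop (𝓝 0)

theorem er_nonneg (g : G) (n : ℕ) (π : Equiv.Perm (T n)) : 0 ≤ er T f g n π := by
  unfold er
  positivity

theorem good_one : Good T f 1 := by
  classical
  refine ⟨fun n => 1, ?_⟩
  have h1 : ∀ n, er T f 1 n 1 = 0 := by
    intro n
    unfold er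
    rw [Finset.filter_false_of_mem]
    · simp
    · intro t _
      simp
  simp only [h1]
  exact tendsto_const_nhds

theorem good_mul {g h : G} (hg : Good T f g) (hh : Good T f h) : Good T f (g * h) := by
  classical
  obtain ⟨π, hπ⟩ := hg
  obtain ⟨ρ, hρ⟩ := hh
  refine ⟨fun n => π n * ρ n, ?_⟩
  have h1 := hπ.add hρ
  rw [add_zero] at h1
  refine squeeze_zero (fun n => er_nonneg _ _ _ _ _) (fun n => ?_) h1
  unfold er
  rw [← add_div]
  refine div_le_div_of_nonneg_right ?_ (Nat.cast_nonneg _)
  have h2 : (Finset.univ.filter fun t => g * h * f n t * (g * h)⁻¹ ≠ f n ((π n * ρ n) t)) ⊆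
      ((Finset.univ.filter fun t => g * f n t * g⁻¹ ≠ f n (π n t)).map
        (ρ n).symm.toEmbedding) ∪ (Finset.univ.filter fun t => h * f n t * h⁻¹ ≠ f n (ρ n t)) := by
    intro t ht
    rw [Finset.mem_filter] at ht
    rw [Finset.mem_union]
    by_cases h3 : h * f n t * h⁻¹ = f n (ρ n t)
    · left
      rw [Finset.mem_map]
      refine ⟨ρ n t, ?_, (ρ n).symm_apply_apply t⟩
      rw [Finset.mem_filter]
      refine ⟨Finset.mem_univ _, fun h4 => ht.2 ?_⟩
      show g * h * f n t * (g * h)⁻¹ = f n (π n (ρ n t))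
      rw [← h4, ← h3]
      group
    · right
      rw [Finset.mem_filter]
      exact ⟨Finset.mem_univ _, h3⟩
  have h3 := (Finset.card_le_card h2).trans (Finset.card_union_le _ _)
  rw [Finset.card_map] at h3
  exact_mod_cast h3

theorem good_inv {g : G} (hg : Good T f g) : Good T f g⁻¹ := by
  classical
  obtain ⟨π, hπ⟩ := hg
  refine ⟨fun n => (π n)⁻¹, ?_⟩
  have h1 : ∀ n, er T f g⁻¹ n (π n)⁻¹ = er T f g n (π n) := by
    intro n
    unfold er
    congr 2
    rw [← Finset.card_map (π n).toEmbedding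
      (s := Finset.univ.filter fun t => g * f n t * g⁻¹ ≠ f n (π n t))]
    congr 1
    ext t
    rw [Finset.mem_filter, Finset.mem_map]
    constructor
    · rintro ⟨-, h2⟩
      refine ⟨(π n).symm t, ?_, (π n).apply_symm_apply t⟩
      rw [Finset.mem_filter]
      refine ⟨Finset.mem_univ _, fun h3 => h2 ?_⟩
      rw [Equiv.apply_symm_apply] at h3
      show g⁻¹ * f n t * g⁻¹⁻¹ = f n ((π n).symm t)
      rw [← h3]
      group
    · rintro ⟨t', h2, h3⟩
      rw [Finset.mem_filter] at h2
      refine ⟨Finset.mem_univ _, fun h4 => h2.2 ?_⟩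
      have h5 : t = π n t' := h3.symm
      subst h5
      have h6 : ((π n)⁻¹ : Equiv.Perm (T n)) (π n t') = t' := (π n).symm_apply_apply t'
      rw [h6] at h4
      rw [← h4]
      group
  simp only [h1]
  exact hπ

theorem good_all (S : Set G) (hS : Subgroup.closure S = ⊤) (h : ∀ g ∈ S, Good T f g) (g : G) :
    Good T f g := by
  have hg : g ∈ Subgroup.closure S := by rw [hS]; exact Subgroup.mem_top g
  induction hg using Subgroup.closure_induction with
  | mem x hx => exact h x hx
  | one => exact good_one T f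
  | mul x y _ _ hx hy => exact good_mul T f hx hy
  | inv x _ hx => exact good_inv T f hx

open Classical in
/-- the frequencies -/
noncomputable def fq (A : Set G) (n : ℕ) : ℝ :=
  ((Finset.univ.filter fun t => f n t ∈ A).card : ℝ) / Fintype.card (T n)

theorem fq_nonneg (A : Set G) (n : ℕ) : 0 ≤ fq T f A n := by
  unfold fq
  positivity

theorem card_pos_T (n : ℕ) : (0 : ℝ) < Fintype.card (T n) := by
  have : 0 < Fintype.card (T n) := Fintype.card_pos
  exact_mod_cast this

theorem fq_le_one (A : Set G) (n : ℕ) : fq T f A n ≤ 1 := by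
  classical
  unfold fq
  rw [div_le_one (card_pos_T T n)]
  have := Finset.card_filter_le (Finset.univ : Finset (T n)) (fun t => f n t ∈ A)
  rw [Finset.card_univ] at this
  exact_mod_cast this

theorem fq_of_true (A : Set G) (n : ℕ) (h : ∀ t, f n t ∈ A) : fq T f A n = 1 := by
  classical
  unfold fq
  rw [Finset.filter_true_of_mem (fun t _ => h t), Finset.card_univ, div_self (card_pos_T T n).ne']

theorem fq_of_false (A : Set G) (n : ℕ) (h : ∀ t, f n t ∉ A) : fq T f A n = 0 := by
  classical
  unfold fq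
  rw [Finset.filter_false_of_mem (fun t _ => h t), Finset.card_empty, Nat.cast_zero, zero_div]

theorem fq_conj (g : G) (A : Set G) (n : ℕ) (π : Equiv.Perm (T n)) :
    |fq T f ((fun h => g * h * g⁻¹) '' A) n - fq T f A n| ≤ er T f g n π := by
  classical
  have hmem : ∀ x : G, g * x * g⁻¹ ∈ (fun h => g * h * g⁻¹) '' A ↔ x ∈ A := by
    intro x
    constructor
    · rintro ⟨y, hy, h1⟩
      have h2 : y = x := by
        have h3 : g * y * g⁻¹ = g * x * g⁻¹ := h1
        exact mul_left_cancel (mul_right_cancel h3)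
      rw [← h2]
      exact hy
    · intro hx
      exact ⟨x, hx, rfl⟩
  have h1 : fq T f ((fun h => g * h * g⁻¹) '' A) n =
      ((Finset.univ.filter fun t => f n (π t) ∈ (fun h => g * h * g⁻¹) '' A).card : ℝ) /
        Fintype.card (T n) := by
    unfold fq
    congr 2
    rw [← Finset.card_map π.toEmbedding
      (s := Finset.univ.filter fun t => f n (π t) ∈ (fun h => g * h * g⁻¹) '' A)]
    congr 1
    ext t
    rw [Finset.mem_filter, Finset.mem_map]
    constructor
    · rintro ⟨-, h2⟩
      refine ⟨π.symm t, ?_, π.apply_symm_apply t⟩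
      rw [Finset.mem_filter, Equiv.apply_symm_apply]
      exact ⟨Finset.mem_univ _, h2⟩
    · rintro ⟨t', h2, h3⟩
      rw [Finset.mem_filter] at h2
      have h5 : t = π t' := h3.symm
      rw [h5]
      exact ⟨Finset.mem_univ _, h2.2⟩
  rw [h1]
  unfold fq er
  rw [← sub_div, abs_div, abs_of_pos (card_pos_T T n)]
  refine div_le_div_of_nonneg_right ?_ (card_pos_T T n).le
  set P := Finset.univ.filter fun t => f n (π t) ∈ (fun h => g * h * g⁻¹) '' A with hP
  set Q := Finset.univ.filter fun t => f n t ∈ A with hQ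
  set E := Finset.univ.filter fun t => g * f n t * g⁻¹ ≠ f n (π t) with hE
  have h2 : P ⊆ Q ∪ E := by
    intro t ht
    rw [hP, Finset.mem_filter] at ht
    rw [Finset.mem_union]
    by_cases h3 : g * f n t * g⁻¹ = f n (π t)
    · left
      rw [hQ, Finset.mem_filter]
      refine ⟨Finset.mem_univ _, ?_⟩
      rw [← h3, hmem] at ht
      exact ht.2
    · right
      rw [hE, Finset.mem_filter]
      exact ⟨Finset.mem_univ _, h3⟩
  have h3 : Q ⊆ P ∪ E := by
    intro t ht
    rw [hQ, Finset.mem_filter] at ht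
    rw [Finset.mem_union]
    by_cases h3 : g * f n t * g⁻¹ = f n (π t)
    · left
      rw [hP, Finset.mem_filter]
      refine ⟨Finset.mem_univ _, ?_⟩
      rw [← h3, hmem]
      exact ht.2
    · right
      rw [hE, Finset.mem_filter]
      exact ⟨Finset.mem_univ _, h3⟩
  have h4 : (P.card : ℝ) ≤ Q.card + E.card := by
    exact_mod_cast (Finset.card_le_card h2).trans (Finset.card_union_le _ _)
  have h5 : (Q.card : ℝ) ≤ P.card + E.card := by
    exact_mod_cast (Finset.card_le_card h3).trans (Finset.card_union_le _ _)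
  rw [abs_le]
  constructor <;> linarith

theorem innerAmenable_of (hf1 : ∀ n t, f n t ≠ 1) (S : Set G) (hS : Subgroup.closure S = ⊤)
    (h : ∀ g ∈ S, Good T f g) : InnerAmenable G := by
  classical
  have hlim : ∀ A : Set G, ∃ x : ℝ, Tendsto (fq T f A) (hyperfilter ℕ : Filter ℕ) (𝓝 x) := by
    intro A
    have h1 : IsCompact (Set.Icc (0 : ℝ) 1) := isCompact_Icc
    obtain ⟨x, -, hx⟩ := h1.ultrafilter_le_nhds ((hyperfilter ℕ).map (fq T f A)) (by
      rw [Ultrafilter.coe_map, le_principal_iff, mem_map]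
      exact Filter.univ_mem' fun n => ⟨fq_nonneg T f A n, fq_le_one T f A n⟩)
    exact ⟨x, hx⟩
  choose m hm using hlim
  refine ⟨m, ?_, ?_, ?_, ?_, ?_⟩
  · intro A
    exact ge_of_tendsto' (hm A) fun n => fq_nonneg T f A n
  · refine tendsto_nhds_unique (hm Set.univ) (tendsto_const_nhds.congr fun n => ?_)
    exact (fq_of_true T f _ n fun t => Set.mem_univ _).symm
  · refine tendsto_nhds_unique (hm {1}) (tendsto_const_nhds.congr fun n => ?_)
    exact (fq_of_false T f _ n fun t => hf1 n t).symm
  · intro A B hAB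
    refine tendsto_nhds_unique (hm (A ∪ B)) (((hm A).add (hm B)).congr fun n => ?_)
    unfold fq
    rw [← add_div]
    congr 1
    rw [← Nat.cast_add, ← Finset.card_union_of_disjoint]
    · congr 1
      congr 1
      ext t
      simp only [Finset.mem_union, Finset.mem_filter, Finset.mem_univ, true_and, Set.mem_union]
    · rw [Finset.disjoint_left]
      intro t h1 h2
      exact Set.disjoint_left.1 hAB (Finset.mem_filter.1 h1).2 (Finset.mem_filter.1 h2).2
  · intro g A
    obtain ⟨π, hπ⟩ := good_all T f S hS h g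
    have h1 : Tendsto (fun n => fq T f ((fun h => g * h * g⁻¹) '' A) n - fq T f A n)
        (hyperfilter ℕ : Filter ℕ) (𝓝 0) := by
      have h2 : Tendsto (fun n => er T f g n (π n)) (hyperfilter ℕ : Filter ℕ) (𝓝 0) :=
        hπ.mono_left Nat.hyperfilter_le_atTop
      exact squeeze_zero_norm (fun n => fq_conj T f g A n (π n)) h2
    have h2 := (hm ((fun h => g * h * g⁻¹) '' A)).sub (hm A)
    have h3 := tendsto_nhds_unique h2 h1
    exact sub_eq_zero.1 h3

end criterion

/-! ### the elements supported at one position -/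

/-- a vector at one position -/
def pl (n : ℕ) (i : ZMod (n + 1)) (h : Fin 3 → Fin (sz n) → ZMod 2) : VV :=
  Pi.single n (Pi.single (Sum.inr i) h)

theorem pl_level (n : ℕ) (i : ZMod (n + 1)) (h : Fin 3 → Fin (sz n) → ZMod 2) {m : ℕ}
    (hm : m ≠ n) (r : Pos m) : pl n i h m r = 0 := by
  unfold pl
  rw [Pi.single_eq_of_ne hm]
  rfl

theorem pl_inl (n : ℕ) (i : ZMod (n + 1)) (h : Fin 3 → Fin (sz n) → ZMod 2) (m : ℕ) (k : KK) :
    pl n i h m (Sum.inl k) = 0 := by
  by_cases hm : m = n
  · subst hm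
    unfold pl
    rw [Pi.single_eq_same, Pi.single_eq_of_ne Sum.inl_ne_inr]
  · exact pl_level n i h hm _

theorem pl_same (n : ℕ) (i : ZMod (n + 1)) (h : Fin 3 → Fin (sz n) → ZMod 2) :
    pl n i h n (Sum.inr i) = h := by
  unfold pl
  rw [Pi.single_eq_same, Pi.single_eq_same]

theorem pl_ne (n : ℕ) (i : ZMod (n + 1)) (h : Fin 3 → Fin (sz n) → ZMod 2) (j : ZMod (n + 1))
    (hj : j ≠ i) : pl n i h n (Sum.inr j) = 0 := by
  unfold pl
  rw [Pi.single_eq_same, Pi.single_eq_of_ne (fun h => hj (Sum.inr_injective h))]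

theorem permS_pl (k : KK) (j : ℤ) (n : ℕ) (i : ZMod (n + 1))
    (h : Fin 3 → Fin (sz n) → ZMod 2) : permS k j (pl n i h) = pl n (i + (j : ZMod (n + 1))) h := by
  funext m r
  rcases r with x | t
  · rw [permS_inl, pl_inl, pl_inl]
  · rw [permS_inr]
    by_cases hm : m = n
    · subst hm
      by_cases ht : t = i + (j : ZMod (m + 1))
      · subst ht
        rw [add_sub_cancel_right, pl_same, pl_same]
      · rw [pl_ne _ _ _ _ ht, pl_ne]
        intro h1
        apply ht
        rw [← h1, sub_add_cancel]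
    · rw [pl_level _ _ _ hm, pl_level _ _ _ hm]

theorem s_pl (n : ℕ) (i : ZMod (n + 1)) (h : Fin 3 → Fin (sz n) → ZMod 2) :
    genA Gen.s (pl n i h) = pl n i h := by
  funext m r
  rcases r with x | t
  · rw [genA_s_inl]
  · by_cases ht : t = 0
    · subst ht
      rw [genA_s_inr0, pl_inl, add_zero]
    · rw [genA_s_inr _ _ _ ht]

theorem t_pl (n : ℕ) (i : ZMod (n + 1)) (hi : i ≠ 0) (h : Fin 3 → Fin (sz n) → ZMod 2) :
    genA Gen.t (pl n i h) = pl n i h := by
  funext m r
  rcases r with x | t
  · by_cases hx : x = of true ^ m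
    · subst hx
      rw [genA_t_inl_pow]
      by_cases hm : m = n
      · subst hm
        rw [pl_ne _ _ _ _ (Ne.symm hi), add_zero]
      · rw [pl_level _ _ _ hm (Sum.inr 0), add_zero]
    · rw [genA_t_inl _ _ _ hx]
  · rw [genA_t_inr]

/-- the elementary operation on a vector -/
def eh {s : ℕ} (i j : Fin 3) (A : Option Bool) (h : Fin 3 → Fin s → ZMod 2) :
    Fin 3 → Fin s → ZMod 2 := fun l => h l + if l = i then rowO A (h j) else 0

theorem eh_invol {s : ℕ} (i j : Fin 3) (hij : j ≠ i) (A : Option Bool)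
    (h : Fin 3 → Fin s → ZMod 2) : eh i j A (eh i j A h) = h := by
  funext l
  show h l + (if l = i then rowO A (h j) else 0) + (if l = i then rowO A (h j +
    (if j = i then rowO A (h j) else 0)) else 0) = h l
  rw [if_neg hij, add_zero]
  funext t
  exact add_self2 _ _

theorem e_pl (i j : Fin 3) (hij : j ≠ i) (A : Option Bool) (n : ℕ) (t : ZMod (n + 1))
    (h : Fin 3 → Fin (sz n) → ZMod 2) :
    genA (Gen.e i j A) (pl n t h) = pl n t (eh i j A h) := by
  have h1 : genA (Gen.e i j A) = elA i j hij A := by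
    show (if h : j ≠ i then elA i j h A else AddEquiv.refl VV) = _
    rw [dif_pos hij]
  rw [h1]
  funext m r
  rcases r with x | u
  · rw [pl_inl]
    exact elA_zero _ _ _ _ _ _ _ (pl_inl _ _ _ _ _)
  · by_cases hm : m = n
    · subst hm
      by_cases hu : u = t
      · subst hu
        funext l
        rw [elA_apply, pl_same, pl_same]
        rfl
      · rw [pl_ne _ _ _ _ hu]
        exact elA_zero _ _ _ _ _ _ _ (pl_ne _ _ _ _ hu)
    · rw [pl_level _ _ _ hm]
      exact elA_zero _ _ _ _ _ _ _ (pl_level _ _ _ hm _)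

theorem pl_zero (n : ℕ) (i : ZMod (n + 1)) : pl n i 0 = 0 := by
  unfold pl
  rw [Pi.single_zero, Pi.single_zero]

theorem pl_mem_iff (n : ℕ) (i : ZMod (n + 1)) (h : Fin 3 → Fin (sz n) → ZMod 2) :
    pl n i h ∈ Vs ↔ pl n 0 h ∈ Vs := by
  have h1 : act (of Gen.c ^ i.val) (pl n 0 h) = pl n i h := by
    rw [act_c_pow, permS_pl, zero_add]
    congr 1
    rw [Int.cast_natCast, ZMod.natCast_zmod_val]
  rw [← h1, act_mem_iff]

/-- the special vector -/
def e0 (s : ℕ) : Fin 3 → Fin s → ZMod 2 := fun l p => if l = 0 ∧ p.1 = 0 then 1 else 0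

theorem e0_mem (n : ℕ) : pl n 0 (e0 (sz n)) ∈ Vs := by
  set w := act (FreeGroup.map Gen.a (of true ^ n)) v0 with hw
  have hwm : w ∈ Vs := act_mem _ v0_mem
  have hw1 : w = permS (of true ^ n) 0 v0 := act_map _ _
  have h1 : pl n 0 (e0 (sz n)) = act (of Gen.s) w + w := by
    rw [act_of]
    have hv0 : ∀ m (r : Pos m), r ≠ Sum.inl 1 → v0 m r = 0 := by
      intro m r hr
      funext l p
      unfold v0
      rw [if_neg (fun h => hr h.1)]
      rfl
    have hwr : ∀ m (t : ZMod (m + 1)), w m (Sum.inr t) = 0 := by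
      intro m t
      rw [hw1, permS_inr]
      exact hv0 _ _ Sum.inr_ne_inl
    have hws : ∀ m, (m ≠ n → w m (Sum.inl (of true ^ m)) = 0) ∧
        w n (Sum.inl (of true ^ n)) = e0 (sz n) := by
      intro m
      constructor
      · intro hm
        rw [hw1, permS_inl]
        apply hv0
        intro h2
        have h3 := Sum.inl_injective h2
        rw [inv_mul_eq_one] at h3
        have h4 : Function.Injective fun n : ℕ => (of true : KK) ^ n := by
          rw [injective_pow_iff_not_isOfFinOrder]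
          exact not_isOfFinOrder_of_isMulTorsionFree (of_ne_one true)
        exact hm (h4 h3).symm
      · rw [hw1, permS_inl, inv_mul_cancel]
        funext l p
        unfold v0 e0
        by_cases hc : l = 0 ∧ p.1 = 0
        · rw [if_pos ⟨rfl, hc⟩, if_pos hc]
        · rw [if_neg (fun h => hc h.2), if_neg hc]
    funext m r
    rcases r with x | t
    · rw [pl_inl]
      show 0 = genA Gen.s w m (Sum.inl x) + w m (Sum.inl x)
      rw [genA_s_inl]
      funext l p
      exact (CharTwo.add_self_eq_zero _).symm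
    · show _ = genA Gen.s w m (Sum.inr t) + w m (Sum.inr t)
      rw [hwr, add_zero]
      by_cases ht : t = 0
      · subst ht
        rw [genA_s_inr0, hwr, zero_add]
        by_cases hm : m = n
        · subst hm
          rw [pl_same, (hws m).2]
        · rw [pl_level _ _ _ hm, (hws m).1 hm]
      · rw [genA_s_inr _ _ _ ht, hwr]
        by_cases hm : m = n
        · subst hm
          exact pl_ne _ _ _ _ ht
        · exact pl_level _ _ _ hm _
  rw [h1]
  exact Vs.add_mem (act_mem _ hwm) hwm

theorem e0_ne (n : ℕ) : e0 (sz n) ≠ 0 := by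
  intro h
  have h1 := congrFun (congrFun h 0) ⟨0, sz_pos n⟩
  unfold e0 at h1
  rw [if_pos ⟨rfl, rfl⟩] at h1
  exact one_ne_zero h1

/-- the index sets -/
abbrev TT (n : ℕ) : Type :=
  ZMod (n + 1) × {h : Fin 3 → Fin (sz n) → ZMod 2 // h ≠ 0 ∧ pl n 0 h ∈ Vs}

/-- the family -/
noncomputable def ff (n : ℕ) (t : TT n) : GG :=
  ⟨pl n t.1 t.2.1, (pl_mem_iff n t.1 t.2.1).2 t.2.2.2, 1⟩

theorem ff_ne (n : ℕ) (t : TT n) : ff n t ≠ 1 := by
  intro h
  have h1 : pl n t.1 t.2.1 = 0 := congrArg GG.v h
  have h2 := congrFun (congrFun h1 n) (Sum.inr t.1)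
  rw [pl_same] at h2
  exact t.2.2.1 h2

/-- the generators -/
def genSet : Set GG := {⟨v0, v0_mem, 1⟩} ∪ Set.range fun g : Gen => lt (of g)

theorem genSet_closure : Subgroup.closure genSet = ⊤ := by
  rw [eq_top_iff]
  have h1 : ∀ γ : FreeGroup Gen, lt γ ∈ Subgroup.closure genSet := by
    intro γ
    induction γ using FreeGroup.induction_on with
    | C1 => rw [lt_one]; exact Subgroup.one_mem _
    | of g => exact Subgroup.subset_closure (Or.inr ⟨g, rfl⟩)
    | inv_of g h => rw [← lt_inv]; exact Subgroup.inv_mem _ h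
    | mul x y hx hy => rw [lt_mul]; exact Subgroup.mul_mem _ hx hy
  have h2 : ∀ (v : VV) (hv : v ∈ Vs), (⟨v, hv, 1⟩ : GG) ∈ Subgroup.closure genSet := by
    intro v hv
    have hv' := hv
    unfold Vs at hv'
    induction hv' using AddSubgroup.closure_induction with
    | mem x hx =>
      obtain ⟨δ, rfl⟩ := hx
      have h3 : (⟨act δ v0, hv, 1⟩ : GG) = lt δ * ⟨v0, v0_mem, 1⟩ * (lt δ)⁻¹ := by
        have h4 := cj_v δ ⟨v0, v0_mem, 1⟩
        have h5 := cj_g δ ⟨v0, v0_mem, 1⟩
        rw [cj_apply] at h4 h5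
        apply GG.ext'
        · exact h4.symm
        · rw [h5]
          show (1 : FreeGroup Gen) = δ * 1 * δ⁻¹
          group
      rw [h3]
      exact Subgroup.mul_mem _ (Subgroup.mul_mem _ (h1 δ) (Subgroup.subset_closure (Or.inl rfl)))
        (Subgroup.inv_mem _ (h1 δ))
    | zero => exact Subgroup.one_mem _
    | add x y hx hy h3 h4 =>
      have h5 : (⟨x + y, hv, 1⟩ : GG) = ⟨x, hx, 1⟩ * ⟨y, hy, 1⟩ := by
        apply GG.ext'
        · rw [mul_v, act_one]
        · rw [mul_g, mul_one]
      rw [h5]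
      exact Subgroup.mul_mem _ (h3 hx) (h4 hy)
    | neg x hx h3 =>
      have h5 : (⟨-x, hv, 1⟩ : GG) = ⟨x, hx, 1⟩ := by
        apply GG.ext'
        · exact vv_neg x
        · rfl
      rw [h5]
      exact h3 hx
  intro g _
  have h3 : g = ⟨g.v, g.hv, 1⟩ * lt g.g := by
    apply GG.ext'
    · rw [mul_v, act_one]
      show g.v = g.v + 0
      rw [add_zero]
    · rw [mul_g]
      show g.g = 1 * g.g
      rw [one_mul]
  rw [h3]
  exact Subgroup.mul_mem _ (h2 _ _) (h1 _)

theorem fg : Group.FG GG := by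
  rw [Group.fg_iff]
  exact ⟨genSet, genSet_closure, (Set.finite_singleton _).union (Set.finite_range _)⟩

theorem conj_lt (γ : FreeGroup Gen) (n : ℕ) (t : TT n) (v : VV) (hv : v ∈ Vs)
    (h : act γ (pl n t.1 t.2.1) = v) : lt γ * ff n t * (lt γ)⁻¹ = ⟨v, hv, 1⟩ := by
  have h4 := cj_v γ (ff n t)
  have h5 := cj_g γ (ff n t)
  rw [cj_apply] at h4 h5
  apply GG.ext'
  · rw [h4]
    exact h
  · rw [h5]
    show γ * 1 * γ⁻¹ = 1
    group

theorem innerAmenable : InnerAmenable GG := by
  classical
  have hfin : ∀ n, Fintype {h : Fin 3 → Fin (sz n) → ZMod 2 // h ≠ 0 ∧ pl n 0 h ∈ Vs} :=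
    fun n => Fintype.ofFinite _
  have hne : ∀ n, Nonempty {h : Fin 3 → Fin (sz n) → ZMod 2 // h ≠ 0 ∧ pl n 0 h ∈ Vs} :=
    fun n => ⟨⟨e0 (sz n), e0_ne n, e0_mem n⟩⟩
  refine innerAmenable_of TT ff ff_ne genSet genSet_closure ?_
  have hzero : ∀ (g : GG) (π : ∀ n, Equiv.Perm (TT n)),
      (∀ n t, g * ff n t * g⁻¹ = ff n (π n t)) → Good TT ff g := by
    intro g π h
    refine ⟨π, ?_⟩
    have h1 : ∀ n, er TT ff g n (π n) = 0 := by
      intro n
      unfold er
      rw [Finset.filter_false_of_mem]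
      · simp
      · intro t _ h2
        exact h2 (h n t)
    simp only [h1]
    exact tendsto_const_nhds
  rintro g (hg | ⟨γ, rfl⟩)
  · refine hzero g (fun n => 1) fun n t => ?_
    rw [hg]
    apply GG.ext'
    · show v0 + act 1 (pl n t.1 t.2.1) + act (1 * 1) (act 1⁻¹ v0) = pl n t.1 t.2.1
      rw [act_one, one_mul, act_one, inv_one, act_one, add_comm v0, vv_add_self]
    · show (1 : FreeGroup Gen) * 1 * 1⁻¹ = 1
      group
  · show Good TT ff (lt (of γ))
    cases γ with
    | a b =>
      refine hzero _ (fun n => 1) fun n t => ?_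
      refine conj_lt _ n t _ _ ?_
      rw [act_of]
      show permS (of b) 0 (pl n t.1 t.2.1) = pl n t.1 t.2.1
      rw [permS_pl, Int.cast_zero, add_zero]
    | c =>
      refine hzero _ (fun n => Equiv.prodCongr (Equiv.addRight 1) (Equiv.refl _)) fun n t => ?_
      refine conj_lt _ n t _ _ ?_
      rw [act_of]
      show permS 1 1 (pl n t.1 t.2.1) = pl n (t.1 + 1) t.2.1
      rw [permS_pl, Int.cast_one]
    | s =>
      refine hzero _ (fun n => 1) fun n t => ?_
      refine conj_lt _ n t _ _ ?_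
      rw [act_of]
      exact s_pl _ _ _
    | t =>
      refine ⟨fun n => 1, ?_⟩
      have h1 : ∀ n : ℕ, er TT ff (lt (of Gen.t)) n 1 ≤ 1 / ((n : ℝ) + 1) := by
        intro n
        unfold er
        have h2 : (Finset.univ.filter fun t : TT n => lt (of Gen.t) * ff n t * (lt (of Gen.t))⁻¹ ≠
            ff n ((1 : Equiv.Perm (TT n)) t)) ⊆ ({0} : Finset (ZMod (n + 1))) ×ˢ
              (Finset.univ : Finset {h : Fin 3 → Fin (sz n) → ZMod 2 //
                h ≠ 0 ∧ pl n 0 h ∈ Vs}) := by
          intro t ht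
          rw [Finset.mem_filter] at ht
          rw [Finset.mem_product]
          refine ⟨?_, Finset.mem_univ _⟩
          rw [Finset.mem_singleton]
          by_contra h3
          refine ht.2 (conj_lt _ n t _ _ ?_)
          rw [act_of]
          exact t_pl _ _ h3 _
        have h3 := Finset.card_le_card h2
        rw [Finset.card_product, Finset.card_singleton, one_mul, Finset.card_univ] at h3
        have h4 : Fintype.card (TT n) = (n + 1) * Fintype.card {h : Fin 3 → Fin (sz n) → ZMod 2 //
            h ≠ 0 ∧ pl n 0 h ∈ Vs} := by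
          rw [Fintype.card_prod, ZMod.card]
        have h5 : (0 : ℝ) < Fintype.card {h : Fin 3 → Fin (sz n) → ZMod 2 //
            h ≠ 0 ∧ pl n 0 h ∈ Vs} := by
          have h6 : 0 < Fintype.card {h : Fin 3 → Fin (sz n) → ZMod 2 //
            h ≠ 0 ∧ pl n 0 h ∈ Vs} := Fintype.card_pos
          exact_mod_cast h6
        rw [h4, Nat.cast_mul, Nat.cast_add, Nat.cast_one,
          div_le_div_iff₀ (by positivity) (by positivity)]
        have h7 : ((Finset.univ.filter fun t : TT n => lt (of Gen.t) * ff n t *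
          (lt (of Gen.t))⁻¹ ≠ ff n ((1 : Equiv.Perm (TT n)) t)).card : ℝ) ≤
            Fintype.card {h : Fin 3 → Fin (sz n) → ZMod 2 // h ≠ 0 ∧ pl n 0 h ∈ Vs} := by
          exact_mod_cast h3
        have h8 : (0 : ℝ) ≤ (n : ℝ) + 1 := by positivity
        nlinarith
      exact squeeze_zero (fun n => er_nonneg _ _ _ _ _) h1
        tendsto_one_div_add_atTop_nhds_zero_nat
    | e i j A =>
      by_cases hij : j ≠ i
      · have hmem : ∀ (n : ℕ) (h : Fin 3 → Fin (sz n) → ZMod 2),
            (h ≠ 0 ∧ pl n 0 h ∈ Vs) → (eh i j A h ≠ 0 ∧ pl n 0 (eh i j A h) ∈ Vs) := by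
          rintro n h ⟨h1, h2⟩
          constructor
          · intro h3
            apply h1
            rw [← eh_invol i j hij A h, h3]
            have h4 := e_pl i j hij A n 0 0
            rw [pl_zero] at h4
            have h5 : genA (Gen.e i j A) (0 : VV) = 0 := by
              rw [← act_of, act_zero]
            rw [h5] at h4
            have h6 := congrFun (congrFun h4 n) (Sum.inr 0)
            rw [pl_same] at h6
            exact h6.symm
          · rw [← e_pl i j hij A, ← act_of]
            exact act_mem _ h2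
        have hinv : ∀ n : ℕ, Function.Involutive (fun h : {h : Fin 3 → Fin (sz n) → ZMod 2 //
            h ≠ 0 ∧ pl n 0 h ∈ Vs} => (⟨eh i j A h.1, hmem n h.1 h.2⟩ :
              {h : Fin 3 → Fin (sz n) → ZMod 2 // h ≠ 0 ∧ pl n 0 h ∈ Vs})) := by
          intro n h
          apply Subtype.ext
          exact eh_invol i j hij A h.1
        refine hzero _ (fun n => Equiv.prodCongr (Equiv.refl _) (hinv n).toPerm) fun n t => ?_
        refine conj_lt _ n t _ _ ?_
        rw [act_of]
        exact e_pl i j hij A n t.1 t.2.1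
      · refine hzero _ (fun n => 1) fun n t => ?_
        refine conj_lt _ n t _ _ ?_
        rw [act_of]
        show (if h : j ≠ i then elA i j h A else AddEquiv.refl VV) (pl n t.1 t.2.1) = _
        rw [dif_neg hij]
        rfl

end Pool.Agent.W663.IA
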