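import Mathlib

set_option autoImplicit false
set_option linter.unusedSectionVars false

namespace Pool.Agent.W663.IA

/-! ### valuations of functions on words -/

/-- the least length of a word on which the function does not vanish -/
noncomputable def vl (φ : List Bool → ZMod 2) : ℕ∞ := ⨅ (w : List Bool) (_ : φ w ≠ 0), (w.length : ℕ∞)

theorem le_vl {φ : List Bool → ZMod 2} {k : ℕ∞} : k ≤ vl φ ↔ ∀ w, φ w ≠ 0 → k ≤ (w.length : ℕ∞) := by
  unfold vl
  simp only [le_iInf_iff]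

theorem vl_le {φ : List Bool → ZMod 2} {w : List Bool} (h : φ w ≠ 0) : vl φ ≤ (w.length : ℕ∞) :=
  le_vl.1 le_rfl w h

theorem eq_zero_of_lt {φ : List Bool → ZMod 2} {w : List Bool} (h : (w.length : ℕ∞) < vl φ) :
    φ w = 0 := by
  by_contra hc
  exact absurd (vl_le hc) (not_le.2 h)

theorem vl_top {φ : List Bool → ZMod 2} : vl φ = ⊤ ↔ ∀ w, φ w = 0 := by
  constructor
  · intro h w
    by_contra hc
    have := vl_le hc
    rw [h, top_le_iff] at this
    exact absurd this (ENat.coe_ne_top _)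
  · intro h
    rw [eq_top_iff, le_vl]
    intro w hw
    exact absurd (h w) hw

theorem exists_vl {φ : List Bool → ZMod 2} (h : vl φ ≠ ⊤) :
    ∃ w, φ w ≠ 0 ∧ vl φ = (w.length : ℕ∞) := by
  by_contra hcon
  push Not at hcon
  obtain ⟨k, hk⟩ := ENat.ne_top_iff_exists.1 h
  have h1 : ((k + 1 : ℕ) : ℕ∞) ≤ vl φ := by
    rw [le_vl]
    intro w hw
    have h2 := vl_le hw
    have h3 := hcon w hw
    have h4 : vl φ < (w.length : ℕ∞) := lt_of_le_of_ne h2 h3
    rw [← hk] at h4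
    have h5 : k < w.length := by exact_mod_cast h4
    exact_mod_cast h5
  rw [← hk] at h1
  have : k + 1 ≤ k := by exact_mod_cast h1
  omega

theorem vl_congr {φ ψ : List Bool → ZMod 2} (h : ∀ w, φ w = ψ w) : vl φ = vl ψ := by
  rw [funext h]

theorem min_le_vl_add (φ ψ : List Bool → ZMod 2) : min (vl φ) (vl ψ) ≤ vl (fun w => ψ w + φ w) := by
  rw [le_vl]
  intro w hw
  by_cases h1 : φ w = 0
  · have h2 : ψ w ≠ 0 := by
      intro h2
      exact hw (by rw [h1, h2, add_zero])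
    exact (min_le_right _ _).trans (vl_le h2)
  · exact (min_le_left _ _).trans (vl_le h1)

theorem vl_add_of_lt {φ ψ : List Bool → ZMod 2} (h : vl φ < vl ψ) :
    vl (fun w => ψ w + φ w) = vl φ := by
  apply le_antisymm
  · obtain ⟨w, hw, hwl⟩ := exists_vl (φ := φ) (ne_top_of_lt h)
    rw [hwl]
    apply vl_le
    have h2 : ψ w = 0 := eq_zero_of_lt (by rw [← hwl]; exact h)
    show ψ w + φ w ≠ 0
    rw [h2, zero_add]
    exact hw
  · have := min_le_vl_add φ ψ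
    rwa [min_eq_left h.le] at this

theorem add_self2 (a b : ZMod 2) : a + b + b = a := by
  have : b + b = 0 := CharTwo.add_self_eq_zero b
  rw [add_assoc, this, add_zero]

/-- right derivative -/
def dr (φ : List Bool → ZMod 2) (b : Bool) : List Bool → ZMod 2 := fun w => φ (w ++ [b])

theorem vl_dr_ge (φ : List Bool → ZMod 2) (b : Bool) : vl φ ≤ vl (dr φ b) + 1 := by
  rcases eq_or_ne (vl (dr φ b)) ⊤ with h | h
  · rw [h]; exact le_top
  · obtain ⟨w, hw, hwl⟩ := exists_vl h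
    rw [hwl]
    have h1 := vl_le (φ := φ) (w := w ++ [b]) hw
    rw [List.length_append] at h1
    push_cast at h1
    simpa using h1

theorem exists_dr {φ : List Bool → ZMod 2} (h : vl φ ≠ ⊤) (h0 : φ [] = 0) :
    ∃ b, vl (dr φ b) + 1 = vl φ := by
  obtain ⟨w, hw, hwl⟩ := exists_vl h
  rcases List.eq_nil_or_concat w with rfl | ⟨w', b, rfl⟩
  · exact absurd h0 hw
  · refine ⟨b, le_antisymm ?_ (vl_dr_ge φ b)⟩
    rw [hwl, List.concat_eq_append, List.length_append]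
    push_cast
    refine add_le_add (vl_le ?_) (by simp)
    show φ (w' ++ [b]) ≠ 0
    rw [List.concat_eq_append] at hw
    exact hw

/-! ### the measure inequality -/

variable {Z : Type} [Fintype Z]

open Classical in
/-- the mass of a set -/
noncomputable def ms (m : Z → ℝ) (B : Set Z) : ℝ := ∑ z, if z ∈ B then m z else 0

theorem ms_mono {m : Z → ℝ} (hm : ∀ z, 0 ≤ m z) {B C : Set Z} (h : B ⊆ C) : ms m B ≤ ms m C := by
  unfold ms
  refine Finset.sum_le_sum fun z _ => ?_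
  by_cases h1 : z ∈ B
  · rw [if_pos h1, if_pos (h h1)]
  · rw [if_neg h1]
    split_ifs
    · exact hm z
    · exact le_rfl

theorem ms_nonneg {m : Z → ℝ} (hm : ∀ z, 0 ≤ m z) (B : Set Z) : 0 ≤ ms m B := by
  unfold ms
  refine Finset.sum_nonneg fun z _ => ?_
  split_ifs
  · exact hm z
  · exact le_rfl

theorem ms_union {m : Z → ℝ} {B C : Set Z} (h : Disjoint B C) :
    ms m (B ∪ C) = ms m B + ms m C := by
  unfold ms
  rw [← Finset.sum_add_distrib]
  refine Finset.sum_congr rfl fun z _ => ?_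
  by_cases h1 : z ∈ B
  · have h2 : z ∉ C := Set.disjoint_left.1 h h1
    rw [if_pos (show z ∈ B ∪ C from Or.inl h1), if_pos h1, if_neg h2, add_zero]
  · by_cases h2 : z ∈ C
    · rw [if_pos (show z ∈ B ∪ C from Or.inr h2), if_neg h1, if_pos h2, zero_add]
    · rw [if_neg (show ¬ z ∈ B ∪ C by rintro (h | h) <;> contradiction), if_neg h1, if_neg h2, add_zero]

theorem ms_union_le {m : Z → ℝ} (hm : ∀ z, 0 ≤ m z) (B C : Set Z) :
    ms m (B ∪ C) ≤ ms m B + ms m C := by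
  unfold ms
  rw [← Finset.sum_add_distrib]
  refine Finset.sum_le_sum fun z _ => ?_
  by_cases h1 : z ∈ B
  · rw [if_pos (show z ∈ B ∪ C from Or.inl h1), if_pos h1]
    split_ifs
    · linarith [hm z]
    · linarith
  · by_cases h2 : z ∈ C
    · rw [if_pos (show z ∈ B ∪ C from Or.inr h2), if_neg h1, if_pos h2, zero_add]
    · rw [if_neg (show ¬ z ∈ B ∪ C by rintro (h | h) <;> contradiction), if_neg h1, if_neg h2, add_zero]

/-- **The relative property (T) estimate.** -/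
theorem rt (m : Z → ℝ) (hm : ∀ z, 0 ≤ m z) (φ ψ : Z → List Bool → ZMod 2)
    (e₁ e₂ : Equiv.Perm Z) (g : Bool → Equiv.Perm Z)
    (h1φ : ∀ z w, φ (e₁ z) w = φ z w) (h1ψ : ∀ z w, ψ (e₁ z) w = ψ z w + φ z w)
    (h2φ : ∀ z w, φ (e₂ z) w = φ z w + ψ z w) (h2ψ : ∀ z w, ψ (e₂ z) w = ψ z w)
    (hgφ : ∀ b z w, φ (g b z) w = φ z w) (hgψ : ∀ b z w, ψ (g b z) w = ψ z w + φ z (w ++ [b]))
    {ε : ℝ}
    (hi₁ : ∀ B, |ms m (e₁ '' B) - ms m B| ≤ 2 * ε) (hi₂ : ∀ B, |ms m (e₂ '' B) - ms m B| ≤ 2 * ε)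
    (hig : ∀ b B, |ms m (g b '' B) - ms m B| ≤ 2 * ε)
    (h0 : ms m {z | φ z [] ≠ 0} ≤ ε) :
    ms m {z | ∃ w, φ z w ≠ 0 ∨ ψ z w ≠ 0} ≤ 27 * ε := by
  have hφ1 : ∀ z, φ (e₁ z) = φ z := fun z => funext (h1φ z)
  have hψ1 : ∀ z, ψ (e₁ z) = fun w => ψ z w + φ z w := fun z => funext (h1ψ z)
  have hφ2 : ∀ z, φ (e₂ z) = fun w => φ z w + ψ z w := fun z => funext (h2φ z)
  have hψ2 : ∀ z, ψ (e₂ z) = ψ z := fun z => funext (h2ψ z)
  have hφg : ∀ b z, φ (g b z) = φ z := fun b z => funext (hgφ b z)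
  have hψg : ∀ b z, ψ (g b z) = fun w => ψ z w + dr (φ z) b w := fun b z => funext (hgψ b z)
  let Al : Set Z := {z | vl (φ z) < vl (ψ z)}
  let Ag : Set Z := {z | vl (ψ z) < vl (φ z)}
  let As : Set Z := {z | vl (φ z) = vl (ψ z) ∧ vl (φ z) < vl (fun w => ψ z w + φ z w)}
  let Ad : Set Z := {z | vl (φ z) = vl (ψ z) ∧ vl (φ z) ≠ ⊤ ∧
    ¬ vl (φ z) < vl (fun w => ψ z w + φ z w)}
  -- `e₁` exchanges `Al` and `As`
  have s1 : e₁ '' Al ⊆ As := by
    rintro _ ⟨z, hz, rfl⟩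
    have hz' : vl (φ z) < vl (ψ z) := hz
    show vl (φ (e₁ z)) = vl (ψ (e₁ z)) ∧ vl (φ (e₁ z)) < vl (fun w => ψ (e₁ z) w + φ (e₁ z) w)
    rw [hφ1, hψ1]
    refine ⟨(vl_add_of_lt hz').symm, ?_⟩
    have : (fun w => (fun w => ψ z w + φ z w) w + φ z w) = ψ z := by
      funext w
      exact add_self2 _ _
    rw [this]
    exact hz'
  have s1' : e₁ '' As ⊆ Al := by
    rintro _ ⟨z, hz, rfl⟩
    obtain ⟨hz1, hz2⟩ := hz
    show vl (φ (e₁ z)) < vl (ψ (e₁ z))
    rw [hφ1, hψ1]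
    exact hz2
  have s2 : e₂ '' Ag ⊆ As := by
    rintro _ ⟨z, hz, rfl⟩
    have hz' : vl (ψ z) < vl (φ z) := hz
    show vl (φ (e₂ z)) = vl (ψ (e₂ z)) ∧ vl (φ (e₂ z)) < vl (fun w => ψ (e₂ z) w + φ (e₂ z) w)
    rw [hφ2, hψ2]
    have h3 := vl_add_of_lt hz'
    refine ⟨h3, ?_⟩
    have : (fun w => ψ z w + (fun w => φ z w + ψ z w) w) = φ z := by
      funext w
      show ψ z w + (φ z w + ψ z w) = φ z w
      rw [add_comm, add_self2]
    rw [this, h3]
    exact hz'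
  have m1 : ms m As ≤ ms m Al + 2 * ε := by
    have h3 := ms_mono hm s1'
    have h4 := abs_le.1 (hi₁ As)
    linarith [h4.1]
  have m2 : ms m Ag ≤ ms m As + 2 * ε := by
    have h3 := ms_mono hm s2
    have h4 := abs_le.1 (hi₂ Ag)
    linarith [h4.1]
  -- the set where `vl φ ≤ vl ψ`
  let Ale : Set Z := {z | vl (φ z) ≤ vl (ψ z) ∧ vl (φ z) ≠ ⊤}
  let B0 : Set Z := {z | z ∈ Ale ∧ φ z [] = 0 ∧ vl (dr (φ z) false) + 1 = vl (φ z)}
  let B1 : Set Z := {z | z ∈ Ale ∧ φ z [] = 0 ∧ vl (dr (φ z) false) + 1 ≠ vl (φ z)}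
  let C0 : Set Z := {z | z ∈ Ag ∧ vl (dr (φ z) false) + 1 = vl (φ z)}
  let C1 : Set Z := {z | z ∈ Ag ∧ vl (dr (φ z) false) + 1 ≠ vl (φ z)}
  have hstep : ∀ b z, z ∈ Ale → vl (dr (φ z) b) + 1 = vl (φ z) → g b z ∈ Ag := by
    intro b z hz hb
    show vl (ψ (g b z)) < vl (φ (g b z))
    rw [hφg, hψg]
    have hne : vl (dr (φ z) b) ≠ ⊤ := by
      intro h
      rw [h, top_add] at hb
      exact hz.2 hb.symm
    have hlt : vl (dr (φ z) b) < vl (φ z) := by
      rw [← hb]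
      exact ENat.lt_add_one_iff hne |>.2 le_rfl
    have h3 : vl (dr (φ z) b) < vl (ψ z) := lt_of_lt_of_le hlt hz.1
    rw [vl_add_of_lt h3]
    exact hlt
  have t0 : g false '' B0 ⊆ C0 := by
    rintro _ ⟨z, hz, rfl⟩
    refine ⟨hstep false z hz.1 hz.2.2, ?_⟩
    rw [hφg]
    exact hz.2.2
  have t1 : g true '' B1 ⊆ C1 := by
    rintro _ ⟨z, hz, rfl⟩
    obtain ⟨b, hb⟩ := exists_dr hz.1.2 hz.2.1
    have hb' : b = true := by
      rcases b with _ | _
      · exact absurd hb hz.2.2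
      · rfl
    subst hb'
    refine ⟨hstep true z hz.1 hb, ?_⟩
    rw [hφg]
    exact hz.2.2
  have hC : Disjoint C0 C1 := by
    rw [Set.disjoint_left]
    rintro z h3 h4
    exact h4.2 h3.2
  have hCA : C0 ∪ C1 ⊆ Ag := by
    rintro z (h3 | h3)
    · exact h3.1
    · exact h3.1
  have m3 : ms m Ale ≤ ms m Ag + 5 * ε := by
    have h3 : Ale ⊆ {z | φ z [] ≠ 0} ∪ (B0 ∪ B1) := by
      intro z hz
      by_cases h4 : φ z [] = 0
      · right
        by_cases h5 : vl (dr (φ z) false) + 1 = vl (φ z)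
        · left; exact ⟨hz, h4, h5⟩
        · right; exact ⟨hz, h4, h5⟩
      · left; exact h4
    have h4 := ms_mono hm h3
    have h5 := ms_union_le hm {z | φ z [] ≠ 0} (B0 ∪ B1)
    have h6 := ms_union_le hm B0 B1
    have h7 := abs_le.1 (hig false B0)
    have h8 := abs_le.1 (hig true B1)
    have h9 := ms_mono hm t0
    have h10 := ms_mono hm t1
    have h11 := ms_mono hm hCA
    rw [ms_union hC] at h11
    linarith [h7.1, h8.1]
  -- `Ale` is the union of `Al`, `As`, `Ad`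
  have hAle : Al ∪ As ⊆ Ale := by
    rintro z (hz | hz)
    · exact ⟨le_of_lt hz, ne_top_of_lt hz⟩
    · exact ⟨le_of_eq hz.1, ne_top_of_lt hz.2⟩
  have hdis : Disjoint Al As := by
    rw [Set.disjoint_left]
    intro z h3 h4
    have h5 : vl (φ z) < vl (ψ z) := h3
    rw [h4.1] at h5
    exact lt_irrefl _ h5
  have m4 : ms m Al + ms m As ≤ ms m Ale := by
    rw [← ms_union hdis]
    exact ms_mono hm hAle
  -- conclusion
  have hΩ : {z | ∃ w, φ z w ≠ 0 ∨ ψ z w ≠ 0} ⊆ Ale ∪ Ag := by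
    rintro z ⟨w, hw⟩
    by_cases h3 : vl (ψ z) < vl (φ z)
    · right; exact h3
    · left
      refine ⟨not_lt.1 h3, ?_⟩
      intro h4
      have h5 : vl (ψ z) = ⊤ := by
        have := not_lt.1 h3
        rw [h4, top_le_iff] at this
        exact this
      rcases hw with hw | hw
      · exact hw (vl_top.1 h4 w)
      · exact hw (vl_top.1 h5 w)
  have h12 := (ms_mono hm hΩ).trans (ms_union_le hm Ale Ag)
  linarith

end Pool.Agent.W663.IA
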