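import Mathlib

set_option autoImplicit false
set_option linter.unusedSectionVars false

namespace Pool.Agent.W663.IA

open FreeGroup

section words

variable {α : Type} [DecidableEq α]

/-- the elements of the free group whose reduced word starts with `a` or `a⁻¹` -/
def St (a : α) : Set (FreeGroup α) := {g | ∃ ε, g ∈ startsWith (a, ε)}

theorem sw_not_St {a b : α} (hab : a ≠ b) {ε : Bool} {g : FreeGroup α}
    (hg : g ∈ startsWith (b, ε)) : g ∉ St a := by
  rintro ⟨δ, hδ⟩
  have h1 : (toWord g)[0]? = some (b, ε) := hg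
  have h2 : (toWord g)[0]? = some (a, δ) := hδ
  rw [h1] at h2
  have h3 := Option.some.inj h2
  exact hab (congrArg Prod.fst h3).symm

theorem toWord_mk_mul (w : α × Bool) (g : FreeGroup α) (h : g ∉ startsWith (w.1, !w.2)) :
    (mk [w] * g).toWord = w :: g.toWord := by
  have h1 : mk [w] * g = mk (w :: g.toWord) := by
    conv_lhs => rw [← mk_toWord (x := g)]
    rfl
  rw [h1, toWord_mk]
  apply IsReduced.reduce_eq
  have h2 : IsReduced g.toWord := isReduced_toWord
  have h3 : (toWord g)[0]? ≠ some (w.1, !w.2) := h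
  cases hL : g.toWord with
  | nil => exact IsReduced.singleton
  | cons y L =>
    rw [hL] at h2 h3
    rw [isReduced_cons_cons]
    refine ⟨fun h4 => ?_, h2⟩
    by_contra h5
    apply h3
    show some y = _
    congr 1
    apply Prod.ext
    · exact h4.symm
    · show y.2 = !w.2
      cases hw : w.2 <;> cases hy : y.2 <;> simp_all

theorem sw_mul_right (w : α × Bool) (g : FreeGroup α) (l : α × Bool)
    (hg : g ∈ startsWith w) (h2 : 2 ≤ g.toWord.length) : g * mk [l] ∈ startsWith w := by
  have hg' : (toWord g)[0]? = some w := hg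
  have hred : IsReduced g.toWord := isReduced_toWord
  obtain ⟨L, x, hL⟩ : ∃ L x, g.toWord = L ++ [x] := by
    rcases List.eq_nil_or_concat g.toWord with h | ⟨L, x, h⟩
    · rw [h] at h2
      simp at h2
    · exact ⟨L, x, by rw [h, List.concat_eq_append]⟩
  have hgm : g * mk [l] = mk (L ++ [x] ++ [l]) := by
    conv_lhs => rw [← mk_toWord (x := g), hL]
    rfl
  rw [hL] at hg' hred h2
  have hLl : 1 ≤ L.length := by
    rw [List.length_append] at h2
    simpa using h2
  have hL0 : L[0]? = some w := by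
    rw [List.getElem?_append_left (by omega)] at hg'
    exact hg'
  by_cases hx : x = (l.1, !l.2)
  · have h3 : (mk (L ++ [x] ++ [l]) : FreeGroup α) = mk L := by
      have h4 : Red.Step (L ++ (l.1, !l.2) :: (l.1, !(!l.2)) :: []) (L ++ []) := Red.Step.not
      have h5 : L ++ [x] ++ [l] = L ++ (l.1, !l.2) :: (l.1, !(!l.2)) :: [] := by
        rw [hx, Bool.not_not, List.append_assoc]
        rfl
      rw [h5]
      rw [List.append_nil] at h4
      exact Quot.sound h4
    rw [hgm, h3]
    show (mk L).toWord[0]? = some w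
    rw [toWord_mk, IsReduced.reduce_eq (List.isChain_append.1 hred).1]
    exact hL0
  · rw [hgm]
    show (mk (L ++ [x] ++ [l])).toWord[0]? = some w
    rw [toWord_mk, IsReduced.reduce_eq]
    · rw [List.append_assoc, List.getElem?_append_left (by omega)]
      exact hL0
    · refine IsReduced.append_overlap hred ?_ (by simp)
      show IsReduced [x, l]
      rw [isReduced_cons_cons]
      refine ⟨fun h4 => ?_, IsReduced.singleton⟩
      by_contra h5
      apply hx
      apply Prod.ext
      · exact h4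
      · show x.2 = !l.2
        cases hw : l.2 <;> cases hy : x.2 <;> simp_all

theorem toWord_len_pos {g : FreeGroup α} (hg : g ≠ 1) : 1 ≤ g.toWord.length := by
  by_contra h
  apply hg
  rw [← toWord_eq_nil_iff]
  apply List.eq_nil_of_length_eq_zero
  omega

theorem inv_of_eq (a : α) : (of a)⁻¹ = mk [(a, false)] := rfl
theorem of_eq_mk (a : α) : of a = mk [(a, true)] := rfl

theorem St_mul_self {a : α} {g : FreeGroup α} (hg : g ∉ St a) : of a * g ∈ St a :=
  ⟨true, startsWith_mk_mul g fun h => hg ⟨_, h⟩⟩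

theorem St_ne_one {a : α} {g : FreeGroup α} (hg : g ∈ St a) : g ≠ 1 := by
  obtain ⟨ε, h⟩ := hg
  exact startsWith.ne_one g h

theorem not_sw_of_St {a b : α} (hab : a ≠ b) {g : FreeGroup α} (hg : g ∈ St a) (ε : Bool) :
    g ∉ startsWith (b, ε) := fun h => sw_not_St hab h hg

theorem St_mul_other {a b : α} (hab : a ≠ b) {g : FreeGroup α} (hg : g ∈ St a) :
    of b * g ∈ startsWith (b, true) :=
  startsWith_mk_mul g (not_sw_of_St hab hg _)

theorem St_mul_other' {a b : α} (hab : a ≠ b) {g : FreeGroup α} (hg : g ∈ St a) :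
    (of b)⁻¹ * g ∈ startsWith (b, false) :=
  startsWith_mk_mul (w := (b, false)) g (not_sw_of_St hab hg _)

theorem St_conj_self {a : α} {g : FreeGroup α} (h1 : g ≠ 1) (hg : g ∉ St a) :
    of a * g * (of a)⁻¹ ∈ St a := by
  have h2 : g ∉ startsWith (a, !true) := fun h => hg ⟨_, h⟩
  refine ⟨true, ?_⟩
  rw [inv_of_eq]
  refine sw_mul_right _ _ _ (startsWith_mk_mul g h2) ?_
  have h3 := toWord_mk_mul (a, true) g h2
  rw [of_eq_mk, h3, List.length_cons]
  have := toWord_len_pos h1
  omega

theorem St_conj_other {a b : α} (hab : a ≠ b) {g : FreeGroup α} (hg : g ∈ St a) :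
    of b * g * (of b)⁻¹ ∈ startsWith (b, true) := by
  have h2 : g ∉ startsWith (b, !true) := not_sw_of_St hab hg _
  rw [inv_of_eq]
  refine sw_mul_right _ _ _ (startsWith_mk_mul g h2) ?_
  have h3 := toWord_mk_mul (b, true) g h2
  rw [of_eq_mk, h3, List.length_cons]
  have := toWord_len_pos (St_ne_one hg)
  omega

theorem St_conj_other' {a b : α} (hab : a ≠ b) {g : FreeGroup α} (hg : g ∈ St a) :
    (of b)⁻¹ * g * of b ∈ startsWith (b, false) := by
  have h2 : g ∉ startsWith (b, !false) := not_sw_of_St hab hg _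
  rw [inv_of_eq, of_eq_mk]
  refine sw_mul_right _ _ _ (startsWith_mk_mul (w := (b, false)) g h2) ?_
  have h3 := toWord_mk_mul (b, false) g h2
  rw [h3, List.length_cons]
  have := toWord_len_pos (St_ne_one hg)
  omega

end words

/-! ### masses -/

section mass

variable {X : Type}

/-- the mass of a set -/
noncomputable def mass (m : X → ℝ) (A : Set X) : ℝ := ∑' x, A.indicator m x

variable {m : X → ℝ} (hm : Summable m) (h0 : ∀ x, 0 ≤ m x)

include hm in
theorem ind_summable (A : Set X) : Summable (A.indicator m) := hm.indicator A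

include hm h0 in
theorem mass_mono {A B : Set X} (h : A ⊆ B) : mass m A ≤ mass m B := by
  refine Summable.tsum_le_tsum (fun x => ?_) (ind_summable hm A) (ind_summable hm B)
  exact Set.indicator_le_indicator_of_subset h h0 x

include h0 in
theorem mass_nonneg (A : Set X) : 0 ≤ mass m A :=
  tsum_nonneg fun x => Set.indicator_nonneg (fun x _ => h0 x) x

include hm in
theorem mass_union {A B : Set X} (h : Disjoint A B) : mass m (A ∪ B) = mass m A + mass m B := by
  unfold mass
  rw [← (ind_summable hm A).tsum_add (ind_summable hm B)]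
  congr 1
  funext x
  rw [Set.indicator_union_of_disjoint h]

include hm h0 in
theorem mass_union_le (A B : Set X) : mass m (A ∪ B) ≤ mass m A + mass m B := by
  have h1 : A ∪ B = A ∪ (B \ A) := by rw [Set.union_diff_self]
  rw [h1, mass_union hm Set.disjoint_sdiff_right]
  have := mass_mono hm h0 (Set.sdiff_subset : B \ A ⊆ B)
  linarith

include hm h0 in
theorem paradox {δ : ℝ} (p q : X ≃ X) (hp : ∀ A, |mass m (p ⁻¹' A) - mass m A| ≤ δ)
    (hq : ∀ A, |mass m (q ⁻¹' A) - mass m A| ≤ δ) (Y F : Set X)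
    (hF : F ⊆ Y) (hF1 : q ⁻¹' F ⊆ Y) (hF2 : q.symm ⁻¹' F ⊆ Y) (hcov : Y ⊆ F ∪ p ⁻¹' F)
    (d1 : Disjoint F (q ⁻¹' F)) (d2 : Disjoint F (q.symm ⁻¹' F))
    (d3 : Disjoint (q ⁻¹' F) (q.symm ⁻¹' F)) : mass m Y ≤ 7 * δ := by
  have a1 : mass m Y ≤ mass m F + mass m (p ⁻¹' F) :=
    (mass_mono hm h0 hcov).trans (mass_union_le hm h0 _ _)
  have a2 := abs_le.1 (hp F)
  have a3 := abs_le.1 (hq F)
  have a4 := abs_le.1 (hq (q.symm ⁻¹' F))
  have a5 : q ⁻¹' (q.symm ⁻¹' F) = F := by
    ext x
    simp
  rw [a5] at a4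
  have a6 : mass m F + mass m (q ⁻¹' F) + mass m (q.symm ⁻¹' F) ≤ mass m Y := by
    rw [← mass_union hm d1, ← mass_union hm (Set.disjoint_union_left.2 ⟨d2, d3⟩)]
    exact mass_mono hm h0 (Set.union_subset (Set.union_subset hF hF1) hF2)
  linarith [a2.1, a2.2, a3.1, a3.2, a4.1, a4.2]

end mass

/-! ### equivariant maps -/

theorem exists_equivariant {K X : Type} [Group K] [MulAction K X] (Y : Set X)
    (hY : ∀ (k : K) x, x ∈ Y → k • x ∈ Y) (hfree : ∀ (k : K) x, x ∈ Y → k • x = x → k = 1) :
    ∃ θ : X → K, ∀ (k : K), ∀ x ∈ Y, θ (k • x) = k * θ x := by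
  classical
  have h1 : ∀ x : X, ∃ k : K, k • (Quotient.out (Quotient.mk (MulAction.orbitRel K X) x)) = x := by
    intro x
    have h2 : (MulAction.orbitRel K X) (Quotient.out (Quotient.mk (MulAction.orbitRel K X) x)) x :=
      Quotient.mk_out (s := MulAction.orbitRel K X) x
    have h3 : x ∈ MulAction.orbit K (Quotient.out (Quotient.mk (MulAction.orbitRel K X) x)) :=
      (MulAction.orbitRel K X).symm h2
    exact h3
  choose θ hθ using h1
  refine ⟨θ, fun k x hx => ?_⟩
  have h2 : Quotient.mk (MulAction.orbitRel K X) (k • x) =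
      Quotient.mk (MulAction.orbitRel K X) x := by
    apply Quotient.sound
    show (MulAction.orbitRel K X) (k • x) x
    rw [MulAction.orbitRel_apply]
    exact MulAction.mem_orbit x k
  have h3 := hθ (k • x)
  have h4 := hθ x
  rw [h2] at h3
  set r := Quotient.out (Quotient.mk (MulAction.orbitRel K X) x) with hr
  have hrY : r ∈ Y := by
    have h5 : r = (θ x)⁻¹ • x := eq_inv_smul_iff.2 h4
    rw [h5]
    exact hY _ _ hx
  have h6 : ((k * θ x)⁻¹ * θ (k • x)) • r = r := by
    rw [mul_smul, h3, mul_inv_rev, mul_smul, inv_smul_smul]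
    exact inv_smul_eq_iff.2 h4.symm
  have h7 := hfree _ _ hrY h6
  rw [inv_mul_eq_one] at h7
  exact h7.symm

/-- a nontrivial element of a torsion free group moves every nonempty finite subset -/
theorem no_finite_invariant {K : Type} [Group K] [IsMulTorsionFree K] (S : Set K)
    (hS : S.Finite) (hne : S.Nonempty) (k : K) (hk : ∀ x, x ∈ S → k * x ∈ S) : k = 1 := by
  obtain ⟨x, hx⟩ := hne
  by_contra h1
  have h2 : ∀ n : ℕ, k ^ n * x ∈ S := by
    intro n
    induction n with
    | zero => simpa using hx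
    | succ n ih =>
      rw [pow_succ', mul_assoc]
      exact hk _ ih
  have h3 : Function.Injective fun n : ℕ => k ^ n := by
    rw [injective_pow_iff_not_isOfFinOrder]
    exact not_isOfFinOrder_of_isMulTorsionFree h1
  have h4 : Function.Injective fun n : ℕ => k ^ n * x := fun a b hab =>
    h3 (mul_right_cancel hab)
  exact Set.infinite_of_injective_forall_mem h4 h2 hS

end Pool.Agent.W663.IA
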