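import Pool.Agent.W663.IA.Fourier
import Pool.Agent.W663.IA.Words

set_option autoImplicit false
set_option linter.unusedSectionVars false

namespace Pool.Agent.W663.IA

open FreeGroup (of of_ne_one)

/-! ### row operators -/

/-- value at a natural number -/
def ev {s : ℕ} (y : Fin s → ZMod 2) (k : ℕ) : ZMod 2 := if h : k < s then y ⟨k, h⟩ else 0

theorem ev_add {s : ℕ} (y z : Fin s → ZMod 2) (k : ℕ) : ev (y + z) k = ev y k + ev z k := by
  unfold ev
  split_ifs
  · rfl
  · rw [add_zero]

theorem ev_fin {s : ℕ} (y : Fin s → ZMod 2) (p : Fin s) : ev y p.1 = y p := by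
  unfold ev
  rw [dif_pos p.2]

/-- the row operators on the dual side -/
def rowX {s : ℕ} : Bool → (Fin s → ZMod 2) → (Fin s → ZMod 2)
  | true, y => fun p => ev y (p.1 + 1)
  | false, y => fun p => if p.1 + 1 = s then ev y 0 else 0

/-- the row operators on the group side -/
def rowT {s : ℕ} : Bool → (Fin s → ZMod 2) → (Fin s → ZMod 2)
  | true, y => fun p => if p.1 = 0 then 0 else ev y (p.1 - 1)
  | false, y => fun p => if p.1 = 0 then ev y (s - 1) else 0

theorem rowX_add {s : ℕ} (b : Bool) (y z : Fin s → ZMod 2) :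
    rowX b (y + z) = rowX b y + rowX b z := by
  cases b
  · funext p
    show (if p.1 + 1 = s then ev (y + z) 0 else 0) =
      (if p.1 + 1 = s then ev y 0 else 0) + (if p.1 + 1 = s then ev z 0 else 0)
    split_ifs
    · exact ev_add _ _ _
    · rw [add_zero]
  · funext p
    exact ev_add _ _ _

theorem rowT_add {s : ℕ} (b : Bool) (y z : Fin s → ZMod 2) :
    rowT b (y + z) = rowT b y + rowT b z := by
  cases b
  · funext p
    show (if p.1 = 0 then ev (y + z) (s - 1) else 0) =
      (if p.1 = 0 then ev y (s - 1) else 0) + (if p.1 = 0 then ev z (s - 1) else 0)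
    split_ifs
    · exact ev_add _ _ _
    · rw [add_zero]
  · funext p
    show (if p.1 = 0 then 0 else ev (y + z) (p.1 - 1)) =
      (if p.1 = 0 then 0 else ev y (p.1 - 1)) + (if p.1 = 0 then 0 else ev z (p.1 - 1))
    split_ifs
    · rw [add_zero]
    · exact ev_add _ _ _

theorem sum_ev {s : ℕ} (f : ℕ → ZMod 2) :
    ∑ p : Fin s, f p.1 = ∑ k ∈ Finset.range s, f k :=
  (Finset.sum_range f).symm

theorem row_transpose {s : ℕ} (b : Bool) (x z : Fin s → ZMod 2) :
    ∑ p, rowX b x p * z p = ∑ p, x p * rowT b z p := by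
  have hx : ∀ p : Fin s, x p = ev x p.1 := fun p => (ev_fin x p).symm
  have hz : ∀ p : Fin s, z p = ev z p.1 := fun p => (ev_fin z p).symm
  cases b
  · have h1 : ∑ p : Fin s, rowX false x p * z p =
        ∑ k ∈ Finset.range s, (if k + 1 = s then ev x 0 else 0) * ev z k := by
      rw [← sum_ev]
      refine Finset.sum_congr rfl fun p _ => ?_
      rw [hz p]
      rfl
    have h2 : ∑ p : Fin s, x p * rowT false z p =
        ∑ k ∈ Finset.range s, ev x k * (if k = 0 then ev z (s - 1) else 0) := by
      rw [← sum_ev]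
      refine Finset.sum_congr rfl fun p _ => ?_
      rw [hx p]
      rfl
    rw [h1, h2]
    rcases Nat.eq_zero_or_pos s with h | h
    · subst h
      rfl
    · rw [Finset.sum_eq_single (s - 1), Finset.sum_eq_single 0]
      · rw [if_pos (by omega), if_pos rfl]
      · intro k _ hk
        rw [if_neg hk, mul_zero]
      · intro h3
        exact absurd (Finset.mem_range.2 h) h3
      · intro k _ hk
        rw [if_neg (by omega), zero_mul]
      · intro h3
        exact absurd (Finset.mem_range.2 (by omega)) h3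
  · have h1 : ∑ p : Fin s, rowX true x p * z p =
        ∑ k ∈ Finset.range s, ev x (k + 1) * ev z k := by
      rw [← sum_ev]
      refine Finset.sum_congr rfl fun p _ => ?_
      rw [hz p]
      rfl
    have h2 : ∑ p : Fin s, x p * rowT true z p =
        ∑ k ∈ Finset.range s, ev x k * (if k = 0 then 0 else ev z (k - 1)) := by
      rw [← sum_ev]
      refine Finset.sum_congr rfl fun p _ => ?_
      rw [hx p]
      rfl
    rw [h1, h2]
    rcases s with _ | s
    · rfl
    · rw [Finset.sum_range_succ, Finset.sum_range_succ' (fun k => ev x k *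
        (if k = 0 then 0 else ev z (k - 1)))]
      have h3 : ev x (s + 1) = 0 := by
        unfold ev
        rw [dif_neg (by omega)]
      rw [h3, zero_mul, if_pos rfl, mul_zero]
      rfl

/-- the three operators used on the group side -/
def rowO {s : ℕ} : Option Bool → (Fin s → ZMod 2) → (Fin s → ZMod 2)
  | none, y => y
  | some b, y => rowT b y

theorem rowO_add {s : ℕ} (b : Option Bool) (y z : Fin s → ZMod 2) :
    rowO b (y + z) = rowO b y + rowO b z := by
  cases b
  · rfl
  · exact rowT_add _ _ _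

theorem rowO_zero {s : ℕ} (b : Option Bool) : rowO b (0 : Fin s → ZMod 2) = 0 := by
  have h := rowO_add b (0 : Fin s → ZMod 2) 0
  rw [add_zero] at h
  exact left_eq_add.1 h

/-! ### the space -/

/-- the acting free group on the positions -/
abbrev KK : Type := FreeGroup Bool

/-- the size of the rows at level `n` -/
def sz (n : ℕ) : ℕ := 2 * n + 10

theorem sz_pos (n : ℕ) : 0 < sz n := by unfold sz; omega

/-- positions at level `n` -/
abbrev Pos (n : ℕ) : Type := KK ⊕ ZMod (n + 1)

/-- the ambient space -/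
abbrev VV : Type := (n : ℕ) → Pos n → Fin 3 → Fin (sz n) → ZMod 2

theorem vv_add_self (y z : VV) : y + z + z = y := by
  funext n r l p
  show y n r l p + z n r l p + z n r l p = y n r l p
  exact add_self2 _ _

/-- the generators of the acting free group -/
inductive Gen : Type
  | a (b : Bool)
  | c
  | s
  | t
  | e (i j : Fin 3) (A : Option Bool)
deriving DecidableEq, Fintype

/-- translations of the positions -/
def permS (k : KK) (j : ℤ) : VV ≃+ VV where
  toFun y := fun n r => y n (Sum.map (fun x => k⁻¹ * x) (fun i => i - (j : ZMod (n + 1))) r)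
  invFun y := fun n r => y n (Sum.map (fun x => k * x) (fun i => i + (j : ZMod (n + 1))) r)
  left_inv y := by
    funext n r
    rcases r with x | i
    · show y n (Sum.inl (k⁻¹ * (k * x))) = _
      rw [inv_mul_cancel_left]
    · show y n (Sum.inr (i + (j : ZMod (n + 1)) - (j : ZMod (n + 1)))) = _
      rw [add_sub_cancel_right]
  right_inv y := by
    funext n r
    rcases r with x | i
    · show y n (Sum.inl (k * (k⁻¹ * x))) = _
      rw [mul_inv_cancel_left]
    · show y n (Sum.inr (i - (j : ZMod (n + 1)) + (j : ZMod (n + 1)))) = _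
      rw [sub_add_cancel]
  map_add' y z := rfl

theorem permS_inl (k : KK) (j : ℤ) (y : VV) (n : ℕ) (x : KK) :
    permS k j y n (Sum.inl x) = y n (Sum.inl (k⁻¹ * x)) := rfl

theorem permS_inr (k : KK) (j : ℤ) (y : VV) (n : ℕ) (i : ZMod (n + 1)) :
    permS k j y n (Sum.inr i) = y n (Sum.inr (i - (j : ZMod (n + 1)))) := rfl

theorem permS_mul (k k' : KK) (j j' : ℤ) (y : VV) :
    permS k j (permS k' j' y) = permS (k * k') (j + j') y := by
  funext n r
  rcases r with x | i
  · rw [permS_inl, permS_inl, permS_inl, mul_inv_rev, mul_assoc]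
  · rw [permS_inr, permS_inr, permS_inr]
    congr 2
    push_cast
    ring

theorem permS_one (y : VV) : permS 1 0 y = y := by
  funext n r
  rcases r with x | i
  · rw [permS_inl, inv_one, one_mul]
  · rw [permS_inr, Int.cast_zero, sub_zero]

theorem permS_symm (k : KK) (j : ℤ) (y : VV) : (permS k j).symm y = permS k⁻¹ (-j) y := by
  rw [AddEquiv.symm_apply_eq, permS_mul, mul_inv_cancel, add_neg_cancel, permS_one]

open Classical in
/-- transvections between positions -/
noncomputable def transA (p q : ∀ n, Pos n) (h : ∀ n, q n ≠ p n) : VV ≃+ VV where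
  toFun y := fun n r => y n r + if r = p n then y n (q n) else 0
  invFun y := fun n r => y n r + if r = p n then y n (q n) else 0
  left_inv y := by
    funext n r
    show y n r + (if r = p n then y n (q n) else 0) + (if r = p n then y n (q n) +
      (if q n = p n then y n (q n) else 0) else 0) = y n r
    rw [if_neg (h n), add_zero]
    funext l t
    exact add_self2 _ _
  right_inv y := by
    funext n r
    show y n r + (if r = p n then y n (q n) else 0) + (if r = p n then y n (q n) +
      (if q n = p n then y n (q n) else 0) else 0) = y n r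
    rw [if_neg (h n), add_zero]
    funext l t
    exact add_self2 _ _
  map_add' y z := by
    funext n r
    show y n r + z n r + (if r = p n then y n (q n) + z n (q n) else 0) =
      (y n r + (if r = p n then y n (q n) else 0)) + (z n r + (if r = p n then z n (q n) else 0))
    split_ifs
    · abel
    · abel

theorem transA_same (p q : ∀ n, Pos n) (h : ∀ n, q n ≠ p n) (y : VV) (n : ℕ) :
    transA p q h y n (p n) = y n (p n) + y n (q n) := by
  show y n (p n) + (if p n = p n then y n (q n) else 0) = _
  rw [if_pos rfl]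

theorem transA_ne (p q : ∀ n, Pos n) (h : ∀ n, q n ≠ p n) (y : VV) (n : ℕ) (r : Pos n)
    (hr : r ≠ p n) : transA p q h y n r = y n r := by
  show y n r + (if r = p n then y n (q n) else 0) = _
  rw [if_neg hr, add_zero]

theorem transA_symm (p q : ∀ n, Pos n) (h : ∀ n, q n ≠ p n) (y : VV) :
    (transA p q h).symm y = transA p q h y := rfl

/-- elementary operations on the coordinates -/
def elA (i j : Fin 3) (hij : j ≠ i) (A : Option Bool) : VV ≃+ VV where
  toFun y := fun n r l => y n r l + if l = i then rowO A (y n r j) else 0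
  invFun y := fun n r l => y n r l + if l = i then rowO A (y n r j) else 0
  left_inv y := by
    funext n r l
    show y n r l + (if l = i then rowO A (y n r j) else 0) +
      (if l = i then rowO A (y n r j + (if j = i then rowO A (y n r j) else 0)) else 0) = y n r l
    rw [if_neg hij, add_zero]
    funext t
    exact add_self2 _ _
  right_inv y := by
    funext n r l
    show y n r l + (if l = i then rowO A (y n r j) else 0) +
      (if l = i then rowO A (y n r j + (if j = i then rowO A (y n r j) else 0)) else 0) = y n r l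
    rw [if_neg hij, add_zero]
    funext t
    exact add_self2 _ _
  map_add' y z := by
    funext n r l
    show y n r l + z n r l + (if l = i then rowO A (y n r j + z n r j) else 0) =
      (y n r l + (if l = i then rowO A (y n r j) else 0)) +
        (z n r l + (if l = i then rowO A (z n r j) else 0))
    rw [rowO_add]
    split_ifs
    · abel
    · abel

theorem elA_apply (i j : Fin 3) (hij : j ≠ i) (A : Option Bool) (y : VV) (n : ℕ) (r : Pos n)
    (l : Fin 3) : elA i j hij A y n r l = y n r l + if l = i then rowO A (y n r j) else 0 := rfl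

theorem elA_zero (i j : Fin 3) (hij : j ≠ i) (A : Option Bool) (y : VV) (n : ℕ) (r : Pos n)
    (hy : y n r = 0) : elA i j hij A y n r = 0 := by
  funext l
  rw [elA_apply, hy]
  show (0 : Fin (sz n) → ZMod 2) + (if l = i then rowO A 0 else 0) = 0
  rw [rowO_zero]
  simp

/-- the action of the generators -/
noncomputable def genA : Gen → (VV ≃+ VV)
  | .a b => permS (of b) 0
  | .c => permS 1 1
  | .s => transA (fun _ => Sum.inr 0) (fun n => Sum.inl (of true ^ n)) (fun _ => Sum.inl_ne_inr)
  | .t => transA (fun n => Sum.inl (of true ^ n)) (fun _ => Sum.inr 0) (fun _ => Sum.inr_ne_inl)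
  | .e i j A => if h : j ≠ i then elA i j h A else AddEquiv.refl VV

theorem genA_s_inl (y : VV) (n : ℕ) (k : KK) : genA Gen.s y n (Sum.inl k) = y n (Sum.inl k) :=
  transA_ne (fun _ => Sum.inr 0) (fun n => Sum.inl (of true ^ n)) (fun _ => Sum.inl_ne_inr) _ _ _
    Sum.inl_ne_inr

theorem genA_s_inr0 (y : VV) (n : ℕ) : genA Gen.s y n (Sum.inr 0) =
    y n (Sum.inr 0) + y n (Sum.inl (of true ^ n)) :=
  transA_same (fun _ => Sum.inr 0) (fun n => Sum.inl (of true ^ n)) (fun _ => Sum.inl_ne_inr) _ _

theorem genA_s_inr (y : VV) (n : ℕ) (i : ZMod (n + 1)) (hi : i ≠ 0) :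
    genA Gen.s y n (Sum.inr i) = y n (Sum.inr i) :=
  transA_ne (fun _ => Sum.inr 0) (fun n => Sum.inl (of true ^ n)) (fun _ => Sum.inl_ne_inr) _ _ _
    (fun h => hi (Sum.inr_injective h))

theorem genA_t_inr (y : VV) (n : ℕ) (i : ZMod (n + 1)) :
    genA Gen.t y n (Sum.inr i) = y n (Sum.inr i) :=
  transA_ne (fun n => Sum.inl (of true ^ n)) (fun _ => Sum.inr 0) (fun _ => Sum.inr_ne_inl) _ _ _
    Sum.inr_ne_inl

theorem genA_t_inl_pow (y : VV) (n : ℕ) : genA Gen.t y n (Sum.inl (of true ^ n)) =
    y n (Sum.inl (of true ^ n)) + y n (Sum.inr 0) :=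
  transA_same (fun n => Sum.inl (of true ^ n)) (fun _ => Sum.inr 0) (fun _ => Sum.inr_ne_inl) _ _

theorem genA_t_inl (y : VV) (n : ℕ) (k : KK) (hk : k ≠ of true ^ n) :
    genA Gen.t y n (Sum.inl k) = y n (Sum.inl k) :=
  transA_ne (fun n => Sum.inl (of true ^ n)) (fun _ => Sum.inr 0) (fun _ => Sum.inr_ne_inl) _ _ _
    (fun h => hk (Sum.inl_injective h))

/-- the action of the free group -/
noncomputable def act : FreeGroup Gen →* Equiv.Perm VV :=
  FreeGroup.lift fun g => (genA g).toEquiv

theorem act_of (g : Gen) (y : VV) : act (of g) y = genA g y := by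
  unfold act
  rw [FreeGroup.lift_apply_of]
  rfl

theorem act_mul (γ δ : FreeGroup Gen) (y : VV) : act (γ * δ) y = act γ (act δ y) := by
  rw [map_mul]
  rfl

theorem act_one (y : VV) : act 1 y = y := by
  rw [map_one]
  rfl

theorem act_inv_cancel (γ : FreeGroup Gen) (y : VV) : act γ⁻¹ (act γ y) = y := by
  rw [← act_mul, inv_mul_cancel, act_one]

theorem act_cancel_inv (γ : FreeGroup Gen) (y : VV) : act γ (act γ⁻¹ y) = y := by
  rw [← act_mul, mul_inv_cancel, act_one]

theorem act_inv_of (g : Gen) (y : VV) : act (of g)⁻¹ y = (genA g).symm y := by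
  have h1 := act_inv_cancel (of g) ((genA g).symm y)
  rw [act_of, AddEquiv.apply_symm_apply] at h1
  exact h1

theorem act_add (γ : FreeGroup Gen) : ∀ y z : VV, act γ (y + z) = act γ y + act γ z := by
  induction γ using FreeGroup.induction_on with
  | C1 => intro y z; rw [act_one, act_one, act_one]
  | of g => intro y z; rw [act_of, act_of, act_of]; exact (genA g).map_add' y z
  | inv_of g _ => intro y z; rw [act_inv_of, act_inv_of, act_inv_of]; exact (genA g).symm.map_add' y z
  | mul γ δ h1 h2 => intro y z; rw [act_mul, h2, h1, ← act_mul, ← act_mul]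

theorem act_zero (γ : FreeGroup Gen) : act γ 0 = 0 := by
  have h := act_add γ 0 0
  rw [add_zero] at h
  exact left_eq_add.1 h

theorem vv_neg (y : VV) : -y = y := by
  have h := vv_add_self 0 y
  rw [zero_add] at h
  exact neg_eq_of_add_eq_zero_left h

/-- the starting vector -/
noncomputable def v0 : VV := fun _ r l p =>
  open Classical in if r = Sum.inl 1 ∧ l = 0 ∧ p.1 = 0 then 1 else 0

/-- the module generated by `v0` -/
noncomputable def Vs : AddSubgroup VV := AddSubgroup.closure (Set.range fun γ => act γ v0)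

theorem v0_mem : v0 ∈ Vs := AddSubgroup.subset_closure ⟨1, act_one v0⟩

theorem act_mem (γ : FreeGroup Gen) {y : VV} (hy : y ∈ Vs) : act γ y ∈ Vs := by
  unfold Vs at hy
  induction hy using AddSubgroup.closure_induction with
  | mem x hx =>
    obtain ⟨δ, rfl⟩ := hx
    refine AddSubgroup.subset_closure ⟨γ * δ, ?_⟩
    exact act_mul γ δ v0
  | zero => rw [act_zero]; exact Vs.zero_mem
  | add x y _ _ hx hy => rw [act_add]; exact Vs.add_mem hx hy
  | neg x _ hx => rw [vv_neg]; exact hx

theorem act_mem_iff (γ : FreeGroup Gen) {y : VV} : act γ y ∈ Vs ↔ y ∈ Vs := by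
  constructor
  · intro h
    have := act_mem γ⁻¹ h
    rwa [act_inv_cancel] at this
  · exact act_mem γ

/-! ### supports -/

/-- the support property of the elements of the module -/
def Pr (y : VV) : Prop := (∀ n, {k : KK | y n (Sum.inl k) ≠ 0}.Finite) ∧
  ∃ (B : Set KK) (n0 : ℕ), B.Finite ∧ ∀ n, n0 ≤ n →
    (∀ i, y n (Sum.inr i) = 0) ∧ ∀ k, y n (Sum.inl k) ≠ 0 → k ∈ B

theorem Pr_zero : Pr 0 := by
  refine ⟨fun n => ?_, ∅, 0, Set.finite_empty, fun n _ => ⟨fun _ => rfl, fun k hk => ?_⟩⟩
  · convert Set.finite_empty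
    ext k
    simp
  · exact absurd rfl hk

theorem Pr_add {y z : VV} (hy : Pr y) (hz : Pr z) : Pr (y + z) := by
  obtain ⟨hy1, B, n0, hB, hy2⟩ := hy
  obtain ⟨hz1, B', n0', hB', hz2⟩ := hz
  refine ⟨fun n => ?_, B ∪ B', max n0 n0', hB.union hB', fun n hn => ⟨fun i => ?_, fun k hk => ?_⟩⟩
  · refine ((hy1 n).union (hz1 n)).subset ?_
    intro k hk
    by_contra h
    rw [Set.mem_union, not_or] at h
    apply hk
    have h1 : y n (Sum.inl k) = 0 := not_not.1 h.1
    have h2 : z n (Sum.inl k) = 0 := not_not.1 h.2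
    show y n (Sum.inl k) + z n (Sum.inl k) = 0
    rw [h1, h2, add_zero]
  · show y n (Sum.inr i) + z n (Sum.inr i) = 0
    rw [(hy2 n (le_of_max_le_left hn)).1, (hz2 n (le_of_max_le_right hn)).1, add_zero]
  · by_contra h
    rw [Set.mem_union, not_or] at h
    apply hk
    have h1 : y n (Sum.inl k) = 0 := by
      by_contra h3
      exact h.1 ((hy2 n (le_of_max_le_left hn)).2 k h3)
    have h2 : z n (Sum.inl k) = 0 := by
      by_contra h3
      exact h.2 ((hz2 n (le_of_max_le_right hn)).2 k h3)
    show y n (Sum.inl k) + z n (Sum.inl k) = 0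
    rw [h1, h2, add_zero]

theorem Pr_permS (k : KK) (j : ℤ) {y : VV} (hy : Pr y) : Pr (permS k j y) := by
  obtain ⟨hy1, B, n0, hB, hy2⟩ := hy
  refine ⟨fun n => ?_, (fun x => k * x) '' B, n0, hB.image _, fun n hn => ⟨fun i => ?_,
    fun x hx => ?_⟩⟩
  · refine ((hy1 n).image (fun x => k * x)).subset ?_
    intro x hx
    refine ⟨k⁻¹ * x, hx, mul_inv_cancel_left k x⟩
  · rw [permS_inr]
    exact (hy2 n hn).1 _
  · exact ⟨k⁻¹ * x, (hy2 n hn).2 _ hx, mul_inv_cancel_left k x⟩

theorem pow_true_not_mem (B : Set KK) (hB : B.Finite) : ∃ n1 : ℕ, ∀ n, n1 ≤ n →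
    (of true : KK) ^ n ∉ B := by
  have h1 : Function.Injective fun n : ℕ => (of true : KK) ^ n := by
    rw [injective_pow_iff_not_isOfFinOrder]
    exact not_isOfFinOrder_of_isMulTorsionFree (of_ne_one true)
  have h2 : {n : ℕ | (of true : KK) ^ n ∈ B}.Finite := hB.preimage h1.injOn
  obtain ⟨M, hM⟩ := h2.bddAbove
  refine ⟨M + 1, fun n hn h => ?_⟩
  have := hM h
  omega

theorem Pr_s {y : VV} (hy : Pr y) : Pr (genA Gen.s y) := by
  obtain ⟨hy1, B, n0, hB, hy2⟩ := hy
  obtain ⟨n1, hn1⟩ := pow_true_not_mem B hB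
  have h1 : ∀ n (k : KK), genA Gen.s y n (Sum.inl k) = y n (Sum.inl k) := genA_s_inl y
  refine ⟨fun n => ?_, B, max n0 n1, hB, fun n hn => ⟨fun i => ?_, fun k hk => ?_⟩⟩
  · simp only [h1]
    exact hy1 n
  · have h2 : y n (Sum.inl (of true ^ n)) = 0 := by
      by_contra h3
      exact hn1 n (le_of_max_le_right hn) ((hy2 n (le_of_max_le_left hn)).2 _ h3)
    by_cases hi : i = 0
    · subst hi
      rw [genA_s_inr0, h2, (hy2 n (le_of_max_le_left hn)).1, add_zero]
    · rw [genA_s_inr y n i hi, (hy2 n (le_of_max_le_left hn)).1]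
  · rw [h1] at hk
    exact (hy2 n (le_of_max_le_left hn)).2 k hk

theorem Pr_t {y : VV} (hy : Pr y) : Pr (genA Gen.t y) := by
  obtain ⟨hy1, B, n0, hB, hy2⟩ := hy
  have h1 := genA_t_inr y
  have h2 := genA_t_inl y
  have h3 := genA_t_inl_pow y
  refine ⟨fun n => ?_, B, n0, hB, fun n hn => ⟨fun i => ?_, fun k hk => ?_⟩⟩
  · refine ((hy1 n).union (Set.finite_singleton (of true ^ n))).subset ?_
    intro k hk
    by_cases h : k = of true ^ n
    · right; exact h
    · left
      have hk' : genA Gen.t y n (Sum.inl k) ≠ 0 := hk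
      rw [h2 n k h] at hk'
      exact hk'
  · rw [h1, (hy2 n hn).1]
  · by_cases h : k = of true ^ n
    · subst h
      rw [h3, (hy2 n hn).1, add_zero] at hk
      exact (hy2 n hn).2 _ hk
    · rw [h2 n k h] at hk
      exact (hy2 n hn).2 _ hk

theorem Pr_el (i j : Fin 3) (hij : j ≠ i) (A : Option Bool) {y : VV} (hy : Pr y) :
    Pr (elA i j hij A y) := by
  obtain ⟨hy1, B, n0, hB, hy2⟩ := hy
  refine ⟨fun n => ?_, B, n0, hB, fun n hn => ⟨fun t => ?_, fun k hk => ?_⟩⟩
  · refine (hy1 n).subset ?_
    intro k hk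
    by_contra h
    exact hk (elA_zero i j hij A y n _ (not_not.1 h))
  · exact elA_zero i j hij A y n _ ((hy2 n hn).1 t)
  · refine (hy2 n hn).2 k fun h => hk ?_
    exact elA_zero i j hij A y n _ h

theorem genA_symm (g : Gen) (y : VV) : (∃ k j, (genA g).symm y = permS k j y) ∨
    (genA g).symm y = genA g y := by
  cases g with
  | a b => left; exact ⟨_, _, permS_symm _ _ _⟩
  | c => left; exact ⟨_, _, permS_symm _ _ _⟩
  | s => right; rfl
  | t => right; rfl
  | e i j A =>
    right
    show (if h : j ≠ i then elA i j h A else AddEquiv.refl VV).symm y =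
      (if h : j ≠ i then elA i j h A else AddEquiv.refl VV) y
    split_ifs
    · rfl
    · rfl

theorem Pr_gen (g : Gen) {y : VV} (hy : Pr y) : Pr (genA g y) := by
  cases g with
  | a b => exact Pr_permS _ _ hy
  | c => exact Pr_permS _ _ hy
  | s => exact Pr_s hy
  | t => exact Pr_t hy
  | e i j A =>
    show Pr ((if h : j ≠ i then elA i j h A else AddEquiv.refl VV) y)
    split_ifs with h
    · exact Pr_el i j h A hy
    · exact hy

theorem Pr_act (γ : FreeGroup Gen) : ∀ {y : VV}, Pr y → Pr (act γ y) := by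
  induction γ using FreeGroup.induction_on with
  | C1 => intro y hy; rw [act_one]; exact hy
  | of g => intro y hy; rw [act_of]; exact Pr_gen g hy
  | inv_of g _ =>
    intro y hy
    rw [act_inv_of]
    rcases genA_symm g y with ⟨k, j, h⟩ | h
    · rw [h]
      exact Pr_permS _ _ hy
    · rw [h]
      exact Pr_gen g hy
  | mul γ δ h1 h2 => intro y hy; rw [act_mul]; exact h1 (h2 hy)

theorem Pr_v0 : Pr v0 := by
  have h1 : ∀ n (r : Pos n), r ≠ Sum.inl 1 → v0 n r = 0 := by
    intro n r hr
    funext l p
    unfold v0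
    rw [if_neg (fun h => hr h.1)]
    rfl
  refine ⟨fun n => ?_, {1}, 0, Set.finite_singleton 1, fun n _ => ⟨fun i => ?_, fun k hk => ?_⟩⟩
  · refine (Set.finite_singleton (1 : KK)).subset ?_
    intro k hk
    by_contra h
    exact hk (h1 n _ (fun h2 => h (Sum.inl_injective h2)))
  · exact h1 n _ Sum.inr_ne_inl
  · by_contra h
    exact hk (h1 n _ (fun h2 => h (Sum.inl_injective h2)))

theorem Pr_mem {y : VV} (hy : y ∈ Vs) : Pr y := by
  unfold Vs at hy
  induction hy using AddSubgroup.closure_induction with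
  | mem x hx =>
    obtain ⟨δ, rfl⟩ := hx
    exact Pr_act δ Pr_v0
  | zero => exact Pr_zero
  | add x y _ _ hx hy => exact Pr_add hx hy
  | neg x _ hx => rw [vv_neg]; exact hx

/-- `y` has a nonzero coordinate at a position of the free group part -/
def KS (y : VV) : Prop := ∃ (n : ℕ) (k : KK), y n (Sum.inl k) ≠ 0

theorem KS_permS (k : KK) (j : ℤ) {y : VV} (hy : KS y) : KS (permS k j y) := by
  obtain ⟨n, x, hx⟩ := hy
  refine ⟨n, k * x, ?_⟩
  rw [permS_inl, inv_mul_cancel_left]
  exact hx

theorem KS_free {y : VV} (hy : KS y) (hP : Pr y) (k : KK) (h : permS k 0 y = y) : k = 1 := by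
  obtain ⟨n, x, hx⟩ := hy
  refine no_finite_invariant _ (hP.1 n) ⟨x, hx⟩ k ?_
  intro z hz
  have h1 := congrFun (congrFun h n) (Sum.inl (k * z))
  rw [permS_inl, inv_mul_cancel_left] at h1
  show y n (Sum.inl (k * z)) ≠ 0
  rw [← h1]
  exact hz

theorem act_map (k : KK) : ∀ y : VV, act (FreeGroup.map Gen.a k) y = permS k 0 y := by
  induction k using FreeGroup.induction_on with
  | C1 => intro y; rw [map_one, act_one, permS_one]
  | of b =>
    intro y
    rw [FreeGroup.map.of, act_of]
    rfl
  | inv_of b h =>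
    intro y
    rw [map_inv, FreeGroup.map.of, act_inv_of]
    show (permS (of b) 0).symm y = _
    rw [permS_symm, neg_zero]
  | mul x z hx hz => intro y; rw [map_mul, act_mul, hx, hz, permS_mul, add_zero]

theorem act_c_pow (j : ℕ) : ∀ y : VV, act (of Gen.c ^ j) y = permS 1 j y := by
  induction j with
  | zero => intro y; rw [pow_zero, act_one, Nat.cast_zero, permS_one]
  | succ j ih =>
    intro y
    rw [pow_succ, act_mul, ih, act_of, show genA Gen.c y = permS 1 1 y from rfl, permS_mul,
      one_mul]
    push_cast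
    rfl

end Pool.Agent.W663.IA
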