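import Pool.Agent.W663.IA.Gap
import Pool.Agent.Helper436.SN.StmtG

set_option autoImplicit false
set_option linter.unusedSectionVars false

open scoped InnerProductSpace ComplexConjugate

namespace Pool.Agent.W663.IA

open Pool.Agent.Helper278 Pool.Agent.Helper436.SN
open FreeGroup (of of_ne_one)

/-- Property Gamma in the form of Murray and von Neumann. -/
def PropGamma {A : Type} [Ring A] [StarRing A] (τ : A → ℂ) : Prop :=
  ∀ (S : Finset A) (ε : ℝ), 0 < ε → ∃ u ∈ unitary A, τ u = 0 ∧ ∀ x ∈ S, norm2 τ (u * x - x * u) < ε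

section general

variable {G : Type} [Group G]

open Classical in
/-- the basis vectors -/
noncomputable def dl (g : G) : EllTwo G := lp.single 2 g (1 : ℂ)

theorem dirac_eq : dirac G = dl (1 : G) := rfl

theorem inner_dl (g : G) (f : EllTwo G) : ⟪dl g, f⟫_ℂ = f g := by
  classical
  unfold dl
  rw [lp.inner_single_left]
  simp

theorem dl_same (g : G) : (dl g) g = 1 := by
  classical
  exact lp.single_apply_self _ _ _

theorem dl_ne {g h : G} (hh : h ≠ g) : (dl g) h = 0 := by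
  classical
  exact lp.single_apply_ne _ _ _ hh

theorem inner_dl_same (g : G) : ⟪dl g, dl g⟫_ℂ = 1 := by rw [inner_dl, dl_same]

theorem inner_dl_ne {g h : G} (hh : g ≠ h) : ⟪dl g, dl h⟫_ℂ = 0 := by rw [inner_dl, dl_ne hh]

theorem mulRight_dl (k : G) : permOp (Equiv.mulRight k⁻¹) (dl (1 : G)) = dl k := by
  ext h
  rw [permOp_apply]
  show (dl (1 : G)) (h * k⁻¹) = _
  by_cases hk : h = k
  · subst hk
    rw [mul_inv_cancel, dl_same, dl_same]
  · rw [dl_ne hk, dl_ne]
    intro h1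
    apply hk
    rw [mul_inv_eq_one] at h1
    exact h1

theorem comm_rho (z : EllTwo G →L[ℂ] EllTwo G) (hz : z ∈ LG G) (k : G) :
    permOp (Equiv.mulRight k) * z = z * permOp (Equiv.mulRight k) := by
  have h1 : ∀ t ∈ StarSubalgebra.centralizer ℂ (Set.range (leftReg G)), t * z = z * t ∧
      star t * z = z * star t := (StarSubalgebra.mem_centralizer_iff (R := ℂ)).1 hz
  refine (h1 _ ?_).1
  rw [StarSubalgebra.mem_centralizer_iff (R := ℂ)]
  rintro _ ⟨g, rfl⟩
  unfold leftReg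
  have h2 : ∀ a : G, permOp (Equiv.mulLeft a) * permOp (Equiv.mulRight k) =
      permOp (Equiv.mulRight k) * permOp (Equiv.mulLeft a) := by
    intro a
    rw [permOp_mul, permOp_mul]
    congr 1
    ext x
    show a * x * k = a * (x * k)
    rw [mul_assoc]
  refine ⟨h2 _, ?_⟩
  rw [star_permOp]
  exact h2 g⁻¹⁻¹

theorem coef_dl (z : EllTwo G →L[ℂ] EllTwo G) (hz : z ∈ LG G) (h k : G) :
    (z (dl k)) h = (z (dl 1)) (h * k⁻¹) := by
  rw [← mulRight_dl k]
  have h1 := congrArg (fun w : EllTwo G →L[ℂ] EllTwo G => w (dl 1)) (comm_rho z hz k⁻¹)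
  have h2 : permOp (Equiv.mulRight k⁻¹) (z (dl 1)) = z (permOp (Equiv.mulRight k⁻¹) (dl 1)) := h1
  rw [← h2, permOp_apply]
  rfl

theorem bd_char (u : EllTwo G →L[ℂ] EllTwo G) (hu : u ∈ LG G) (hn : ∀ f, ‖u f‖ ≤ ‖f‖)
    {Kf : Type} [AddCommGroup Kf] [Fintype Kf] (j : Kf → G) (hj : Function.Injective j)
    (hj2 : ∀ a b, j a * (j b)⁻¹ = j (a - b)) (χ : Kf → ℂ)
    (hχ : ∀ a b, conj (χ a) * χ b = χ (a - b)) (hχ1 : ∀ a, ‖χ a‖ = 1) :
    ‖∑ c, (u (dl 1)) (j c) * χ c‖ ≤ 1 := by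
  classical
  set f : EllTwo G := ∑ a, χ a • dl (j a) with hf
  have hff : ⟪f, f⟫_ℂ = (Fintype.card Kf : ℂ) := by
    rw [hf, sum_inner]
    have h1 : ∀ a : Kf, ⟪χ a • dl (j a), ∑ b, χ b • dl (j b)⟫_ℂ = 1 := by
      intro a
      rw [inner_sum, Finset.sum_eq_single a]
      · rw [inner_smul_left, inner_smul_right, inner_dl_same, mul_one]
        have := normSq_conj (χ a)
        rw [hχ1 a] at this
        rw [mul_comm, ← this]
        norm_num
      · intro b _ hb
        rw [inner_smul_left, inner_smul_right, inner_dl_ne (fun h => hb (hj h).symm), mul_zero,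
          mul_zero]
      · intro h
        exact absurd (Finset.mem_univ a) h
    rw [Finset.sum_congr rfl fun a _ => h1 a, Finset.sum_const, Finset.card_univ, nsmul_eq_mul,
      mul_one]
  have hnf : ‖f‖ ^ 2 = (Fintype.card Kf : ℝ) := by
    have h1 : ((‖f‖ ^ 2 : ℝ) : ℂ) = ((Fintype.card Kf : ℝ) : ℂ) := by
      rw [Complex.ofReal_pow]
      exact (inner_self_eq_norm_sq_to_K (𝕜 := ℂ) f).symm.trans (hff.trans (by norm_cast))
    exact_mod_cast h1
  have hfu : ⟪f, u f⟫_ℂ = (Fintype.card Kf : ℂ) * ∑ c, (u (dl 1)) (j c) * χ c := by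
    have h1 : u f = ∑ b, χ b • u (dl (j b)) := by
      rw [hf, map_sum]
      refine Finset.sum_congr rfl fun b _ => ?_
      rw [map_smul]
    rw [h1, hf, sum_inner]
    have h2 : ∀ a : Kf, ⟪χ a • dl (j a), ∑ b, χ b • u (dl (j b))⟫_ℂ =
        ∑ c, (u (dl 1)) (j c) * χ c := by
      intro a
      rw [inner_sum]
      have h3 : ∀ b : Kf, ⟪χ a • dl (j a), χ b • u (dl (j b))⟫_ℂ =
          (u (dl 1)) (j (a - b)) * χ (a - b) := by
        intro b
        rw [inner_smul_left, inner_smul_right, inner_dl, coef_dl u hu, hj2, ← hχ a b]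
        ring
      rw [Finset.sum_congr rfl fun b _ => h3 b]
      exact Equiv.sum_comp (Equiv.subLeft a) (fun c => (u (dl 1)) (j c) * χ c)
    rw [Finset.sum_congr rfl fun a _ => h2 a, Finset.sum_const, Finset.card_univ, nsmul_eq_mul]
  have h4 : ‖⟪f, u f⟫_ℂ‖ ≤ (Fintype.card Kf : ℝ) := by
    rw [← hnf]
    refine (norm_inner_le_norm _ _).trans ?_
    rw [sq]
    exact mul_le_mul_of_nonneg_left (hn f) (norm_nonneg _)
  rw [hfu, norm_mul, Complex.norm_natCast] at h4
  have h5 : (0 : ℝ) < Fintype.card Kf := by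
    have : 0 < Fintype.card Kf := Fintype.card_pos_iff.2 ⟨0⟩
    exact_mod_cast this
  by_contra h6
  have h6' := not_le.1 h6
  nlinarith

theorem summable_coef (f : EllTwo G) : Summable fun h => ‖f h‖ ^ 2 := by
  have h1 := lp.hasSum_norm (p := 2) (by norm_num) f
  have h2 : (2 : ENNReal).toReal = ((2 : ℕ) : ℝ) := by norm_num
  rw [h2] at h1
  simp only [Real.rpow_natCast] at h1
  exact h1.summable

theorem tsum_coef (f : EllTwo G) : ∑' h, ‖f h‖ ^ 2 = ‖f‖ ^ 2 := by
  have h1 := lp.hasSum_norm (p := 2) (by norm_num) f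
  have h2 : (2 : ENNReal).toReal = ((2 : ℕ) : ℝ) := by norm_num
  rw [h2] at h1
  simp only [Real.rpow_natCast] at h1
  exact h1.tsum_eq

theorem norm2_trL (z : Elt (LG G)) : norm2 (trL G) z = ‖(z : EllTwo G →L[ℂ] EllTwo G) (dl 1)‖ := by
  unfold norm2
  have h1 : trL G (star z * z) = ((‖(z : EllTwo G →L[ℂ] EllTwo G) (dl 1)‖ ^ 2 : ℝ) : ℂ) := by
    show ⟪dl (1 : G), (star (z : EllTwo G →L[ℂ] EllTwo G))
      ((z : EllTwo G →L[ℂ] EllTwo G) (dl 1))⟫_ℂ = _
    rw [ContinuousLinearMap.star_eq_adjoint, ContinuousLinearMap.adjoint_inner_right,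
      Complex.ofReal_pow]
    exact inner_self_eq_norm_sq_to_K (𝕜 := ℂ) _
  rw [h1, Complex.ofReal_re, Real.sqrt_sq (norm_nonneg _)]

theorem leftReg_mem (g : G) : leftReg G g ∈ LG G := by
  show leftReg G g ∈ StarSubalgebra.centralizer ℂ
    (StarSubalgebra.centralizer ℂ (Set.range (leftReg G)) : Set (EllTwo G →L[ℂ] EllTwo G))
  rw [StarSubalgebra.mem_centralizer_iff (R := ℂ)]
  intro t ht
  have h1 := (StarSubalgebra.mem_centralizer_iff (R := ℂ)).1 ht
  have h2 := h1 _ ⟨g, rfl⟩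
  refine ⟨h2.1.symm, ?_⟩
  have h3 := congrArg star h2.2
  rw [star_mul, star_mul, star_star] at h3
  exact h3

theorem leftReg_apply (g : G) (f : EllTwo G) (h : G) : (leftReg G g f) h = f (g⁻¹ * h) := rfl

theorem leftReg_dl (g : G) : leftReg G g (dl 1) = dl g := by
  ext h
  rw [leftReg_apply]
  by_cases hk : h = g
  · subst hk
    rw [inv_mul_cancel, dl_same, dl_same]
  · rw [dl_ne hk, dl_ne]
    intro h1
    apply hk
    rw [inv_mul_eq_one] at h1
    exact h1.symm

/-- the canonical unitaries as elements of `L(G)` -/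
noncomputable def lmE (g : G) : Elt (LG G) := ⟨leftReg G g, leftReg_mem g⟩

theorem comm_coef (u : Elt (LG G)) (s : G) (h : G) :
    ((((u * lmE s - lmE s * u : Elt (LG G)) : EllTwo G →L[ℂ] EllTwo G)) (dl 1)) (s * h) =
      ((u : EllTwo G →L[ℂ] EllTwo G) (dl 1)) (s * h * s⁻¹) -
        ((u : EllTwo G →L[ℂ] EllTwo G) (dl 1)) h := by
  show ((u : EllTwo G →L[ℂ] EllTwo G) (leftReg G s (dl 1)) -
    leftReg G s ((u : EllTwo G →L[ℂ] EllTwo G) (dl 1))) (s * h) = _
  rw [leftReg_dl]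
  show ((u : EllTwo G →L[ℂ] EllTwo G) (dl s)) (s * h) -
    (leftReg G s ((u : EllTwo G →L[ℂ] EllTwo G) (dl 1))) (s * h) = _
  rw [coef_dl _ u.2, leftReg_apply, inv_mul_cancel_left]

theorem conj_summable (f : EllTwo G) (s : G) :
    Summable fun h => ‖f (s * h * s⁻¹) - f h‖ ^ 2 := by
  have h1 := summable_coef (permOp (MulAut.conj s).toEquiv f - f)
  exact h1

theorem conj_close (u : Elt (LG G)) (s : G) {ε : ℝ}
    (h : norm2 (trL G) (u * lmE s - lmE s * u) < ε) :
    ∑' k, ‖((u : EllTwo G →L[ℂ] EllTwo G) (dl 1)) (s * k * s⁻¹) -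
      ((u : EllTwo G →L[ℂ] EllTwo G) (dl 1)) k‖ ^ 2 ≤ ε ^ 2 := by
  rw [norm2_trL] at h
  have h1 : ∑' k, ‖((u : EllTwo G →L[ℂ] EllTwo G) (dl 1)) (s * k * s⁻¹) -
      ((u : EllTwo G →L[ℂ] EllTwo G) (dl 1)) k‖ ^ 2 =
      ∑' k, ‖((((u * lmE s - lmE s * u : Elt (LG G)) : EllTwo G →L[ℂ] EllTwo G)) (dl 1)) k‖ ^ 2 := by
    rw [← (Equiv.mulLeft s).tsum_eq (fun k => ‖((((u * lmE s - lmE s * u : Elt (LG G)) :
      EllTwo G →L[ℂ] EllTwo G)) (dl 1)) k‖ ^ 2)]
    congr 1
    funext k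
    show _ = ‖((((u * lmE s - lmE s * u : Elt (LG G)) : EllTwo G →L[ℂ] EllTwo G)) (dl 1)) (s * k)‖ ^ 2
    rw [comm_coef]
  rw [h1, tsum_coef]
  exact pow_le_pow_left₀ (norm_nonneg _) h.le 2

end general

/-- `L(GG)` does not have property Gamma. -/
theorem not_gamma : ¬ PropGamma (trL GG) := by
  classical
  intro hΓ
  obtain ⟨u, hu, hτ, hcomm⟩ := hΓ (Finset.univ.image fun g : Gen => lmE (lt (of g))) (1 / 1000)
    (by norm_num)
  set U : EllTwo GG →L[ℂ] EllTwo GG := (u : EllTwo GG →L[ℂ] EllTwo GG) with hU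
  have hUu : U ∈ unitary (EllTwo GG →L[ℂ] EllTwo GG) := by
    rw [Unitary.mem_iff] at hu ⊢
    exact ⟨congrArg Subtype.val hu.1, congrArg Subtype.val hu.2⟩
  have hnorm : ∀ f, ‖U f‖ = ‖f‖ := ContinuousLinearMap.norm_map_of_mem_unitary hUu
  have hd1 : ‖(dl (1 : GG))‖ = 1 := by
    have h1 : ((‖dl (1 : GG)‖ ^ 2 : ℝ) : ℂ) = 1 := by
      rw [Complex.ofReal_pow]
      exact (inner_self_eq_norm_sq_to_K (𝕜 := ℂ) (dl (1 : GG))).symm.trans (inner_dl_same 1)
    have h2 : ‖dl (1 : GG)‖ ^ 2 = 1 := by exact_mod_cast h1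
    nlinarith [norm_nonneg (dl (1 : GG))]
  have hcc : ∀ g : Gen, norm2 (trL GG) (u * lmE (lt (of g)) - lmE (lt (of g)) * u) < 1 / 1000 :=
    fun g => hcomm _ (Finset.mem_image_of_mem _ (Finset.mem_univ g))
  refine gap (fun h => (U (dl 1)) h) (summable_coef _) ?_ ?_ ?_ ?_ ?_
  · rw [tsum_coef, hnorm, hd1, one_pow]
  · have h1 : trL GG u = (U (dl 1)) 1 := by
      show ⟪dl (1 : GG), U (dl 1)⟫_ℂ = _
      rw [inner_dl]
    show (U (dl 1)) 1 = 0
    rw [← h1]
    exact hτ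
  · intro g
    exact conj_summable _ (lt (of g))
  · intro g
    exact conj_close u (lt (of g)) (hcc g)
  · intro N x
    set Kf : AddSubgroup (Fin 3 → II N → ZMod 2) :=
      { carrier := {κ | emb κ ∈ Vs}
        add_mem' := fun {a b} ha hb => by
          show emb (a + b) ∈ Vs
          rw [emb_add]
          exact Vs.add_mem ha hb
        zero_mem' := by
          show emb (0 : Fin 3 → II N → ZMod 2) ∈ Vs
          rw [emb_zero]
          exact Vs.zero_mem
        neg_mem' := fun {a} ha => by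
          show emb (-a) ∈ Vs
          have h1 : -a = a := by
            funext l t
            exact CharTwo.neg_eq (a l t)
          rw [h1]
          exact ha } with hKf
    have hsub : ∀ a b : Fin 3 → II N → ZMod 2, emb (a - b) = emb a + emb b := by
      intro a b
      have h1 : a - b = a + b := by
        funext l t
        exact CharTwo.sub_eq_add _ _
      rw [h1, emb_add]
    have key := bd_char U u.2 (fun f => (hnorm f).le) (Kf := Kf)
      (fun κ => (⟨emb κ.1, κ.2, 1⟩ : GG))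
      (fun a b hab => Subtype.ext (emb_inj (congrArg GG.v hab)))
      (fun a b => by
        apply GG.ext'
        · show emb a.1 + act 1 (act 1⁻¹ (emb b.1)) = emb (a.1 - b.1)
          rw [inv_one, act_one, act_one, hsub]
        · show (1 : FreeGroup Gen) * 1⁻¹ = 1
          rw [inv_one, mul_one])
      (fun κ => ch (bt x κ.1))
      (fun a b => by
        show conj (ch (bt x a.1)) * ch (bt x b.1) = ch (bt x (a.1 - b.1))
        rw [ch_conj, bt_sub_right, ch_add])
      (fun a => ch_norm _)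
    refine le_trans (le_of_eq ?_) key
    congr 1
    have e1 : ∑ κ : Fin 3 → II N → ZMod 2, rst (fun h => (U (dl 1)) h) κ * ch (bt x κ) =
        ∑ κ ∈ Finset.univ.filter (fun κ : Fin 3 → II N → ZMod 2 => κ ∈ Kf),
          rst (fun h => (U (dl 1)) h) κ * ch (bt x κ) := by
      symm
      refine Finset.sum_filter_of_ne fun κ _ hκ => ?_
      by_contra h
      apply hκ
      rw [rst_neg _ κ h, zero_mul]
    rw [e1, Finset.sum_subtype (p := fun κ => κ ∈ Kf) (Finset.univ.filter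
      (fun κ : Fin 3 → II N → ZMod 2 => κ ∈ Kf)) (fun κ => by simp)]
    refine Finset.sum_congr rfl fun c _ => ?_
    rw [rst_pos _ c.1 c.2]

end Pool.Agent.W663.IA
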